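import Pool.Agent.H47.RB.Base

/-!
Certificates.
-/

set_option autoImplicit false
set_option linter.unusedVariables false
set_option linter.unusedSectionVars false
set_option maxHeartbeats 4000000

namespace Pool.Agent.H47.RB

open Finset

section

lemma Cert.ne_nil {q s : ℕ} {L : List Idx} {rp rest : Finset (ℕ × ℕ)}
    (h : Cert q s L rp rest) : L ≠ [] := by
  induction h with
  | leaf A b hb hs => simp
  | att h1 h2 ih1 ih2 => simp [ih1]
  | mrg h1 h2 ih1 ih2 => simp [ih1]

lemma Cert.sub {q s : ℕ} {L : List Idx} {rp rest : Finset (ℕ × ℕ)}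
    (h : Cert q s L rp rest) : ∀ z ∈ rp ∪ rest, ∃ A ∈ L, z ∈ lat q A := by
  induction h with
  | leaf A b hb hs =>
    intro z hz
    simp only [union_empty, mem_sdiff] at hz
    exact ⟨A, by simp, hz.1⟩
  | @att L1 L2 rp1 rest1 rp2 rest2 h1 h2 ih1 ih2 =>
    intro z hz
    simp only [mem_union, mem_sdiff] at hz
    rcases hz with hz | hz | hz | hz
    · obtain ⟨A, hA, h⟩ := ih1 z (mem_union_left _ hz.1)
      exact ⟨A, List.mem_append_left _ hA, h⟩
    · obtain ⟨A, hA, h⟩ := ih1 z (mem_union_right _ hz)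
      exact ⟨A, List.mem_append_left _ hA, h⟩
    · obtain ⟨A, hA, h⟩ := ih2 z (mem_union_left _ hz)
      exact ⟨A, List.mem_append_right _ hA, h⟩
    · obtain ⟨A, hA, h⟩ := ih2 z (mem_union_right _ hz)
      exact ⟨A, List.mem_append_right _ hA, h⟩
  | @mrg L1 L2 rp1 rest1 rp2 rest2 h1 h2 ih1 ih2 =>
    intro z hz
    simp only [mem_union, notMem_empty, false_or] at hz
    rcases hz with (hz | hz) | hz | hz
    · obtain ⟨A, hA, h⟩ := ih1 z (mem_union_left _ hz)
      exact ⟨A, List.mem_append_left _ hA, h⟩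
    · obtain ⟨A, hA, h⟩ := ih1 z (mem_union_right _ hz)
      exact ⟨A, List.mem_append_left _ hA, h⟩
    · obtain ⟨A, hA, h⟩ := ih2 z (mem_union_left _ hz)
      exact ⟨A, List.mem_append_right _ hA, h⟩
    · obtain ⟨A, hA, h⟩ := ih2 z (mem_union_right _ hz)
      exact ⟨A, List.mem_append_right _ hA, h⟩

lemma Cert.inv' {q s : ℕ} {L : List Idx} {rp rest : Finset (ℕ × ℕ)}
    (h : Cert q s L rp rest) :
    (∃ A b, L = [A] ∧ b ⊆ lat q A ∧ b.card ≤ s ∧ rp = lat q A \ b ∧ rest = ∅) ∨
    (∃ L1 L2 rp1 rest1 rp2 rest2, L = L1 ++ L2 ∧ Cert q s L1 rp1 rest1 ∧ Cert q s L2 rp2 rest2 ∧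
      ((rp = rp1 \ hull q L2 ∧ rest = rest1 ∪ (rp2 ∪ rest2)) ∨
        (rp = ∅ ∧ rest = (rp1 ∪ rest1) ∪ (rp2 ∪ rest2)))) := by
  cases h with
  | leaf A b hb hs => exact Or.inl ⟨A, b, rfl, hb, hs, rfl, rfl⟩
  | att h1 h2 => exact Or.inr ⟨_, _, _, _, _, _, rfl, h1, h2, Or.inl ⟨rfl, rfl⟩⟩
  | mrg h1 h2 => exact Or.inr ⟨_, _, _, _, _, _, rfl, h1, h2, Or.inr ⟨rfl, rfl⟩⟩

lemma card_small_subsets {α : Type*} [DecidableEq α] (S : Finset α) (s : ℕ) :
    (S.powerset.filter (fun b => b.card ≤ s)).card ≤ (S.card + 1) ^ s := by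
  induction s with
  | zero =>
    rw [pow_zero]
    apply card_le_one.mpr
    intro a ha b hb
    have h1 := (mem_filter.mp ha).2
    have h2 := (mem_filter.mp hb).2
    rw [card_eq_zero.mp (Nat.le_zero.mp h1), card_eq_zero.mp (Nat.le_zero.mp h2)]
  | succ s ih =>
    have hsub : S.powerset.filter (fun b => b.card ≤ s + 1) ⊆
        ((S.powerset.filter (fun b => b.card ≤ s)) ×ˢ (insertNone S)).image
          (fun p => p.2.elim p.1 (fun x => insert x p.1)) := by
      intro b hb
      obtain ⟨h1, h2⟩ := mem_filter.mp hb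
      rw [mem_powerset] at h1
      rw [mem_image]
      by_cases h3 : b.card ≤ s
      · refine ⟨(b, none), ?_, rfl⟩
        rw [mem_product]
        exact ⟨mem_filter.mpr ⟨mem_powerset.mpr h1, h3⟩, none_mem_insertNone⟩
      · have h4 : b.Nonempty := by
          rw [← card_pos]
          omega
        obtain ⟨x, hx⟩ := h4
        refine ⟨(b.erase x, some x), ?_, insert_erase hx⟩
        rw [mem_product]
        refine ⟨mem_filter.mpr ⟨mem_powerset.mpr ((erase_subset _ _).trans h1), ?_⟩,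
          some_mem_insertNone.mpr (h1 hx)⟩
        rw [card_erase_of_mem hx]
        omega
    calc _ ≤ _ := card_le_card hsub
      _ ≤ _ := card_image_le
      _ = (S.powerset.filter (fun b => b.card ≤ s)).card * (S.card + 1) := by
        rw [card_product, card_insertNone]
      _ ≤ (S.card + 1) ^ s * (S.card + 1) := Nat.mul_le_mul_right _ ih
      _ = _ := (pow_succ _ _).symm

lemma card_lat_le (q : ℕ) (A : Idx) : (lat q A).card ≤ q ^ 2 := by
  unfold lat
  rw [card_product, sq]
  have h : ∀ p : ℕ × ℕ, (ap q p).card ≤ q := by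
    intro p
    unfold ap
    exact card_image_le.trans (by rw [card_range])
  exact Nat.mul_le_mul (h _) (h _)

/-- the number of certificates of a list -/
lemma cert_count (q s K M1 : ℕ) (hK1 : (q ^ 2 + 1) ^ s ≤ K) (hK2 : 2 * M1 ≤ K) (hM1 : 1 ≤ M1) :
    ∀ (n : ℕ) (L : List Idx), L.length = n → 1 ≤ n → n ≤ M1 →
      ∃ P : Finset (Finset (ℕ × ℕ) × Finset (ℕ × ℕ)), P.card ≤ K ^ (2 * n - 1) ∧
        ∀ rp rest : Finset (ℕ × ℕ), Cert q s L rp rest → (rp, rest) ∈ P := by
  intro n
  induction n using Nat.strong_induction_on with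
  | _ n ih =>
  intro L hL hn1 hnM
  rcases Nat.lt_or_ge 1 n with hn | hn
  · -- at least two lattices
    have h1 : ∀ k ∈ Icc 1 (n - 1), ∃ P : Finset (Finset (ℕ × ℕ) × Finset (ℕ × ℕ)),
        P.card ≤ K ^ (2 * k - 1) ∧
        ∀ rp rest : Finset (ℕ × ℕ), Cert q s (L.take k) rp rest → (rp, rest) ∈ P := by
      intro k hk
      rw [mem_Icc] at hk
      exact ih k (by omega) (L.take k) (by rw [List.length_take, hL]; omega) (by omega) (by omega)
    have h2 : ∀ k ∈ Icc 1 (n - 1), ∃ P : Finset (Finset (ℕ × ℕ) × Finset (ℕ × ℕ)),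
        P.card ≤ K ^ (2 * (n - k) - 1) ∧
        ∀ rp rest : Finset (ℕ × ℕ), Cert q s (L.drop k) rp rest → (rp, rest) ∈ P := by
      intro k hk
      rw [mem_Icc] at hk
      exact ih (n - k) (by omega) (L.drop k) (by rw [List.length_drop, hL]) (by omega) (by omega)
    choose! P1 hP1 hP1' using h1
    choose! P2 hP2 hP2' using h2
    let Q : ℕ → Finset (Finset (ℕ × ℕ) × Finset (ℕ × ℕ)) := fun k =>
      ((P1 k ×ˢ P2 k).image (fun x => (x.1.1 \ hull q (L.drop k), x.1.2 ∪ (x.2.1 ∪ x.2.2)))) ∪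
      ((P1 k ×ˢ P2 k).image (fun x => (∅, (x.1.1 ∪ x.1.2) ∪ (x.2.1 ∪ x.2.2))))
    refine ⟨(Icc 1 (n - 1)).biUnion Q, ?_, ?_⟩
    · have hQ : ∀ k ∈ Icc 1 (n - 1), (Q k).card ≤ 2 * K ^ (2 * n - 2) := by
        intro k hk
        have hk' := mem_Icc.mp hk
        have h3 : (P1 k ×ˢ P2 k).card ≤ K ^ (2 * n - 2) := by
          rw [card_product]
          calc _ ≤ K ^ (2 * k - 1) * K ^ (2 * (n - k) - 1) :=
                Nat.mul_le_mul (hP1 k hk) (hP2 k hk)
            _ = K ^ (2 * n - 2) := by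
              rw [← pow_add]
              congr 1
              omega
        calc (Q k).card ≤ _ := card_union_le _ _
          _ ≤ (P1 k ×ˢ P2 k).card + (P1 k ×ˢ P2 k).card :=
            Nat.add_le_add card_image_le card_image_le
          _ ≤ _ := by omega
      calc _ ≤ ∑ k ∈ Icc 1 (n - 1), (Q k).card := card_biUnion_le
        _ ≤ ∑ _k ∈ Icc 1 (n - 1), 2 * K ^ (2 * n - 2) := sum_le_sum hQ
        _ = (n - 1) * (2 * K ^ (2 * n - 2)) := by
          rw [sum_const, Nat.card_Icc, smul_eq_mul]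
          congr 1
        _ = (2 * (n - 1)) * K ^ (2 * n - 2) := by ring
        _ ≤ K * K ^ (2 * n - 2) := Nat.mul_le_mul_right _ (by omega)
        _ = K ^ (2 * n - 1) := by
          rw [← pow_succ']
          congr 1
          omega
    · intro rp rest hc
      rcases hc.inv' with ⟨A, b, hLA, -, -, -, -⟩ | ⟨L1, L2, rp1, rest1, rp2, rest2, hLL, hc1, hc2, hor⟩
      · rw [hLA] at hL
        simp only [List.length_cons, List.length_nil] at hL
        omega
      · have hlen : L1.length + L2.length = n := by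
          rw [← hL, hLL, List.length_append]
        have hl1 : 1 ≤ L1.length := List.length_pos_iff.mpr hc1.ne_nil
        have hl2 : 1 ≤ L2.length := List.length_pos_iff.mpr hc2.ne_nil
        have htake : L.take L1.length = L1 := by rw [hLL]; exact List.take_left' rfl
        have hdrop : L.drop L1.length = L2 := by rw [hLL]; exact List.drop_left' rfl
        have hk : L1.length ∈ Icc 1 (n - 1) := mem_Icc.mpr ⟨hl1, by omega⟩
        have hm1 := hP1' _ hk rp1 rest1 (by rw [htake]; exact hc1)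
        have hm2 := hP2' _ hk rp2 rest2 (by rw [hdrop]; exact hc2)
        rw [mem_biUnion]
        refine ⟨L1.length, hk, ?_⟩
        show _ ∈ _ ∪ _
        rw [mem_union]
        rcases hor with ⟨h3, h4⟩ | ⟨h3, h4⟩
        · left
          rw [mem_image]
          refine ⟨((rp1, rest1), (rp2, rest2)), mem_product.mpr ⟨hm1, hm2⟩, ?_⟩
          rw [h3, h4, hdrop]
        · right
          rw [mem_image]
          refine ⟨((rp1, rest1), (rp2, rest2)), mem_product.mpr ⟨hm1, hm2⟩, ?_⟩
          rw [h3, h4]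
  · have hn' : n = 1 := by omega
    subst hn'
    obtain ⟨A, rfl⟩ := List.length_eq_one_iff.mp hL
    refine ⟨((lat q A).powerset.filter (fun b => b.card ≤ s)).image
      (fun b => (lat q A \ b, ∅)), ?_, ?_⟩
    · calc _ ≤ _ := card_image_le
        _ ≤ ((lat q A).card + 1) ^ s := card_small_subsets _ _
        _ ≤ (q ^ 2 + 1) ^ s := Nat.pow_le_pow_left (Nat.add_le_add_right (card_lat_le q A) 1) s
        _ ≤ K := hK1
        _ = K ^ (2 * 1 - 1) := by norm_num
    · intro rp rest hc
      rcases hc.inv' with ⟨A', b, hLA, hb, hbs, h1, h2⟩ | ⟨L1, L2, rp1, rest1, rp2, rest2, hLL, hc1, hc2, hor⟩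
      · have hA : A = A' := by simpa using hLA
        subst hA
        rw [mem_image]
        exact ⟨b, mem_filter.mpr ⟨mem_powerset.mpr hb, hbs⟩, by rw [h1, h2]⟩
      · have hl1 : 1 ≤ L1.length := List.length_pos_iff.mpr hc1.ne_nil
        have hl2 : 1 ≤ L2.length := List.length_pos_iff.mpr hc2.ne_nil
        have h3 := congrArg List.length hLL
        rw [List.length_append] at h3
        simp only [List.length_cons, List.length_nil] at h3
        omega

end

end Pool.Agent.H47.RB
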