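import Pool.Agent.H47.RB.Defs

/-!
From positional rules to strategies.
-/

set_option autoImplicit false
set_option linter.unusedVariables false
set_option linter.unusedSectionVars false
set_option maxHeartbeats 4000000

namespace Pool.Agent.H47.RB

open Finset

section

/-- the points of the board claimed in the moves number `p, p + 2, ...` -/
def own (N p : ℕ) (h : List (Finset (ℕ × ℕ))) : Finset (ℕ × ℕ) := by
  classical
  exact (board N).filter (fun e => ∃ (i : ℕ) (hi : i < h.length), i % 2 = p ∧ e ∈ h[i]'hi)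

theorem mem_own {N p : ℕ} {h : List (Finset (ℕ × ℕ))} {e : ℕ × ℕ} :
    e ∈ own N p h ↔ e ∈ board N ∧ ∃ (i : ℕ) (hi : i < h.length), i % 2 = p ∧ e ∈ h[i]'hi := by
  classical
  unfold own
  rw [Finset.mem_filter]

theorem uncl_append (N : ℕ) (h : List (Finset (ℕ × ℕ))) (m : Finset (ℕ × ℕ)) :
    unclaimed N (h ++ [m]) = unclaimed N h \ m := by
  ext e
  simp only [unclaimed, mem_filter, mem_sdiff, List.mem_append, List.mem_singleton]
  constructor
  · rintro ⟨h1, h2⟩
    exact ⟨⟨h1, fun m' hm' => h2 m' (Or.inl hm')⟩, h2 m (Or.inr rfl)⟩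
  · rintro ⟨⟨h1, h2⟩, h3⟩
    refine ⟨h1, ?_⟩
    rintro m' (hm' | rfl)
    · exact h2 m' hm'
    · exact h3

theorem getElem_append_lt' (h : List (Finset (ℕ × ℕ))) (m : Finset (ℕ × ℕ)) (i : ℕ)
    (hi : i < h.length) (hi' : i < (h ++ [m]).length) : (h ++ [m])[i]'hi' = h[i]'hi :=
  List.getElem_append_left hi

theorem take_append' (h : List (Finset (ℕ × ℕ))) (m : Finset (ℕ × ℕ)) (i : ℕ)
    (hi : i ≤ h.length) : (h ++ [m]).take i = h.take i := List.take_append_of_le_length hi

theorem play_append (b N : ℕ) (h : List (Finset (ℕ × ℕ))) (m : Finset (ℕ × ℕ))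
    (H : IsPlay b N (h ++ [m])) : IsPlay b N h ∧ IsLegalMove b N h m := by
  constructor
  · intro i hi
    have hi' : i < (h ++ [m]).length := by simp; omega
    have := H i hi'
    rw [getElem_append_lt' h m i hi hi', take_append' h m i hi.le] at this
    exact this
  · have hi' : h.length < (h ++ [m]).length := by simp
    have := H h.length hi'
    rw [take_append' h m _ le_rfl, List.take_length] at this
    have e : (h ++ [m])[h.length]'hi' = m := by simp
    rw [e] at this
    exact this

theorem follows_append (p : ℕ) (σ : List (Finset (ℕ × ℕ)) → Finset (ℕ × ℕ))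
    (h : List (Finset (ℕ × ℕ))) (m : Finset (ℕ × ℕ))
    (H : Follows p σ (h ++ [m])) : Follows p σ h ∧ (h.length % 2 = p → m = σ h) := by
  constructor
  · intro i hi hi2
    have hi' : i < (h ++ [m]).length := by simp; omega
    have := H i hi' hi2
    rw [getElem_append_lt' h m i hi hi', take_append' h m i hi.le] at this
    exact this
  · intro h2
    have hi' : h.length < (h ++ [m]).length := by simp
    have := H h.length hi' h2
    rw [take_append' h m _ le_rfl, List.take_length] at this
    have e : (h ++ [m])[h.length]'hi' = m := by simp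
    rw [e] at this
    exact this

theorem own_subset (N p : ℕ) (h : List (Finset (ℕ × ℕ))) : own N p h ⊆ board N :=
  fun e he => (mem_own.mp he).1

theorem own_append_same (N p : ℕ) (h : List (Finset (ℕ × ℕ))) (m : Finset (ℕ × ℕ))
    (hp : h.length % 2 = p) (hm : m ⊆ board N) : own N p (h ++ [m]) = own N p h ∪ m := by
  ext e
  rw [mem_union, mem_own, mem_own]
  constructor
  · rintro ⟨h1, i, hi, hip, hie⟩
    by_cases hlt : i < h.length
    · rw [getElem_append_lt' h m i hlt hi] at hie
      exact Or.inl ⟨h1, i, hlt, hip, hie⟩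
    · right
      have : i = h.length := by simp at hi; omega
      subst this
      have e : (h ++ [m])[h.length]'hi = m := by simp
      rw [e] at hie
      exact hie
  · rintro (⟨h1, i, hi, hip, hie⟩ | h1)
    · have hi' : i < (h ++ [m]).length := by simp; omega
      refine ⟨h1, i, hi', hip, ?_⟩
      rw [getElem_append_lt' h m i hi hi']
      exact hie
    · have hi' : h.length < (h ++ [m]).length := by simp
      refine ⟨hm h1, h.length, hi', hp, ?_⟩
      have e : (h ++ [m])[h.length]'hi' = m := by simp
      rw [e]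
      exact h1

theorem own_append_other (N p : ℕ) (h : List (Finset (ℕ × ℕ))) (m : Finset (ℕ × ℕ))
    (hp : h.length % 2 ≠ p) : own N p (h ++ [m]) = own N p h := by
  ext e
  rw [mem_own, mem_own]
  constructor
  · rintro ⟨h1, i, hi, hip, hie⟩
    by_cases hlt : i < h.length
    · rw [getElem_append_lt' h m i hlt hi] at hie
      exact ⟨h1, i, hlt, hip, hie⟩
    · have : i = h.length := by simp at hi; omega
      subst this
      exact absurd hip hp
  · rintro ⟨h1, i, hi, hip, hie⟩
    have hi' : i < (h ++ [m]).length := by simp; omega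
    refine ⟨h1, i, hi', hip, ?_⟩
    rw [getElem_append_lt' h m i hi hi']
    exact hie

theorem uncl_eq (N : ℕ) (h : List (Finset (ℕ × ℕ))) :
    unclaimed N h = board N \ (own N 0 h ∪ own N 1 h) := by
  ext e
  rw [mem_sdiff, mem_union, mem_own, mem_own]
  simp only [unclaimed, mem_filter, not_or, not_and, not_exists]
  constructor
  · rintro ⟨h1, h2⟩
    exact ⟨h1, fun _ i hi _ hie => h2 _ (List.getElem_mem hi) hie,
      fun _ i hi _ hie => h2 _ (List.getElem_mem hi) hie⟩
  · rintro ⟨h1, h2, h3⟩
    refine ⟨h1, fun m hm hem => ?_⟩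
    obtain ⟨i, hi, rfl⟩ := List.getElem_of_mem hm
    rcases Nat.mod_two_eq_zero_or_one i with h4 | h4
    · exact h2 h1 i hi h4 hem
    · exact h3 h1 i hi h4 hem

theorem uncl_subset (N : ℕ) (h : List (Finset (ℕ × ℕ))) : unclaimed N h ⊆ board N :=
  filter_subset _ _

theorem own_nil (N p : ℕ) : own N p [] = ∅ := by
  ext e
  rw [mem_own]
  simp

theorem own_disjoint (b N : ℕ) (h : List (Finset (ℕ × ℕ))) (H : IsPlay b N h) :
    Disjoint (own N 0 h) (own N 1 h) := by
  induction h using List.reverseRecOn with
  | nil => rw [own_nil, own_nil]; exact disjoint_empty_left _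
  | append_singleton h m ih =>
    obtain ⟨h1, h2⟩ := play_append b N h m H
    have hd := ih h1
    have hm : m ⊆ unclaimed N h := h2.1
    have hmE : m ⊆ board N := hm.trans (uncl_subset N h)
    rw [uncl_eq] at hm
    have hm0 : Disjoint m (own N 0 h) := by
      rw [Finset.disjoint_left]
      intro e he he'
      have := hm he
      simp only [mem_sdiff, mem_union, not_or] at this
      exact this.2.1 he'
    have hm1 : Disjoint m (own N 1 h) := by
      rw [Finset.disjoint_left]
      intro e he he'
      have := hm he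
      simp only [mem_sdiff, mem_union, not_or] at this
      exact this.2.2 he'
    rcases Nat.mod_two_eq_zero_or_one h.length with h4 | h4
    · rw [own_append_same N 0 h m h4 hmE, own_append_other N 1 h m (by omega)]
      exact Finset.disjoint_union_left.2 ⟨hd, hm1⟩
    · rw [own_append_same N 1 h m h4 hmE, own_append_other N 0 h m (by omega)]
      exact Finset.disjoint_union_right.2 ⟨hd, hm0.symm⟩

theorem owns_of_has (N q : ℕ) (h : List (Finset (ℕ × ℕ))) (H : HasLattice q (own N 0 h)) :
    OwnsLattice h q := by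
  obtain ⟨a, c, x, y, hx, hy, hxy⟩ := H
  exact ⟨a, c, x, y, hx, hy, fun i j hi hj => (mem_own.mp (hxy i j hi hj)).2⟩

theorem has_of_owns (b N q : ℕ) (h : List (Finset (ℕ × ℕ))) (hp : IsPlay b N h)
    (H : OwnsLattice h q) : HasLattice q (own N 0 h) := by
  obtain ⟨a, c, x, y, hx, hy, hxy⟩ := H
  refine ⟨a, c, x, y, hx, hy, fun i j hi hj => ?_⟩
  obtain ⟨k, hk, hk2, hke⟩ := hxy i j hi hj
  exact mem_own.mpr ⟨uncl_subset N _ ((hp k hk).1 hke), k, hk, hk2, hke⟩

theorem quota_even (b : ℕ) (h : List (Finset (ℕ × ℕ))) (h2 : h.length % 2 = 0) : quota b h = 1 := by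
  unfold quota
  rw [if_pos h2]

theorem quota_odd (b : ℕ) (h : List (Finset (ℕ × ℕ))) (h2 : h.length % 2 = 1) : quota b h = b := by
  unfold quota
  rw [if_neg (by omega)]

theorem makerWins_of_rule {b N q : ℕ} (hb : 1 ≤ b) (Good : Finset (ℕ × ℕ) → Finset (ℕ × ℕ) → Prop)
    (h0 : Good ∅ ∅) (hr : MakerRule b N Good)
    (hend : ∀ M B : Finset (ℕ × ℕ), M ⊆ board N → B ⊆ board N → Disjoint M B → Good M B →
      board N \ (M ∪ B) = ∅ → HasLattice q M) : MakerWins b N q := by
  classical
  let Q : List (Finset (ℕ × ℕ)) → Finset (ℕ × ℕ) → Prop := fun h m => m ⊆ unclaimed N h ∧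
    m.card = min 1 (unclaimed N h).card ∧
    ∀ Y : Finset (ℕ × ℕ), Y ⊆ unclaimed N h \ m → Y.card = min b (unclaimed N h \ m).card →
      Good (own N 0 h ∪ m) (own N 1 h ∪ Y)
  let σ : List (Finset (ℕ × ℕ)) → Finset (ℕ × ℕ) := fun h =>
    if H : ∃ m, Q h m then H.choose else ∅
  have hσ1 : ∀ h, (∃ m, Q h m) → Q h (σ h) := by
    intro h h2
    have : σ h = h2.choose := dif_pos h2
    rw [this]
    exact h2.choose_spec
  have hQ : ∀ h, IsPlay b N h → Good (own N 0 h) (own N 1 h) → (unclaimed N h).Nonempty →
      ∃ m, Q h m := by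
    intro h hL hG h3
    obtain ⟨x, hx1, hx2⟩ := hr (own N 0 h) (own N 1 h) (own_subset N 0 h) (own_subset N 1 h)
      (own_disjoint b N h hL) hG (by rw [← uncl_eq]; exact h3)
    have e : board N \ (own N 0 h ∪ own N 1 h ∪ {x}) = unclaimed N h \ {x} := by
      rw [uncl_eq]
      ext y
      simp only [mem_sdiff, mem_union, not_or]
      tauto
    rw [e] at hx2
    rw [← uncl_eq] at hx1
    refine ⟨{x}, Finset.singleton_subset_iff.mpr hx1, ?_, hx2⟩
    have h4 := Finset.card_pos.mpr h3
    rw [Finset.card_singleton]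
    omega
  have hinv : ∀ h : List (Finset (ℕ × ℕ)), IsPlay b N h → Follows 0 σ h →
      (h.length % 2 = 0 → Good (own N 0 h) (own N 1 h)) ∧
      (h.length % 2 = 1 → ∀ Y : Finset (ℕ × ℕ), Y ⊆ unclaimed N h →
        Y.card = min b (unclaimed N h).card → Good (own N 0 h) (own N 1 h ∪ Y)) := by
    intro h
    induction h using List.reverseRecOn with
    | nil =>
      intro _ _
      refine ⟨fun _ => ?_, fun h1 => by simp at h1⟩
      rw [own_nil, own_nil]
      exact h0
    | append_singleton h m ih =>
      intro hL hF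
      obtain ⟨hL', hM⟩ := play_append b N h m hL
      obtain ⟨hF', hmσ⟩ := follows_append 0 σ h m hF
      obtain ⟨ih0, ih1⟩ := ih hL' hF'
      have hmE : m ⊆ board N := hM.1.trans (uncl_subset N h)
      have hlen : (h ++ [m]).length = h.length + 1 := by simp
      rcases Nat.mod_two_eq_zero_or_one h.length with h4 | h4
      · refine ⟨fun h5 => by rw [hlen] at h5; omega, fun _ => ?_⟩
        have hG := ih0 h4
        have hms := hmσ h4
        rw [own_append_same N 0 h m h4 hmE, own_append_other N 1 h m (by omega), uncl_append]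
        have hne : (unclaimed N h).Nonempty := hM.2.2.mono hM.1
        have hq := hσ1 h (hQ h hL' hG hne)
        rw [← hms] at hq
        exact hq.2.2
      · refine ⟨fun _ => ?_, fun h5 => by rw [hlen] at h5; omega⟩
        rw [own_append_other N 0 h m (by omega), own_append_same N 1 h m h4 hmE]
        have hc := hM.2.1
        rw [quota_odd b h h4] at hc
        exact ih1 h4 m hM.1 hc
  refine ⟨σ, ?_, ?_⟩
  · intro h hL hF h2 hne
    have hG := (hinv h hL hF).1 h2
    have hq := hσ1 h (hQ h hL hG hne)
    refine ⟨hq.1, by rw [quota_even b h h2]; exact hq.2.1, ?_⟩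
    rw [← Finset.card_pos, hq.2.1]
    have := Finset.card_pos.2 hne
    omega
  · intro h hL hF hfree
    have hd := own_disjoint b N h hL
    have hG : Good (own N 0 h) (own N 1 h) := by
      rcases Nat.mod_two_eq_zero_or_one h.length with h4 | h4
      · exact (hinv h hL hF).1 h4
      · have := (hinv h hL hF).2 h4 ∅ (by simp) (by rw [hfree]; simp)
        simpa using this
    exact owns_of_has N q h (hend (own N 0 h) (own N 1 h) (own_subset N 0 h) (own_subset N 1 h) hd hG
      (by rw [← uncl_eq]; exact hfree))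

theorem breakerWins_of_rule {b N q : ℕ} (hb : 1 ≤ b) (Good : Finset (ℕ × ℕ) → Finset (ℕ × ℕ) → Prop)
    (h0 : Good ∅ ∅) (hr : BreakerRule b N Good)
    (hend : ∀ M B : Finset (ℕ × ℕ), M ⊆ board N → B ⊆ board N → Disjoint M B → Good M B →
      board N \ (M ∪ B) = ∅ → ¬ HasLattice q M) : BreakerWins b N q := by
  classical
  let Q : List (Finset (ℕ × ℕ)) → Finset (ℕ × ℕ) → Prop := fun h Y => Y ⊆ unclaimed N h ∧
    Y.card = min b (unclaimed N h).card ∧ Good (own N 0 h) (own N 1 h ∪ Y)
  let τ : List (Finset (ℕ × ℕ)) → Finset (ℕ × ℕ) := fun h =>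
    if H : ∃ m, Q h m then H.choose else ∅
  have hτ1 : ∀ h, (∃ m, Q h m) → Q h (τ h) := by
    intro h h2
    have : τ h = h2.choose := dif_pos h2
    rw [this]
    exact h2.choose_spec
  have hinv : ∀ h : List (Finset (ℕ × ℕ)), IsPlay b N h → Follows 1 τ h →
      (h.length % 2 = 0 → Good (own N 0 h) (own N 1 h)) ∧
      (h.length % 2 = 1 → ∃ Y, Q h Y) := by
    intro h
    induction h using List.reverseRecOn with
    | nil =>
      intro _ _
      refine ⟨fun _ => ?_, fun h1 => by simp at h1⟩
      rw [own_nil, own_nil]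
      exact h0
    | append_singleton h m ih =>
      intro hL hF
      obtain ⟨hL', hM⟩ := play_append b N h m hL
      obtain ⟨hF', hmτ⟩ := follows_append 1 τ h m hF
      obtain ⟨ih0, ih1⟩ := ih hL' hF'
      have hmE : m ⊆ board N := hM.1.trans (uncl_subset N h)
      have hlen : (h ++ [m]).length = h.length + 1 := by simp
      rcases Nat.mod_two_eq_zero_or_one h.length with h4 | h4
      · refine ⟨fun h5 => by rw [hlen] at h5; omega, fun _ => ?_⟩
        have hG := ih0 h4
        have hne : (unclaimed N h).Nonempty := hM.2.2.mono hM.1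
        have hcard : m.card = 1 := by
          rw [hM.2.1, quota_even b h h4]
          have := Finset.card_pos.2 hne
          omega
        obtain ⟨x, rfl⟩ := Finset.card_eq_one.mp hcard
        have hx : x ∈ unclaimed N h := hM.1 (Finset.mem_singleton_self x)
        rw [uncl_eq] at hx
        obtain ⟨Y, hb1, hb2, hb3⟩ := hr (own N 0 h) (own N 1 h) (own_subset N 0 h)
          (own_subset N 1 h) (own_disjoint b N h hL') hG x hx
        have e : board N \ (own N 0 h ∪ own N 1 h ∪ {x}) = unclaimed N (h ++ [{x}]) := by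
          rw [uncl_append, uncl_eq]
          ext y
          simp only [mem_sdiff, mem_union, not_or]
          tauto
        rw [e] at hb1 hb2
        refine ⟨Y, hb1, hb2, ?_⟩
        rw [own_append_same N 0 h {x} h4 hmE, own_append_other N 1 h {x} (by omega)]
        exact hb3
      · refine ⟨fun _ => ?_, fun h5 => by rw [hlen] at h5; omega⟩
        have hms := hmτ h4
        have hq := hτ1 h (ih1 h4)
        rw [← hms] at hq
        rw [own_append_other N 0 h m (by omega), own_append_same N 1 h m h4 hmE]
        exact hq.2.2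
  refine ⟨τ, ?_, ?_⟩
  · intro h hL hF h2 hne
    have hq := hτ1 h ((hinv h hL hF).2 h2)
    refine ⟨hq.1, by rw [quota_odd b h h2]; exact hq.2.1, ?_⟩
    rw [← Finset.card_pos, hq.2.1]
    have := Finset.card_pos.2 hne
    omega
  · intro h hL hF hfree hown
    have hd := own_disjoint b N h hL
    have hG : Good (own N 0 h) (own N 1 h) := by
      rcases Nat.mod_two_eq_zero_or_one h.length with h4 | h4
      · exact (hinv h hL hF).1 h4
      · obtain ⟨Y, hb1, _, hb3⟩ := (hinv h hL hF).2 h4
        rw [hfree, Finset.subset_empty] at hb1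
        rw [hb1, Finset.union_empty] at hb3
        exact hb3
    exact hend (own N 0 h) (own N 1 h) (own_subset N 0 h) (own_subset N 1 h) hd hG
      (by rw [← uncl_eq]; exact hfree) (has_of_owns b N q h hL hown)

end

end Pool.Agent.H47.RB
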