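import Pool.Agent.H47.RB.Round
import Pool.Agent.H47.RB.Strat
import Pool.Agent.H47.RB.Lat

/-!
Breaker wins.
-/

set_option autoImplicit false
set_option linter.unusedVariables false
set_option linter.unusedSectionVars false
set_option maxHeartbeats 4000000

namespace Pool.Agent.H47.RB

open Finset

section

lemma good_start {β N q s m0 : ℕ} {Λ : ℝ} (hp : Par β N q s Λ m0) : Good β N q s Λ m0 ∅ ∅ := by
  have hβ2 := hp.hβ
  have hβr : (2 : ℝ) ≤ β := by exact_mod_cast hβ2
  have hβ0 : (0 : ℝ) < β := by linarith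
  have hβi : 1 / (β : ℝ) ≤ 1 := by rw [div_le_one hβ0]; linarith
  have hsum0 : (0 : ℝ) ≤ ∑ C ∈ bigFam β N q s Λ m0 (q ^ 2 * m0), (1 / (β : ℝ)) ^ C.card :=
    Finset.sum_nonneg fun _ _ => by positivity
  have hbig := hp.hbig
  refine ⟨∅, ∅, ⟨⟨?_, ?_, ?_, ?_⟩, ?_, ?_, ?_⟩⟩
  · exact Finset.disjoint_empty_left _
  · intro c hc
    exact absurd hc (Finset.notMem_empty _)
  · intro z hz
    exact absurd hz (Finset.notMem_empty _)
  · intro c hc
    exact absurd hc (Finset.notMem_empty _)
  · intro A hA _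
    right
    rw [Finset.empty_union, Finset.sdiff_empty, card_lat hA]
    exact hp.hs
  · rw [Finset.sdiff_empty, Finset.empty_union]
    have h1 : Pot (β : ℝ) (bigFam β N q s Λ m0 (q ^ 2 * m0)) id ∅ ∅ =
        ∑ C ∈ bigFam β N q s Λ m0 (q ^ 2 * m0), (1 / (β : ℝ)) ^ C.card := by
      unfold Pot
      refine Finset.sum_congr rfl fun C _ => ?_
      rw [if_pos (Finset.disjoint_empty_right _), Finset.sdiff_empty]
      rfl
    rw [h1]
    nlinarith
  · intro z _ _ _ _
    rw [Finset.sdiff_empty, Finset.empty_union]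
    have h1 : Pot (β : ℝ) (bigFam β N q s Λ m0 (q ^ 2 * m0)) id (insert z ∅) ∅ ≤
        (β : ℝ) * ∑ C ∈ bigFam β N q s Λ m0 (q ^ 2 * m0), (1 / (β : ℝ)) ^ C.card := by
      unfold Pot
      rw [Finset.mul_sum]
      refine Finset.sum_le_sum fun C _ => ?_
      rw [if_pos (Finset.disjoint_empty_right _)]
      have h2 : C.card ≤ ((id C : Finset (ℕ × ℕ)) \ insert z ∅).card + 1 := by
        have h3 : C ⊆ insert z (C \ insert z ∅) := by
          intro w hw
          by_cases hwz : w = z
          · rw [hwz]; exact Finset.mem_insert_self _ _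
          · rw [Finset.mem_insert, Finset.mem_sdiff, Finset.mem_insert]
            right
            refine ⟨hw, ?_⟩
            rintro (h | h)
            · exact hwz h
            · exact absurd h (Finset.notMem_empty _)
        exact (Finset.card_le_card h3).trans (Finset.card_insert_le _ _)
      have h4 : (1 / (β : ℝ)) ^ (((id C : Finset (ℕ × ℕ)) \ insert z ∅).card + 1) ≤
          (1 / (β : ℝ)) ^ C.card :=
        pow_le_pow_of_le_one (by positivity) hβi h2
      rw [pow_succ, mul_one_div, div_le_iff₀ hβ0] at h4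
      linarith
    exact lt_of_le_of_lt h1 hbig

lemma good_end {β N q s m0 : ℕ} {Λ : ℝ} (hp : Par β N q s Λ m0) {M B : Finset (ℕ × ℕ)}
    (hM : M ⊆ board N) (hMB : Disjoint M B) (h : Good β N q s Λ m0 M B) : ¬ HasLattice q M := by
  obtain ⟨R, K, h⟩ := h
  intro hL
  obtain ⟨A, hA, hAM⟩ := exists_fam_of_hasLattice hp.hq hM hL
  by_cases hc : ∀ c ∈ K, A ∉ c.S
  · rcases h.out A hA hc with h1 | h1
    · apply h1
      rw [Finset.disjoint_left]
      intro z hz hz'
      exact Finset.disjoint_left.1 hMB (hAM hz) (Finset.mem_sdiff.1 hz').1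
    · have h2 : lat q A \ (M ∪ R) = ∅ := by
        rw [Finset.sdiff_eq_empty_iff_subset]
        exact hAM.trans Finset.subset_union_left
      rw [h2, Finset.card_empty] at h1
      exact absurd h1 (Nat.not_lt_zero _)
  · push_neg at hc
    obtain ⟨c, hcK, hAc⟩ := hc
    have hok := h.sys.ok c hcK
    have h1 : (1 : ℝ) ≤ Pot 2 c.S (lat q) M B :=
      one_le_Pot (by norm_num) hAc hAM (hMB.mono_left hAM)
    have h2 := h1.trans hok.pot0
    have h3 : c.S.card ≤ (c.L.length * q) ^ 4 := card_sub_hull hp.hq c.S c.L hok.sfam hok.shull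
    have h4 : (c.L.length * q) ^ 4 ≤ (m0 * q) ^ 4 :=
      Nat.pow_le_pow_left (Nat.mul_le_mul_right _ hok.len.le) 4
    have h5 : (c.S.card : ℝ) ≤ ((m0 * q : ℕ) : ℝ) ^ 4 := by
      have := h3.trans h4
      exact_mod_cast this
    have h6 : (0 : ℝ) ≤ (1 / 2) ^ s := by positivity
    have h7 : 2 * (c.S.card : ℝ) * (1 / 2) ^ s ≤ 2 * ((m0 * q : ℕ) : ℝ) ^ 4 * (1 / 2) ^ s := by
      apply mul_le_mul_of_nonneg_right _ h6
      linarith
    have h8 := hp.hsm
    linarith

theorem breaker_main {b β N q s m0 : ℕ} {Λ : ℝ} (hb : 1 ≤ b) (hβb : β = b + 1)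
    (hp : Par β N q s Λ m0) : BreakerWins b N q := by
  refine breakerWins_of_rule hb (Good β N q s Λ m0) (good_start hp) ?_ ?_
  · intro M B hM hB hMB hG x hx
    obtain ⟨R, K, h⟩ := hG
    by_cases hxR : x ∈ R
    · exact round_small hb hp hM hB h hx hxR
    · exact round_big hb hβb hp hM hB h hx hxR
  · intro M B hM hB hMB hG _
    exact good_end hp hM hMB hG

end

end Pool.Agent.H47.RB
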