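import Pool.Agent.H47.RB.Halves

/-!
The exact solution.
-/

set_option autoImplicit false
set_option linter.unusedVariables false
set_option linter.unusedSectionVars false
set_option maxHeartbeats 4000000

namespace Pool.Agent.H47.RB

open Finset

section

/-- Two strategies, one for each player, are followed together in some complete play. -/
lemma exists_complete_play {b N : ℕ} (σ τ : List (Finset (ℕ × ℕ)) → Finset (ℕ × ℕ))
    (hσ : IsStrategy b N 0 σ) (hτ : IsStrategy b N 1 τ) :
    ∃ h : List (Finset (ℕ × ℕ)), IsPlay b N h ∧ Follows 0 σ h ∧ Follows 1 τ h ∧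
      unclaimed N h = ∅ := by
  have key : ∀ (n : ℕ) (h : List (Finset (ℕ × ℕ))), (unclaimed N h).card = n → IsPlay b N h →
      Follows 0 σ h → Follows 1 τ h → ∃ h : List (Finset (ℕ × ℕ)), IsPlay b N h ∧
        Follows 0 σ h ∧ Follows 1 τ h ∧ unclaimed N h = ∅ := by
    intro n
    induction n using Nat.strong_induction_on with
    | _ n ih =>
      intro h hn hp hf hg
      by_cases hne : (unclaimed N h).Nonempty
      · obtain ⟨m, hm, hm0, hm1⟩ : ∃ m, IsLegalMove b N h m ∧ (h.length % 2 = 0 → m = σ h) ∧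
            (h.length % 2 = 1 → m = τ h) := by
          by_cases hl : h.length % 2 = 0
          · exact ⟨σ h, hσ h hp hf hl hne, fun _ => rfl, fun e => by omega⟩
          · have hl1 : h.length % 2 = 1 := by omega
            exact ⟨τ h, hτ h hp hg hl1 hne, fun e => by omega, fun _ => rfl⟩
        have hsub : unclaimed N (h ++ [m]) ⊂ unclaimed N h := by
          rw [Finset.ssubset_iff_of_subset]
          · obtain ⟨e, he⟩ := hm.2.2
            refine ⟨e, hm.1 he, ?_⟩
            unfold unclaimed
            rw [Finset.mem_filter]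
            rintro ⟨_, h3⟩
            exact h3 m (by simp) he
          · intro e he
            unfold unclaimed at he ⊢
            rw [Finset.mem_filter] at he ⊢
            exact ⟨he.1, fun m' hm' => he.2 m' (by simp [hm'])⟩
        refine ih _ (hn ▸ Finset.card_lt_card hsub) (h ++ [m]) rfl ?_ ?_ ?_
        · intro i hi
          rw [List.length_append, List.length_singleton] at hi
          by_cases hil : i < h.length
          · rw [List.getElem_append_left hil, List.take_append_of_le_length hil.le]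
            exact hp i hil
          · have hil' : i = h.length := by omega
            subst hil'
            simpa using hm
        · intro i hi hi2
          rw [List.length_append, List.length_singleton] at hi
          by_cases hil : i < h.length
          · rw [List.getElem_append_left hil, List.take_append_of_le_length hil.le]
            exact hf i hil hi2
          · have hil' : i = h.length := by omega
            subst hil'
            simpa using hm0 hi2
        · intro i hi hi2
          rw [List.length_append, List.length_singleton] at hi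
          by_cases hil : i < h.length
          · rw [List.getElem_append_left hil, List.take_append_of_le_length hil.le]
            exact hg i hil hi2
          · have hil' : i = h.length := by omega
            subst hil'
            simpa using hm1 hi2
      · exact ⟨h, hp, hf, hg, Finset.not_nonempty_iff_eq_empty.1 hne⟩
  exact key _ [] rfl (by intro i hi; simp at hi) (by intro i hi; simp at hi)
    (by intro i hi; simp at hi)

lemma not_both {b N q : ℕ} (h1 : MakerWins b N q) (h2 : BreakerWins b N q) : False := by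
  obtain ⟨σ, hσ, hσ2⟩ := h1
  obtain ⟨τ, hτ, hτ2⟩ := h2
  obtain ⟨h, hp, hf, hg, hu⟩ := exists_complete_play σ τ hσ hτ
  exact hτ2 h hp hg hu (hσ2 h hp hf hu)

lemma makerWins_mono {b N q q' : ℕ} (h : MakerWins b N q) (hq : q' ≤ q) :
    MakerWins b N q' := by
  obtain ⟨σ, hσ, hσ2⟩ := h
  refine ⟨σ, hσ, fun h hp hf hu => ?_⟩
  obtain ⟨a, c, x, y, hx, hy, H⟩ := hσ2 h hp hf hu
  exact ⟨a, c, x, y, hx, hy, fun i j hi hj => H i j (by omega) (by omega)⟩

theorem exact (b : ℕ) (hb : 1 ≤ b) : ∃ e : ℕ → ℝ, Filter.Tendsto e Filter.atTop (nhds 0) ∧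
    ∀ᶠ N : ℕ in Filter.atTop, IsGreatest {q : ℕ | 2 ≤ q ∧ MakerWins b N q}
      ⌊Real.sqrt (2 * Real.logb ((b : ℝ) + 1) N) + e N⌋₊ := by
  classical
  obtain ⟨F, hF⟩ : ∃ F : ℕ → ℝ, F = fun N : ℕ => Real.sqrt (2 * Real.logb ((b : ℝ) + 1) N) := ⟨_, rfl⟩
  have hF' : ∀ N : ℕ, Real.sqrt (2 * Real.logb ((b : ℝ) + 1) N) = F N := fun N => by rw [hF]
  have hFt : Filter.Tendsto F Filter.atTop Filter.atTop := by
    rw [hF]
    refine Real.tendsto_sqrt_atTop.comp ?_
    refine Filter.Tendsto.const_mul_atTop (by norm_num) ?_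
    have hb1 : (1 : ℝ) ≤ b := by exact_mod_cast hb
    exact (Real.tendsto_logb_atTop (by linarith)).comp tendsto_natCast_atTop_atTop
  obtain ⟨S, hS⟩ : ∃ S : ℕ → Set ℕ, S = fun N => {q : ℕ | 2 ≤ q ∧ MakerWins b N q} := ⟨_, rfl⟩
  have hSm : ∀ N q, q ∈ S N ↔ 2 ≤ q ∧ MakerWins b N q := by
    intro N q
    rw [hS]
    exact Iff.rfl
  obtain ⟨M₀, hM₀⟩ := maker_half b hb (1 / 2) (by norm_num)
  obtain ⟨B₀, hB₀⟩ := breaker_half b hb (1 / 2) (by norm_num)
  obtain ⟨N₂, hN₂⟩ := Filter.eventually_atTop.1 (hFt.eventually_ge_atTop 3)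
  have hgr : ∀ N, max (max M₀ B₀) N₂ ≤ N → IsGreatest (S N) (sSup (S N)) := by
    intro N hN
    have e1 : M₀ ≤ N := le_trans (le_trans (le_max_left _ _) (le_max_left _ _)) hN
    have e2 : B₀ ≤ N := le_trans (le_trans (le_max_right _ _) (le_max_left _ _)) hN
    have e3 : N₂ ≤ N := le_trans (le_max_right _ _) hN
    have hne : (S N).Nonempty := by
      refine ⟨2, (hSm N 2).2 ⟨le_refl 2, hM₀ N e1 2 ?_⟩⟩
      rw [hF']
      have := hN₂ N e3
      push_cast
      linarith
    have hbd : BddAbove (S N) := by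
      refine ⟨⌈F N + 1 / 2⌉₊, fun q hq => ?_⟩
      by_contra hlt
      push Not at hlt
      have h3 : F N + 1 / 2 ≤ q := (Nat.le_ceil _).trans (by exact_mod_cast hlt.le)
      exact not_both ((hSm N q).1 hq).2 (hB₀ N e2 q (by rw [hF']; exact h3))
    exact ⟨Nat.sSup_mem hne hbd, fun q hq => le_csSup hbd hq⟩
  obtain ⟨a, ha⟩ : ∃ a : ℕ → ℕ, a = fun N => sSup (S N) := ⟨_, rfl⟩
  have hgr' : ∀ N, max (max M₀ B₀) N₂ ≤ N → IsGreatest (S N) (a N) := by
    intro N hN
    rw [ha]
    exact hgr N hN
  have hB : ∀ ε : ℝ, 0 < ε → ∃ N₃ : ℕ, ∀ N, N₃ ≤ N → (a N : ℝ) < F N + ε ∧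
      F N - ε < (a N : ℝ) + 1 := by
    intro ε hε
    obtain ⟨M₁, hM₁⟩ := maker_half b hb ε hε
    obtain ⟨B₁, hB₁⟩ := breaker_half b hb ε hε
    refine ⟨max (max (max M₀ B₀) N₂) (max M₁ B₁), fun N hN => ?_⟩
    have g := hgr' N (le_trans (le_max_left _ _) hN)
    have e1 : M₁ ≤ N := le_trans (le_trans (le_max_left _ _) (le_max_right _ _)) hN
    have e2 : B₁ ≤ N := le_trans (le_trans (le_max_right _ _) (le_max_right _ _)) hN
    have g1 := (hSm N _).1 g.1
    constructor
    · by_contra hc
      push Not at hc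
      exact not_both g1.2 (hB₁ N e2 (a N) (by rw [hF']; exact hc))
    · by_contra hc
      push Not at hc
      have h5 : a N + 1 ∈ S N :=
        (hSm N _).2 ⟨by omega, hM₁ N e1 (a N + 1) (by rw [hF']; push_cast; exact hc)⟩
      have h6 := g.2 h5
      omega
  refine ⟨fun N => if F N < a N then (a N : ℝ) - F N else if (a N : ℝ) + 1 ≤ F N then
    (a N : ℝ) + 1 - F N - 1 / ((N : ℝ) + 2) else 0, ?_, ?_⟩
  · rw [Metric.tendsto_atTop]
    intro ε hε
    obtain ⟨N₃, hN₃⟩ := hB (ε / 2) (half_pos hε)
    obtain ⟨n₀, hn₀⟩ := exists_nat_one_div_lt (half_pos hε)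
    refine ⟨max N₃ n₀, fun N hN => ?_⟩
    have g := hN₃ N (le_trans (le_max_left _ _) hN)
    have h7 : (n₀ : ℝ) ≤ N := by exact_mod_cast (le_trans (le_max_right _ _) hN)
    have h8 : 1 / ((N : ℝ) + 2) < ε / 2 := by
      refine lt_of_le_of_lt ?_ hn₀
      apply one_div_le_one_div_of_le
      · positivity
      · linarith
    have h9 : 0 < 1 / ((N : ℝ) + 2) := by positivity
    rw [Real.dist_eq, sub_zero]
    show |if F N < a N then (a N : ℝ) - F N else if (a N : ℝ) + 1 ≤ F N then
      (a N : ℝ) + 1 - F N - 1 / ((N : ℝ) + 2) else 0| < ε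
    split_ifs with c1 c2
    · rw [abs_lt]
      constructor <;> linarith [g.1, g.2]
    · rw [abs_lt]
      constructor <;> linarith [g.1, g.2]
    · simpa using hε
  · rw [Filter.eventually_atTop]
    refine ⟨max (max M₀ B₀) N₂, fun N hN => ?_⟩
    have g := hgr' N hN
    rw [hF']
    have hfl : ⌊F N + (if F N < a N then (a N : ℝ) - F N else if (a N : ℝ) + 1 ≤ F N then
        (a N : ℝ) + 1 - F N - 1 / ((N : ℝ) + 2) else 0)⌋₊ = a N := by
      have h9 : 0 < 1 / ((N : ℝ) + 2) := by positivity
      have h10 : 1 / ((N : ℝ) + 2) ≤ 1 := by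
        rw [div_le_one (by positivity)]
        have : (0 : ℝ) ≤ N := Nat.cast_nonneg N
        linarith
      have hF0 : 0 ≤ F N := by rw [← hF']; exact Real.sqrt_nonneg _
      have ha0 : (0 : ℝ) ≤ a N := Nat.cast_nonneg _
      split_ifs with c1 c2
      · have : F N + ((a N : ℝ) - F N) = (a N : ℝ) := by ring
        rw [this, Nat.floor_natCast]
      · rw [Nat.floor_eq_iff (by linarith)]
        constructor <;> linarith
      · rw [Nat.floor_eq_iff (by linarith)]
        push Not at c1 c2
        constructor <;> linarith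
    have g' : IsGreatest {q : ℕ | 2 ≤ q ∧ MakerWins b N q} (a N) := by
      rw [hS] at g
      exact g
    show IsGreatest {q : ℕ | 2 ≤ q ∧ MakerWins b N q}
      ⌊F N + (if F N < a N then (a N : ℝ) - F N else if (a N : ℝ) + 1 ≤ F N then
        (a N : ℝ) + 1 - F N - 1 / ((N : ℝ) + 2) else 0)⌋₊
    rw [hfl]
    exact g'

end

end Pool.Agent.H47.RB
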