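import Pool.Agent.H47.RB.H40Win

namespace Pool.Agent.H47.RB.H40R

open Finset Pool.Agent.H47.RB

/-- index of an arithmetic progression: start `p.1 + 1`, step `q (t + p.2) + 1` -/
abbrev AP (q t : ℕ) : Type := Fin (q * t) × Fin t

/-- the step -/
def step {q t : ℕ} (p : AP q t) : ℕ := q * (t + p.2.1) + 1

/-- the points -/
def apts {q t : ℕ} (p : AP q t) : Finset ℕ := (range q).image (fun i => p.1.1 + 1 + i * step p)

theorem step_pos {q t : ℕ} (p : AP q t) : 0 < step p := Nat.succ_pos _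

theorem mem_apts {q t : ℕ} {p : AP q t} {v : ℕ} :
    v ∈ apts p ↔ ∃ i < q, p.1.1 + 1 + i * step p = v := by
  simp [apts]

theorem card_apts {q t : ℕ} (p : AP q t) : (apts p).card = q := by
  unfold apts
  rw [card_image_of_injective, card_range]
  intro i j h
  have h1 : i * step p = j * step p := by simpa using h
  exact Nat.eq_of_mul_eq_mul_right (step_pos p) h1

/-- two members with two common points are equal -/
theorem ap_unique {q t : ℕ} {p p' : AP q t} {v w : ℕ} (hvw : v ≠ w) (hv : v ∈ apts p)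
    (hw : w ∈ apts p) (hv' : v ∈ apts p') (hw' : w ∈ apts p') : p = p' := by
  rw [mem_apts] at hv hw hv' hw'
  obtain ⟨i, hi, ei⟩ := hv
  obtain ⟨j, hj, ej⟩ := hw
  obtain ⟨i', hi', ei'⟩ := hv'
  obtain ⟨j', hj', ej'⟩ := hw'
  -- work in the integers
  have hs : (step p : ℤ) = q * (t + p.2.1) + 1 := by unfold step; push_cast; ring
  have hs' : (step p' : ℤ) = q * (t + p'.2.1) + 1 := by unfold step; push_cast; ring
  have E1 : (p.1.1 : ℤ) + 1 + i * step p = p'.1.1 + 1 + i' * step p' := by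
    exact_mod_cast ei.trans ei'.symm
  have E2 : (p.1.1 : ℤ) + 1 + j * step p = p'.1.1 + 1 + j' * step p' := by
    exact_mod_cast ej.trans ej'.symm
  have hij : (i : ℤ) ≠ j := by
    intro h
    have : i = j := by exact_mod_cast h
    subst this
    exact hvw (ei.symm.trans ej)
  have E3 : ((j : ℤ) - i) * step p = ((j' : ℤ) - i') * step p' := by linear_combination E2 - E1
  have hspos : (0 : ℤ) < step p := by exact_mod_cast step_pos p
  have hspos' : (0 : ℤ) < step p' := by exact_mod_cast step_pos p'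
  -- congruence modulo q
  have E4 : (q : ℤ) ∣ ((j : ℤ) - i) - ((j' : ℤ) - i') := by
    rw [hs, hs'] at E3
    refine ⟨((j' : ℤ) - i') * (t + p'.2.1) - ((j : ℤ) - i) * (t + p.2.1), ?_⟩
    linear_combination E3
  have hq : (0 : ℤ) < q := by
    have : 0 < q := lt_of_le_of_lt (Nat.zero_le _) hi
    exact_mod_cast this
  have hiq : (i : ℤ) < q := by exact_mod_cast hi
  have hjq : (j : ℤ) < q := by exact_mod_cast hj
  have hiq' : (i' : ℤ) < q := by exact_mod_cast hi'
  have hjq' : (j' : ℤ) < q := by exact_mod_cast hj'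
  have hi0 : (0 : ℤ) ≤ i := by positivity
  have hj0 : (0 : ℤ) ≤ j := by positivity
  have hi0' : (0 : ℤ) ≤ i' := by positivity
  have hj0' : (0 : ℤ) ≤ j' := by positivity
  have E5 : ((j : ℤ) - i) = ((j' : ℤ) - i') := by
    have habs : |((j : ℤ) - i) - ((j' : ℤ) - i')| < q := by
      rcases lt_or_gt_of_ne hij with h | h
      · -- i < j
        have h1 : 0 < ((j : ℤ) - i) * step p := mul_pos (by linarith) hspos
        rw [E3] at h1
        have h2 : 0 < (j' : ℤ) - i' := by
          by_contra h3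
          push Not at h3
          nlinarith
        rw [abs_lt]
        constructor <;> linarith
      · have h1 : ((j : ℤ) - i) * step p < 0 := mul_neg_of_neg_of_pos (by linarith) hspos
        rw [E3] at h1
        have h2 : (j' : ℤ) - i' < 0 := by
          by_contra h3
          push Not at h3
          nlinarith
        rw [abs_lt]
        constructor <;> linarith
    have := Int.eq_zero_of_abs_lt_dvd E4 habs
    linarith
  have E6 : (step p : ℤ) = step p' := by
    rw [E5] at E3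
    have h1 : ((j' : ℤ) - i') ≠ 0 := by
      rw [← E5]
      intro h
      apply hij
      linarith
    exact mul_left_cancel₀ h1 E3
  have E7 : p.2 = p'.2 := by
    rw [hs, hs'] at E6
    have h1 : (q : ℤ) * (t + p.2.1) = q * (t + p'.2.1) := by linarith
    have h2 := mul_left_cancel₀ hq.ne' h1
    apply Fin.ext
    have h3 : ((p.2.1 : ℕ) : ℤ) = ((p'.2.1 : ℕ) : ℤ) := by linarith
    exact Int.ofNat.inj h3
  have E8 : (p.1.1 : ℤ) - p'.1.1 = ((i' : ℤ) - i) * step p := by
    rw [← E6] at E1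
    linear_combination E1
  have hb : (p.1.1 : ℤ) < q * t := by exact_mod_cast p.1.2
  have hb' : (p'.1.1 : ℤ) < q * t := by exact_mod_cast p'.1.2
  have hb0 : (0 : ℤ) ≤ p.1.1 := by positivity
  have hb0' : (0 : ℤ) ≤ p'.1.1 := by positivity
  have hst : (q : ℤ) * t < step p := by
    rw [hs]
    have : (0 : ℤ) ≤ q * p.2.1 := by positivity
    have h2 : (q : ℤ) * (t + p.2.1) = q * t + q * p.2.1 := by ring
    rw [h2]
    linarith
  have E9 : (p.1.1 : ℤ) - p'.1.1 = 0 := by
    apply Int.eq_zero_of_abs_lt_dvd (m := step p)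
    · exact ⟨(i' : ℤ) - i, by rw [E8]; ring⟩
    · rw [abs_lt]
      constructor <;> linarith
  have E10 : p.1 = p'.1 := by
    apply Fin.ext
    have h3 : ((p.1.1 : ℕ) : ℤ) = ((p'.1.1 : ℕ) : ℤ) := by linarith
    exact Int.ofNat.inj h3
  exact Prod.ext E10 E7

theorem apts_le {q t N : ℕ} (hN : 2 * q ^ 2 * t ≤ N) (p : AP q t) : apts p ⊆ Icc 1 N := by
  intro v hv
  rw [mem_apts] at hv
  obtain ⟨i, hi, rfl⟩ := hv
  rw [mem_Icc]
  refine ⟨by omega, ?_⟩
  have h1 : p.1.1 + 1 ≤ q * t := p.1.2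
  have h2 : p.2.1 + 1 ≤ t := p.2.2
  have h3 : step p ≤ 2 * q * t := by
    unfold step
    have : q * (t + (p.2.1 + 1)) ≤ q * (t + t) := Nat.mul_le_mul_left _ (by omega)
    have hq : 0 < q := by omega
    nlinarith
  have h4 : i * step p ≤ (q - 1) * (2 * q * t) := Nat.mul_le_mul (by omega) h3
  obtain ⟨r, rfl⟩ : ∃ r, q = r + 1 := ⟨q - 1, by omega⟩
  simp only [Nat.add_sub_cancel] at h4
  nlinarith

/-- at most `q t` progressions contain a given point -/
theorem count_through {q t : ℕ} (v : ℕ) :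
    (univ.filter (fun p : AP q t => v ∈ apts p)).card ≤ q * t := by
  classical
  have hch : ∀ p : AP q t, ∃ i, v ∈ apts p → i < q ∧ p.1.1 + 1 + i * step p = v := by
    intro p
    by_cases h : v ∈ apts p
    · obtain ⟨i, hi, e⟩ := mem_apts.1 h
      exact ⟨i, fun _ => ⟨hi, e⟩⟩
    · exact ⟨0, fun h' => absurd h' h⟩
  choose f hf using hch
  have h : (univ.filter (fun p : AP q t => v ∈ apts p)).card ≤
      ((range q) ×ˢ (univ : Finset (Fin t))).card := by
    apply card_le_card_of_injOn (fun p => (f p, p.2))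
    · intro p hp
      have hp' := (mem_filter.1 (mem_coe.1 hp)).2
      rw [mem_coe, mem_product]
      exact ⟨mem_range.2 (hf p hp').1, mem_univ _⟩
    · intro p hp p' hp' he
      have h1 := hf p (mem_filter.1 (mem_coe.1 hp)).2
      have h2 := hf p' (mem_filter.1 (mem_coe.1 hp')).2
      simp only [Prod.mk.injEq] at he
      have h3 : step p = step p' := by unfold step; rw [he.2]
      have h4 : p.1.1 + 1 + f p * step p = p'.1.1 + 1 + f p * step p := by
        rw [h1.2, ← h2.2, he.1, h3]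
      have h5 : p.1.1 = p'.1.1 := by omega
      exact Prod.ext (Fin.ext h5) he.2
  rw [card_product, card_range, card_univ, Fintype.card_fin] at h
  exact h

/-- the lattice points -/
def rpts {q t : ℕ} (A : AP q t × AP q t) : Finset (ℕ × ℕ) := apts A.1 ×ˢ apts A.2

/-- points of a line: `true` horizontal, `false` vertical -/
def rlp {q t : ℕ} (l : Bool × AP q t × ℕ) : Finset (ℕ × ℕ) :=
  if l.1 then apts l.2.1 ×ˢ {l.2.2} else {l.2.2} ×ˢ apts l.2.1

/-- lattices through a line -/
def rthr {q t : ℕ} (l : Bool × AP q t × ℕ) : Finset (AP q t × AP q t) :=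
  if l.1 then univ.filter (fun A => A.1 = l.2.1 ∧ l.2.2 ∈ apts A.2)
  else univ.filter (fun A => A.2 = l.2.1 ∧ l.2.2 ∈ apts A.1)

theorem mem_rthr_true {q t : ℕ} {p : AP q t} {v : ℕ} {A : AP q t × AP q t} :
    A ∈ rthr (true, p, v) ↔ A.1 = p ∧ v ∈ apts A.2 := by
  simp [rthr]

theorem mem_rthr_false {q t : ℕ} {p : AP q t} {v : ℕ} {A : AP q t × AP q t} :
    A ∈ rthr (false, p, v) ↔ A.2 = p ∧ v ∈ apts A.1 := by
  simp [rthr]

theorem mem_rlp_true {q t : ℕ} {p : AP q t} {v : ℕ} {x : ℕ × ℕ} :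
    x ∈ rlp (true, p, v) ↔ x.1 ∈ apts p ∧ x.2 = v := by
  unfold rlp
  rw [if_pos rfl, mem_product, mem_singleton]

theorem mem_rlp_false {q t : ℕ} {p : AP q t} {v : ℕ} {x : ℕ × ℕ} :
    x ∈ rlp (false, p, v) ↔ x.1 = v ∧ x.2 ∈ apts p := by
  unfold rlp
  rw [if_neg (by simp), mem_product, mem_singleton]

theorem mem_rpts {q t : ℕ} {A : AP q t × AP q t} {x : ℕ × ℕ} :
    x ∈ rpts A ↔ x.1 ∈ apts A.1 ∧ x.2 ∈ apts A.2 := by
  simp [rpts, mem_product]

/-- The system of lattices. -/
def sys (b : ℕ) (hb : 1 ≤ b) (q t N : ℕ) (hN : 2 * q ^ 2 * t ≤ N) :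
    Sys (ℕ × ℕ) (AP q t × AP q t) (Bool × AP q t × ℕ) where
  b := b
  hb := hb
  pts := rpts
  lp := rlp
  thr := rthr
  lines := univ ×ˢ univ ×ˢ Icc 1 N
  K := 2 * q
  s := q ^ 2
  sub := by
    rintro ⟨b, p, v⟩ A hA x hx
    rw [mem_rpts]
    cases b
    · rw [mem_rthr_false] at hA
      rw [mem_rlp_false] at hx
      rw [hx.1, hA.1]
      exact ⟨hA.2, hx.2⟩
    · rw [mem_rthr_true] at hA
      rw [mem_rlp_true] at hx
      rw [hx.2, hA.1]
      exact ⟨hx.1, hA.2⟩
  uniq := by
    rintro ⟨b, p, v⟩ A B x hA hB hx hxA hxB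
    rw [mem_rpts] at hxA hxB
    cases b
    · rw [mem_rthr_false] at hA hB
      rw [mem_rlp_false] at hx
      have h1 : x.1 ≠ v := by
        intro h
        apply hx
        refine ⟨h, ?_⟩
        rw [← hA.1]
        exact hxA.2
      exact Prod.ext (ap_unique h1 hxA.1 hA.2 hxB.1 hB.2) (hA.1.trans hB.1.symm)
    · rw [mem_rthr_true] at hA hB
      rw [mem_rlp_true] at hx
      have h1 : x.2 ≠ v := by
        intro h
        apply hx
        refine ⟨?_, h⟩
        rw [← hA.1]
        exact hxA.1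
      exact Prod.ext (hA.1.trans hB.1.symm) (ap_unique h1 hxA.2 hA.2 hxB.2 hB.2)
  pair := by
    intro x y hxy
    by_cases h1 : x.1 = y.1
    · have h2 : x.2 ≠ y.2 := fun h => hxy (Prod.ext h1 h)
      by_cases h3 : ∃ A : AP q t × AP q t, x ∈ rpts A ∧ y ∈ rpts A
      · obtain ⟨A, hxA, hyA⟩ := h3
        rw [mem_rpts] at hxA hyA
        right
        refine ⟨(false, A.2, x.1), ?_, ?_, ?_, ?_⟩
        · simp only [mem_product, mem_univ, true_and]
          exact apts_le hN A.1 hxA.1
        · rw [mem_rlp_false]; exact ⟨rfl, hxA.2⟩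
        · rw [mem_rlp_false]; exact ⟨h1.symm, hyA.2⟩
        · intro B hxB hyB
          rw [mem_rpts] at hxB hyB
          rw [mem_rthr_false]
          exact ⟨ap_unique h2 hxB.2 hyB.2 hxA.2 hyA.2, hxB.1⟩
      · left
        intro A B hx hy
        exact absurd ⟨A, hx, hy⟩ h3
    · by_cases h2 : x.2 = y.2
      · by_cases h3 : ∃ A : AP q t × AP q t, x ∈ rpts A ∧ y ∈ rpts A
        · obtain ⟨A, hxA, hyA⟩ := h3
          rw [mem_rpts] at hxA hyA
          right
          refine ⟨(true, A.1, x.2), ?_, ?_, ?_, ?_⟩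
          · simp only [mem_product, mem_univ, true_and]
            exact apts_le hN A.2 hxA.2
          · rw [mem_rlp_true]; exact ⟨hxA.1, rfl⟩
          · rw [mem_rlp_true]; exact ⟨hyA.1, h2.symm⟩
          · intro B hxB hyB
            rw [mem_rpts] at hxB hyB
            rw [mem_rthr_true]
            exact ⟨ap_unique h1 hxB.1 hyB.1 hxA.1 hyA.1, hxB.2⟩
        · left
          intro A B hx hy
          exact absurd ⟨A, hx, hy⟩ h3
      · left
        intro A B hxA hyA hxB hyB
        rw [mem_rpts] at hxA hyA hxB hyB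
        exact Prod.ext (ap_unique h1 hxA.1 hyA.1 hxB.1 hyB.1)
          (ap_unique h2 hxA.2 hyA.2 hxB.2 hyB.2)
  cnt := by
    intro A
    have h : (univ ×ˢ univ ×ˢ Icc 1 N : Finset (Bool × AP q t × ℕ)).filter
        (fun l => A ∈ rthr l) ⊆
        ((apts A.2).image (fun v => (true, A.1, v))) ∪
        ((apts A.1).image (fun v => (false, A.2, v))) := by
      rintro ⟨b, p, v⟩ hl
      have hl' := (mem_filter.1 hl).2
      rw [mem_union, mem_image, mem_image]
      cases b
      · rw [mem_rthr_false] at hl'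
        right
        exact ⟨v, hl'.2, by rw [hl'.1]⟩
      · rw [mem_rthr_true] at hl'
        left
        exact ⟨v, hl'.2, by rw [hl'.1]⟩
    refine (card_le_card h).trans ((card_union_le _ _).trans ?_)
    have h1 := card_image_le (s := apts A.2) (f := fun v => (true, A.1, v))
    have h2 := card_image_le (s := apts A.1) (f := fun v => (false, A.2, v))
    rw [card_apts] at h1 h2
    omega
  size := by
    intro A
    unfold rpts
    rw [card_product, card_apts, card_apts]
    exact (sq q).symm.le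

theorem sys_board {b : ℕ} (hb : 1 ≤ b) {q t N : ℕ} (hN : 2 * q ^ 2 * t ≤ N) (A : AP q t × AP q t) :
    (sys b hb q t N hN).pts A ⊆ board N := by
  intro x hx
  have hx' : x ∈ rpts A := hx
  rw [mem_rpts] at hx'
  unfold board
  rw [mem_product]
  exact ⟨apts_le hN _ hx'.1, apts_le hN _ hx'.2⟩

theorem sys_lattice {b : ℕ} (hb : 1 ≤ b) {q t N : ℕ} (hN : 2 * q ^ 2 * t ≤ N) (A : AP q t × AP q t)
    {M : Finset (ℕ × ℕ)} (h : (sys b hb q t N hN).pts A ⊆ M) : HasLattice q M := by
  refine ⟨A.1.1.1 + 1, A.2.1.1 + 1, step A.1, step A.2, step_pos _, step_pos _, ?_⟩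
  intro i j hi hj
  apply h
  show _ ∈ rpts A
  rw [mem_rpts]
  exact ⟨mem_apts.2 ⟨i, hi, rfl⟩, mem_apts.2 ⟨j, hj, rfl⟩⟩

theorem card_rpts {q t : ℕ} (A : AP q t × AP q t) : (rpts A).card = q ^ 2 := by
  unfold rpts
  rw [card_product, card_apts, card_apts, sq]

theorem card_rlp {q t : ℕ} (l : Bool × AP q t × ℕ) : (rlp l).card = q := by
  unfold rlp
  split_ifs <;> simp [card_product, card_apts]

theorem card_rthr {q t : ℕ} (l : Bool × AP q t × ℕ) : (rthr l).card ≤ q * t := by
  classical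
  obtain ⟨b, p, v⟩ := l
  cases b
  · refine le_trans ?_ (count_through (q := q) (t := t) v)
    apply card_le_card_of_injOn (fun A => A.1)
    · intro A hA
      rw [mem_coe, mem_rthr_false] at hA
      rw [mem_coe, mem_filter]
      exact ⟨mem_univ _, hA.2⟩
    · intro A hA B hB h
      rw [mem_coe, mem_rthr_false] at hA hB
      exact Prod.ext h (hA.1.trans hB.1.symm)
  · refine le_trans ?_ (count_through (q := q) (t := t) v)
    apply card_le_card_of_injOn (fun A => A.2)
    · intro A hA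
      rw [mem_coe, mem_rthr_true] at hA
      rw [mem_coe, mem_filter]
      exact ⟨mem_univ _, hA.2⟩
    · intro A hA B hB h
      rw [mem_coe, mem_rthr_true] at hA hB
      exact Prod.ext (hA.1.trans hB.1.symm) h

/-- The initial potential. -/
theorem start {b : ℕ} (hb : 1 ≤ b) {q t N : ℕ} (hN : 2 * q ^ 2 * t ≤ N) {lam : ℝ} (hlam : 0 < lam) :
    ((q : ℝ) * t ^ 2) ^ 2 * (1 / ((b : ℝ) + 1)) ^ (q ^ 2)
      - lam * (2 * (q * t ^ 2) * N * (((b : ℝ) + 1) ^ q * (q * t * (1 / ((b : ℝ) + 1)) ^ (q ^ 2)) ^ 2)) ≤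
      (sys b hb q t N hN).L lam univ ∅ := by
  have ha : ∀ A, (sys b hb q t N hN).a ∅ A = (1 / ((b : ℝ) + 1)) ^ (q ^ 2) := by
    intro A
    unfold Sys.a Sys.be
    rw [sdiff_empty]
    congr 1
    exact card_rpts A
  have hk : ∀ A, (sys b hb q t N hN).k ∅ A = 0 := by
    intro A
    unfold Sys.k
    simp
  have hc : ∀ l, (sys b hb q t N hN).c ∅ l = ((b : ℝ) + 1) ^ q := by
    intro l
    unfold Sys.c Sys.be
    rw [sdiff_empty]
    congr 1
    exact card_rlp l
  have hW : (sys b hb q t N hN).W lam univ ∅ = ((q : ℝ) * t ^ 2) ^ 2 * (1 / ((b : ℝ) + 1)) ^ (q ^ 2) := by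
    unfold Sys.W
    simp only [ha, hk, Nat.cast_zero, mul_zero, add_zero, mul_one]
    rw [sum_const, card_univ, nsmul_eq_mul]
    simp only [Fintype.card_prod, Fintype.card_fin]
    push_cast
    ring
  have hT : ∀ l, (sys b hb q t N hN).T univ ∅ l ≤ q * t * (1 / ((b : ℝ) + 1)) ^ (q ^ 2) := by
    intro l
    unfold Sys.T
    simp only [ha]
    rw [← sum_filter, sum_const, nsmul_eq_mul]
    apply mul_le_mul_of_nonneg_right _ (by positivity)
    have h1 : (univ.filter (fun A => A ∈ (sys b hb q t N hN).thr l)).card ≤ q * t := by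
      rw [filter_mem_eq_inter, univ_inter]
      exact card_rthr l
    exact_mod_cast h1
  have hQ : (sys b hb q t N hN).Q univ ∅ ≤
      2 * (q * t ^ 2) * N * (((b : ℝ) + 1) ^ q * (q * t * (1 / ((b : ℝ) + 1)) ^ (q ^ 2)) ^ 2) := by
    unfold Sys.Q
    have h1 : ∀ l ∈ (sys b hb q t N hN).lines, (sys b hb q t N hN).c ∅ l * (sys b hb q t N hN).T univ ∅ l ^ 2 ≤
        ((b : ℝ) + 1) ^ q * (q * t * (1 / ((b : ℝ) + 1)) ^ (q ^ 2)) ^ 2 := by
      intro l _
      rw [hc]
      apply mul_le_mul_of_nonneg_left _ (by positivity)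
      exact pow_le_pow_left₀ ((sys b hb q t N hN).T_nonneg _ _ _) (hT l) 2
    refine (sum_le_sum h1).trans ?_
    rw [sum_const, nsmul_eq_mul]
    apply mul_le_mul_of_nonneg_right _ (by positivity)
    have h2 : ((sys b hb q t N hN).lines).card = 2 * ((q * t) * t) * N := by
      show (univ ×ˢ univ ×ˢ Icc 1 N : Finset (Bool × AP q t × ℕ)).card = _
      rw [card_product, card_product, card_univ, card_univ, Nat.card_Icc]
      simp only [Fintype.card_bool, Fintype.card_prod, Fintype.card_fin, Nat.add_sub_cancel]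
      ring
    rw [h2]
    push_cast
    apply le_of_eq
    ring
  unfold Sys.L
  rw [hW]
  have := mul_le_mul_of_nonneg_left hQ hlam.le
  linarith

end Pool.Agent.H47.RB.H40R
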