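import Pool.Agent.H47.RB.H40Fam

namespace Pool.Agent.H47.RB.H40R

open Finset Pool.Agent.H47.RB Filter

/-- The numerical criterion. -/
theorem good_start {b : ℕ} (hb : 1 ≤ b) {q t N : ℕ} (hN : 2 * q ^ 2 * t ≤ N)
    (hN2 : N ≤ 4 * q ^ 2 * t) (hq : 2 ≤ q)
    (hA : (N : ℝ) * ((b : ℝ) + 1) ^ q ≤ ((b : ℝ) + 1) ^ (q ^ 2))
    (hB : 2048 * b * ((b : ℝ) + 1) * (q : ℝ) ^ 9 * ((b : ℝ) + 1) ^ (q ^ 2) < (N : ℝ) ^ 2) :
    Good (sys b hb q t N hN) N (1 / (4 * ((b : ℝ) + 1) * (q : ℝ) ^ 3)) ∅ ∅ := by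
  refine ⟨univ, fun A _ => disjoint_empty_right _, ?_⟩
  have hq' : (2 : ℝ) ≤ q := by exact_mod_cast hq
  have hq0 : (0 : ℝ) < q := by linarith
  have hb' : (1 : ℝ) ≤ b := by exact_mod_cast hb
  have hb0 : (0 : ℝ) < (b : ℝ) := by linarith
  have hbe : (0 : ℝ) < (b : ℝ) + 1 := by linarith
  have hlam : (0 : ℝ) < 1 / (4 * ((b : ℝ) + 1) * (q : ℝ) ^ 3) := by positivity
  refine lt_of_lt_of_le ?_ (start hb hN hlam)
  have hcard : ((board N \ (∅ ∪ ∅)).card : ℝ) = (N : ℝ) ^ 2 := by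
    rw [union_empty, sdiff_empty]
    unfold board
    rw [card_product, Nat.card_Icc, Nat.add_sub_cancel]
    push_cast
    ring
  rw [hcard]
  show (b : ℝ) / (1 / (4 * ((b : ℝ) + 1) * (q : ℝ) ^ 3)) * (N : ℝ) ^ 2 < _
  set e : ℝ := (b : ℝ) + 1 with he
  set w : ℝ := (1 / e) ^ (q ^ 2) with hw
  have hw0 : 0 < w := by rw [hw]; positivity
  have hw1 : e ^ (q ^ 2) * w = 1 := by
    rw [hw, ← mul_pow, mul_one_div_cancel hbe.ne', one_pow]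
  have hN2' : (N : ℝ) ≤ 4 * (q : ℝ) ^ 2 * t := by exact_mod_cast hN2
  have hNn : (0 : ℝ) ≤ N := by positivity
  have htn : (0 : ℝ) ≤ t := by positivity
  -- first condition in terms of w
  have h1 : (N : ℝ) * e ^ q * w ≤ 1 := by
    calc (N : ℝ) * e ^ q * w ≤ e ^ (q ^ 2) * w := mul_le_mul_of_nonneg_right hA hw0.le
      _ = 1 := hw1
  have h2 : 2048 * b * e * (q : ℝ) ^ 9 < (N : ℝ) ^ 2 * w := by
    calc 2048 * b * e * (q : ℝ) ^ 9 = 2048 * b * e * (q : ℝ) ^ 9 * (e ^ (q ^ 2) * w) := by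
          rw [hw1, mul_one]
      _ = (2048 * b * e * (q : ℝ) ^ 9 * e ^ (q ^ 2)) * w := by ring
      _ < (N : ℝ) ^ 2 * w := mul_lt_mul_of_pos_right hB hw0
  have hNpos : (0 : ℝ) < N := by
    by_contra h
    have h0 : (N : ℝ) = 0 := le_antisymm (not_lt.1 h) hNn
    rw [h0] at h2
    have : (0 : ℝ) < 2048 * b * e * (q : ℝ) ^ 9 := by positivity
    nlinarith
  have h3 : (q * (t : ℝ) ^ 2) ^ 2 * w -
      1 / (4 * e * (q : ℝ) ^ 3) * (2 * (q * (t : ℝ) ^ 2) * N * (e ^ q * (q * t * w) ^ 2)) =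
      (q : ℝ) ^ 2 * (t : ℝ) ^ 4 * w * (1 - (N * e ^ q * w) / (2 * e * (q : ℝ) ^ 2)) := by
    field_simp
    ring
  rw [h3]
  have he1 : 1 ≤ e := by rw [he]; linarith
  have hq4 : (4 : ℝ) ≤ (q : ℝ) ^ 2 := by nlinarith
  have h4 : (N * e ^ q * w) / (2 * e * (q : ℝ) ^ 2) ≤ 1 / 2 := by
    rw [div_le_iff₀ (by positivity)]
    have h10 : 1 * 4 ≤ e * (q : ℝ) ^ 2 := mul_le_mul he1 hq4 (by norm_num) (by linarith)
    linarith
  have h5 : (q : ℝ) ^ 2 * (t : ℝ) ^ 4 * w * (1 / 2) ≤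
      (q : ℝ) ^ 2 * (t : ℝ) ^ 4 * w * (1 - (N * e ^ q * w) / (2 * e * (q : ℝ) ^ 2)) :=
    mul_le_mul_of_nonneg_left (by linarith) (by positivity)
  refine lt_of_lt_of_le ?_ h5
  have h6 : (N : ℝ) ^ 4 ≤ 256 * (q : ℝ) ^ 8 * (t : ℝ) ^ 4 := by
    calc (N : ℝ) ^ 4 ≤ (4 * (q : ℝ) ^ 2 * t) ^ 4 := pow_le_pow_left₀ hNn hN2' 4
      _ = 256 * (q : ℝ) ^ 8 * (t : ℝ) ^ 4 := by ring
  have h7 : b / (1 / (4 * e * (q : ℝ) ^ 3)) * (N : ℝ) ^ 2 = 4 * b * e * (q : ℝ) ^ 3 * (N : ℝ) ^ 2 := by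
    rw [one_div, div_inv_eq_mul]
    ring
  rw [h7]
  -- multiply by 512 q^6
  have h8 : 512 * (q : ℝ) ^ 6 * (4 * b * e * (q : ℝ) ^ 3 * (N : ℝ) ^ 2) <
      512 * (q : ℝ) ^ 6 * ((q : ℝ) ^ 2 * (t : ℝ) ^ 4 * w * (1 / 2)) := by
    calc 512 * (q : ℝ) ^ 6 * (4 * b * e * (q : ℝ) ^ 3 * (N : ℝ) ^ 2)
        = (2048 * b * e * (q : ℝ) ^ 9) * (N : ℝ) ^ 2 := by ring
      _ < ((N : ℝ) ^ 2 * w) * (N : ℝ) ^ 2 := mul_lt_mul_of_pos_right h2 (by positivity)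
      _ = (N : ℝ) ^ 4 * w := by ring
      _ ≤ (256 * (q : ℝ) ^ 8 * (t : ℝ) ^ 4) * w := mul_le_mul_of_nonneg_right h6 hw0.le
      _ = 512 * (q : ℝ) ^ 6 * ((q : ℝ) ^ 2 * (t : ℝ) ^ 4 * w * (1 / 2)) := by ring
  exact lt_of_mul_lt_mul_left h8 (by positivity)

/-- The rule for one board. -/
theorem rule_of_num {b : ℕ} (hb : 1 ≤ b) {Q N : ℕ} (hq : 2 ≤ Q)
    (hA : (N : ℝ) * ((b : ℝ) + 1) ^ Q ≤ ((b : ℝ) + 1) ^ (Q ^ 2))
    (hB : 2048 * b * ((b : ℝ) + 1) * (Q : ℝ) ^ 9 * ((b : ℝ) + 1) ^ (Q ^ 2) < (N : ℝ) ^ 2) :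
    ∃ G : Finset (ℕ × ℕ) → Finset (ℕ × ℕ) → Prop, G ∅ ∅ ∧ MakerRule b N G ∧
      ∀ M B, G M B → board N \ (M ∪ B) = ∅ → HasLattice Q M := by
  have hq' : (2 : ℝ) ≤ Q := by exact_mod_cast hq
  have hq0 : (0 : ℝ) < Q := by linarith
  have hb' : (1 : ℝ) ≤ b := by exact_mod_cast hb
  have hbe1 : (1 : ℝ) ≤ (b : ℝ) + 1 := by linarith
  have hbe : (0 : ℝ) < (b : ℝ) + 1 := by linarith
  have hN3 : 2 * Q ^ 2 ≤ N := by
    have h1 : (2 * (Q : ℝ) ^ 2) ^ 2 ≤ (N : ℝ) ^ 2 := by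
      refine le_trans ?_ hB.le
      have h3 : (1 : ℝ) ≤ ((b : ℝ) + 1) ^ (Q ^ 2) := one_le_pow₀ hbe1
      have h4 : (1 : ℝ) ≤ (Q : ℝ) ^ 5 := one_le_pow₀ (by linarith)
      have h5 : 0 < (Q : ℝ) ^ 4 := by positivity
      have h6 : (1 : ℝ) ≤ b * ((b : ℝ) + 1) := by nlinarith
      calc (2 * (Q : ℝ) ^ 2) ^ 2 = 4 * 1 * (Q : ℝ) ^ 4 * 1 * 1 := by ring
        _ ≤ 2048 * (b * ((b : ℝ) + 1)) * (Q : ℝ) ^ 4 * (Q : ℝ) ^ 5 * ((b : ℝ) + 1) ^ (Q ^ 2) := by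
          gcongr
          norm_num
        _ = 2048 * b * ((b : ℝ) + 1) * (Q : ℝ) ^ 9 * ((b : ℝ) + 1) ^ (Q ^ 2) := by ring
    have h2 := (pow_le_pow_iff_left₀ (by positivity) (by positivity) (two_ne_zero)).1 h1
    exact_mod_cast h2
  set t := N / (2 * Q ^ 2) with ht
  have hd : 0 < 2 * Q ^ 2 := by positivity
  have ht1 : 1 ≤ t := (Nat.one_le_div_iff hd).2 hN3
  have hN : 2 * Q ^ 2 * t ≤ N := by
    rw [ht, mul_comm]
    exact Nat.div_mul_le_self _ _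
  have hN2 : N ≤ 4 * Q ^ 2 * t := by
    have h1 : N < 2 * Q ^ 2 * (t + 1) := by
      rw [ht]
      exact Nat.lt_mul_div_succ N hd
    nlinarith
  refine ⟨Good (sys b hb Q t N hN) N (1 / (4 * ((b : ℝ) + 1) * (Q : ℝ) ^ 3)),
    good_start hb hN hN2 hq hA hB, ?_, ?_⟩
  · have hQ3 : (8 : ℝ) ≤ (Q : ℝ) ^ 3 := by
      calc (8 : ℝ) = 2 ^ 3 := by norm_num
        _ ≤ _ := pow_le_pow_left₀ (by norm_num) hq' 3
    apply good_rule (sys b hb Q t N hN)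
    · positivity
    · show 1 / (4 * ((b : ℝ) + 1) * (Q : ℝ) ^ 3) * (2 * (b : ℝ) + 1) ≤ 1
      rw [one_div_mul_eq_div, div_le_one (by positivity)]
      have h10 : ((b : ℝ) + 1) * 8 ≤ ((b : ℝ) + 1) * (Q : ℝ) ^ 3 :=
        mul_le_mul_of_nonneg_left hQ3 hbe.le
      nlinarith
    · show 1 / (4 * ((b : ℝ) + 1) * (Q : ℝ) ^ 3) * (2 * ((2 * Q : ℕ) : ℝ)) * ((Q ^ 2 : ℕ) : ℝ) ≤ 1
      push_cast
      have h1 : 1 / (4 * ((b : ℝ) + 1) * (Q : ℝ) ^ 3) * (2 * (2 * (Q : ℝ))) * (Q : ℝ) ^ 2 =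
          1 / ((b : ℝ) + 1) := by
        field_simp
        ring
      rw [h1, div_le_one hbe]
      exact hbe1
    · show ((b : ℝ) + 1) * (1 / (4 * ((b : ℝ) + 1) * (Q : ℝ) ^ 3) * (2 * ((2 * Q : ℕ) : ℝ))) ≤ 1
      push_cast
      have h1 : ((b : ℝ) + 1) * (1 / (4 * ((b : ℝ) + 1) * (Q : ℝ) ^ 3) * (2 * (2 * (Q : ℝ)))) =
          1 / (Q : ℝ) ^ 2 := by
        field_simp
        ring
      rw [h1, div_le_one (by positivity)]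
      nlinarith
  · intro M B hG hend
    obtain ⟨A, hA'⟩ := good_end (sys b hb Q t N hN) (by positivity)
      (fun A => sys_board hb hN A) hG hend
    exact sys_lattice hb hN A hA'

theorem hasLattice_mono {q q' : ℕ} (h : q ≤ q') {M : Finset (ℕ × ℕ)} (hM : HasLattice q' M) :
    HasLattice q M := by
  obtain ⟨a, b, x, y, hx, hy, hl⟩ := hM
  exact ⟨a, b, x, y, hx, hy, fun i j hi hj => hl i j (by omega) (by omega)⟩

/-- the numerical conditions hold eventually -/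
theorem eventually_num (b : ℕ) (hb : 1 ≤ b) (ε : ℝ) (hε : 0 < ε) : ∀ᶠ s : ℝ in atTop,
    ε + 3 ≤ s ∧ s ^ 2 / 2 ≤ (s - ε - 1) * (s - ε - 2) ∧
      2048 * b * ((b : ℝ) + 1) * s ^ 9 < ((b : ℝ) + 1) ^ (2 * ε * s - ε ^ 2) := by
  have hb' : (1 : ℝ) ≤ b := by exact_mod_cast hb
  have hbe : (0 : ℝ) < (b : ℝ) + 1 := by linarith
  have h1 : ∀ᶠ s : ℝ in atTop, 10 * (ε + 3) ≤ s := eventually_ge_atTop _
  have hc : 0 < 2 * ε * Real.log ((b : ℝ) + 1) := by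
    have : 0 < Real.log ((b : ℝ) + 1) := Real.log_pos (by linarith)
    positivity
  have h2 : Tendsto (fun s : ℝ => Real.exp (2 * ε * Real.log ((b : ℝ) + 1) * s) / s ^ 9)
      atTop atTop := by
    have h := tendsto_exp_mul_div_rpow_atTop 9 (2 * ε * Real.log ((b : ℝ) + 1)) hc
    refine h.congr' ?_
    filter_upwards [eventually_gt_atTop 0] with s hs
    have : s ^ (9 : ℝ) = s ^ 9 := by
      rw [show (9 : ℝ) = ((9 : ℕ) : ℝ) by norm_num, Real.rpow_natCast]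
    rw [this]
  have h3 := h2.eventually_gt_atTop
    (2048 * b * ((b : ℝ) + 1) * Real.exp (ε ^ 2 * Real.log ((b : ℝ) + 1)))
  filter_upwards [h1, h3] with s hs1 hs3
  refine ⟨by linarith, ?_, ?_⟩
  · nlinarith
  · have hs : 0 < s ^ 9 := by
      have : 0 < s := by linarith
      positivity
    rw [lt_div_iff₀ hs] at hs3
    rw [Real.rpow_def_of_pos hbe]
    have h4 : Real.log ((b : ℝ) + 1) * (2 * ε * s - ε ^ 2) =
        2 * ε * Real.log ((b : ℝ) + 1) * s - ε ^ 2 * Real.log ((b : ℝ) + 1) := by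
      ring
    rw [h4, Real.exp_sub, lt_div_iff₀ (Real.exp_pos _)]
    linarith

/-- **The Maker half, as a rule.** -/
theorem maker_rule_half (b : ℕ) (hb : 1 ≤ b) (ε : ℝ) (hε : 0 < ε) :
    ∃ N₀ : ℕ, ∀ N : ℕ, N₀ ≤ N → ∀ q : ℕ,
    (q : ℝ) ≤ Real.sqrt (2 * Real.logb ((b : ℝ) + 1) N) - ε →
    ∃ G : Finset (ℕ × ℕ) → Finset (ℕ × ℕ) → Prop, G ∅ ∅ ∧ MakerRule b N G ∧
      ∀ M B, G M B → board N \ (M ∪ B) = ∅ → HasLattice q M := by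
  have hb' : (1 : ℝ) ≤ b := by exact_mod_cast hb
  have hbe : (0 : ℝ) < (b : ℝ) + 1 := by linarith
  have hbe1 : (1 : ℝ) < (b : ℝ) + 1 := by linarith
  have hlim : Tendsto (fun N : ℕ => Real.sqrt (2 * Real.logb ((b : ℝ) + 1) N)) atTop atTop := by
    apply Real.tendsto_sqrt_atTop.comp
    apply Tendsto.const_mul_atTop (by norm_num)
    exact (Real.tendsto_logb_atTop hbe1).comp tendsto_natCast_atTop_atTop
  have h1 := (hlim.eventually (eventually_num b hb ε hε)).and (eventually_ge_atTop 1)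
  obtain ⟨N₀, hN₀⟩ := eventually_atTop.1 h1
  refine ⟨N₀, fun N hN q hq => ?_⟩
  obtain ⟨⟨hs1, hs2, hs3⟩, hN1⟩ := hN₀ N hN
  have hlog : 0 ≤ Real.logb ((b : ℝ) + 1) (N : ℝ) :=
    Real.logb_nonneg hbe1 (by exact_mod_cast hN1)
  have hss : Real.sqrt (2 * Real.logb ((b : ℝ) + 1) N) ^ 2 = 2 * Real.logb ((b : ℝ) + 1) N :=
    Real.sq_sqrt (by positivity)
  set s := Real.sqrt (2 * Real.logb ((b : ℝ) + 1) N) with hs
  have hNs : (N : ℝ) = ((b : ℝ) + 1) ^ (s ^ 2 / 2) := by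
    rw [hss, mul_div_cancel_left₀ _ (by norm_num : (2 : ℝ) ≠ 0)]
    rw [Real.rpow_logb hbe hbe1.ne']
    exact_mod_cast hN1
  set Q := ⌊s - ε⌋₊ with hQ
  have hQle : (Q : ℝ) ≤ s - ε := Nat.floor_le (by linarith)
  have hQgt : s - ε - 1 < Q := by
    have := Nat.lt_floor_add_one (s - ε)
    linarith
  have hQ2 : 2 ≤ Q := by
    have : (2 : ℝ) ≤ s - ε := by linarith
    exact Nat.le_floor this
  have hqQ : q ≤ Q := Nat.le_floor hq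
  have hA : (N : ℝ) * ((b : ℝ) + 1) ^ Q ≤ ((b : ℝ) + 1) ^ (Q ^ 2) := by
    rw [← Real.rpow_natCast, ← Real.rpow_natCast, hNs, ← Real.rpow_add hbe]
    apply Real.rpow_le_rpow_of_exponent_le hbe1.le
    push_cast
    have h5 : (s - ε - 1) * (s - ε - 2) ≤ (Q : ℝ) * (Q - 1) := by
      apply mul_le_mul <;> linarith
    nlinarith
  have hB : 2048 * b * ((b : ℝ) + 1) * (Q : ℝ) ^ 9 * ((b : ℝ) + 1) ^ (Q ^ 2) < (N : ℝ) ^ 2 := by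
    have h6 : (N : ℝ) ^ 2 = ((b : ℝ) + 1) ^ (s ^ 2) := by
      rw [hNs, ← Real.rpow_natCast, ← Real.rpow_mul hbe.le]
      congr 1
      push_cast
      ring
    have hQ0 : (0 : ℝ) ≤ Q := by positivity
    have h7 : 2048 * b * ((b : ℝ) + 1) * (Q : ℝ) ^ 9 < ((b : ℝ) + 1) ^ (2 * ε * s - ε ^ 2) := by
      refine lt_of_le_of_lt ?_ hs3
      have : (Q : ℝ) ^ 9 ≤ s ^ 9 := pow_le_pow_left₀ hQ0 (by linarith) 9
      exact mul_le_mul_of_nonneg_left this (by positivity)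
    have h8 : ((b : ℝ) + 1) ^ (Q ^ 2) ≤ ((b : ℝ) + 1) ^ ((s - ε) ^ 2) := by
      rw [← Real.rpow_natCast]
      apply Real.rpow_le_rpow_of_exponent_le hbe1.le
      push_cast
      exact pow_le_pow_left₀ hQ0 hQle 2
    rw [h6]
    calc 2048 * b * ((b : ℝ) + 1) * (Q : ℝ) ^ 9 * ((b : ℝ) + 1) ^ (Q ^ 2)
        < ((b : ℝ) + 1) ^ (2 * ε * s - ε ^ 2) * ((b : ℝ) + 1) ^ (Q ^ 2) :=
          mul_lt_mul_of_pos_right h7 (by positivity)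
      _ ≤ ((b : ℝ) + 1) ^ (2 * ε * s - ε ^ 2) * ((b : ℝ) + 1) ^ ((s - ε) ^ 2) :=
          mul_le_mul_of_nonneg_left h8 (by positivity)
      _ = ((b : ℝ) + 1) ^ (s ^ 2) := by
          rw [← Real.rpow_add hbe]
          congr 1
          ring
  obtain ⟨G, hG1, hG2, hG3⟩ := rule_of_num hb hQ2 hA hB
  exact ⟨G, hG1, hG2, fun M B h he => hasLattice_mono hqQ (hG3 M B h he)⟩

end Pool.Agent.H47.RB.H40R
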