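import Pool.Agent.H47.RB.H40Sys

namespace Pool.Agent.H47.RB.H40R

open Finset

variable {V ι κ : Type} [DecidableEq V] [DecidableEq ι] [DecidableEq κ] (S : Sys V ι κ)

namespace Sys

/-- the squares of the line sums at `v` -/
noncomputable def X (F : Finset ι) (M : Finset V) (v : V) : ℝ :=
  ∑ l ∈ S.lines, (if v ∈ S.lp l then 0 else
    S.c M l * (S.T (F.filter (fun A => v ∈ S.pts A)) M l) ^ 2)

theorem X_nonneg (F : Finset ι) (M : Finset V) (v : V) : 0 ≤ S.X F M v := by
  unfold X
  apply sum_nonneg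
  intro l _
  have := S.c_pos M l
  split_ifs
  · exact le_rfl
  · positivity

theorem P_nonneg (F : Finset ι) (M : Finset V) (v : V) : 0 ≤ S.P F M v := by
  unfold P
  apply sum_nonneg
  intro A _
  have := S.a_pos M A
  split_ifs
  · exact this.le
  · exact le_rfl

/-- Gain and `b` times the loss at a free point. -/
theorem gain_loss (lam : ℝ) {F : Finset ι} {M : Finset V} {v : V} (hv : v ∉ M) :
    S.L lam F (insert v M) - S.L lam F M =
      S.b * (S.L lam F M - S.L lam (F.filter (fun A => v ∉ S.pts A)) M)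
      + S.be * (lam * (2 * S.K)) * S.P F M v
      - S.b * S.be * lam * S.X F M v := by
  have hbe := S.be_eq
  have h1 : S.W lam F (insert v M) - S.be * S.W lam F M
      + S.b * S.W lam (F.filter (fun A => v ∉ S.pts A)) M =
        S.be * (lam * (2 * S.K)) * S.P F M v := by
    unfold W P
    rw [sum_filter, mul_sum, mul_sum, mul_sum, ← sum_sub_distrib, ← sum_add_distrib]
    apply sum_congr rfl
    intro A _
    by_cases h : v ∈ S.pts A
    · rw [S.a_insert_mem hv h, S.k_insert_mem hv h]
      simp only [h, not_true_eq_false, if_false, if_true]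
      push_cast
      ring
    · rw [S.a_insert_not h, S.k_insert_not h]
      simp only [h, not_false_eq_true, if_true, if_false]
      rw [hbe]
      ring
  have h2 : S.Q F (insert v M) - S.be * S.Q F M
      + S.b * S.Q (F.filter (fun A => v ∉ S.pts A)) M =
      S.b * S.be * S.X F M v := by
    unfold Q X
    rw [mul_sum, mul_sum, mul_sum, ← sum_sub_distrib, ← sum_add_distrib]
    apply sum_congr rfl
    intro l _
    by_cases h : v ∈ S.lp l
    · have h3 : S.T (F.filter (fun A => v ∉ S.pts A)) M l = 0 :=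
        S.T_kill h (fun A hA => (mem_filter.1 hA).2)
      rw [h3, S.T_insert_mem hv h, S.c_insert_mem hv h]
      simp only [h, if_true]
      ring
    · have h3 := S.T_split F M l (fun A => v ∈ S.pts A)
      rw [S.T_insert hv, S.c_insert_not h]
      simp only [h, if_false]
      have h4 : S.T (F.filter (fun A => v ∉ S.pts A)) M l =
        S.T F M l - S.T (F.filter (fun A => v ∈ S.pts A)) M l := by linarith
      rw [h4, hbe]
      ring
  unfold L
  rw [hbe] at h1 h2 ⊢
  linear_combination h1 - lam * h2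

theorem T_e1 (F : Finset ι) (M : Finset V) (l : κ) (p r : ι → Prop) [DecidablePred p]
    [DecidablePred r] : S.T (F.filter (fun A => p A)) M l =
      S.T (F.filter (fun A => p A ∧ ¬ r A)) M l + S.T (F.filter (fun A => p A ∧ r A)) M l := by
  unfold T
  simp only [sum_filter]
  rw [← sum_add_distrib]
  apply sum_congr rfl
  intro A _
  by_cases h : p A <;> by_cases h' : r A <;> simp [h, h']

theorem T_e2 (F : Finset ι) (M : Finset V) (l : κ) (p r : ι → Prop) [DecidablePred p]
    [DecidablePred r] : S.T (F.filter (fun A => ¬ r A)) M l =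
      S.T (F.filter (fun A => p A ∧ ¬ r A)) M l + S.T (F.filter (fun A => ¬ p A ∧ ¬ r A)) M l := by
  unfold T
  simp only [sum_filter]
  rw [← sum_add_distrib]
  apply sum_congr rfl
  intro A _
  by_cases h : p A <;> by_cases h' : r A <;> simp [h, h']

theorem T_e3 (F : Finset ι) (M : Finset V) (l : κ) (p r : ι → Prop) [DecidablePred p]
    [DecidablePred r] : S.T (F.filter (fun A => ¬ (¬ p A ∧ r A))) M l =
      S.T (F.filter (fun A => p A ∧ ¬ r A)) M l + S.T (F.filter (fun A => ¬ p A ∧ ¬ r A)) M l +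
        S.T (F.filter (fun A => p A ∧ r A)) M l := by
  unfold T
  simp only [sum_filter]
  rw [← sum_add_distrib, ← sum_add_distrib]
  apply sum_congr rfl
  intro A _
  by_cases h : p A <;> by_cases h' : r A <;> simp [h, h']

theorem W_e (lam : ℝ) (F : Finset ι) (M : Finset V) (p r : ι → Prop) [DecidablePred p]
    [DecidablePred r] : S.W lam (F.filter (fun A => p A ∧ ¬ r A)) M
      - S.W lam (F.filter (fun A => p A)) M - S.W lam (F.filter (fun A => ¬ r A)) M
      + S.W lam (F.filter (fun A => ¬ (¬ p A ∧ r A))) M = 0 := by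
  unfold W
  simp only [sum_filter]
  rw [← sum_sub_distrib, ← sum_sub_distrib, ← sum_add_distrib]
  apply sum_eq_zero
  intro A _
  by_cases h : p A <;> by_cases h' : r A <;> simp [h, h']

/-- One more kill: `p` are the sets already killed. -/
theorem one_kill {lam : ℝ} (hlam : 0 < lam) {F : Finset ι} {M Y : Finset V} {z : V}
    (hcl : ∀ G, G ⊆ F → S.L lam G M ≤ S.L lam F M) :
    S.L lam (F.filter (fun A => ∀ y ∈ Y, y ∉ S.pts A)) M
      + S.L lam (F.filter (fun A => z ∉ S.pts A)) M - S.L lam F M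
      - lam * (∑ y ∈ Y, S.X F M y + Y.card * S.X F M z)
      ≤ S.L lam (F.filter (fun A => (∀ y ∈ Y, y ∉ S.pts A) ∧ z ∉ S.pts A)) M := by
  have h0 := hcl (F.filter (fun A => ¬ (¬ (∀ y ∈ Y, y ∉ S.pts A) ∧ z ∈ S.pts A))) (filter_subset _ _)
  have h1 : S.W lam (F.filter (fun A => (∀ y ∈ Y, y ∉ S.pts A) ∧ z ∉ S.pts A)) M
      - S.W lam (F.filter (fun A => ∀ y ∈ Y, y ∉ S.pts A)) M
      - S.W lam (F.filter (fun A => z ∉ S.pts A)) M
      + S.W lam (F.filter (fun A => ¬ (¬ (∀ y ∈ Y, y ∉ S.pts A) ∧ z ∈ S.pts A))) M = 0 :=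
    S.W_e lam F M (fun A => ∀ y ∈ Y, y ∉ S.pts A) (fun A => z ∈ S.pts A)
  have h2 : S.Q (F.filter (fun A => (∀ y ∈ Y, y ∉ S.pts A) ∧ z ∉ S.pts A)) M
      - S.Q (F.filter (fun A => ∀ y ∈ Y, y ∉ S.pts A)) M
      - S.Q (F.filter (fun A => z ∉ S.pts A)) M
      + S.Q (F.filter (fun A => ¬ (¬ (∀ y ∈ Y, y ∉ S.pts A) ∧ z ∈ S.pts A))) M ≤
      ∑ y ∈ Y, S.X F M y + Y.card * S.X F M z := by
    unfold Q X
    rw [← sum_sub_distrib, ← sum_sub_distrib, ← sum_add_distrib, sum_comm, mul_sum,
      ← sum_add_distrib]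
    apply sum_le_sum
    intro l _
    set r := S.T (F.filter (fun A => (∀ y ∈ Y, y ∉ S.pts A) ∧ z ∉ S.pts A)) M l with hr
    set U := S.T (F.filter (fun A => ¬ (∀ y ∈ Y, y ∉ S.pts A) ∧ z ∉ S.pts A)) M l with hU
    set Z := S.T (F.filter (fun A => (∀ y ∈ Y, y ∉ S.pts A) ∧ z ∈ S.pts A)) M l with hZ
    have e1 : S.T (F.filter (fun A => ∀ y ∈ Y, y ∉ S.pts A)) M l = r + Z :=
      S.T_e1 F M l (fun A => ∀ y ∈ Y, y ∉ S.pts A) (fun A => z ∈ S.pts A)
    have e2 : S.T (F.filter (fun A => z ∉ S.pts A)) M l = r + U :=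
      S.T_e2 F M l (fun A => ∀ y ∈ Y, y ∉ S.pts A) (fun A => z ∈ S.pts A)
    have e3 : S.T (F.filter (fun A => ¬ (¬ (∀ y ∈ Y, y ∉ S.pts A) ∧ z ∈ S.pts A))) M l =
        r + U + Z :=
      S.T_e3 F M l (fun A => ∀ y ∈ Y, y ∉ S.pts A) (fun A => z ∈ S.pts A)
    have hUn : 0 ≤ U := S.T_nonneg _ _ _
    have hZn : 0 ≤ Z := S.T_nonneg _ _ _
    have hZle : Z ≤ S.T (F.filter (fun A => z ∈ S.pts A)) M l := by
      apply S.T_mono
      intro A hA
      rw [mem_filter] at hA ⊢
      exact ⟨hA.1, hA.2.2⟩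
    have hc := S.c_pos M l
    have hnn : 0 ≤ ∑ y ∈ Y, (if y ∈ S.lp l then 0 else
        S.c M l * (S.T (F.filter (fun A => y ∈ S.pts A)) M l) ^ 2) := by
      apply sum_nonneg
      intro y _
      split_ifs
      · exact le_rfl
      · positivity
    have hnn2 : 0 ≤ (Y.card : ℝ) * (if z ∈ S.lp l then 0 else
        S.c M l * (S.T (F.filter (fun A => z ∈ S.pts A)) M l) ^ 2) := by
      apply mul_nonneg (by positivity)
      split_ifs
      · exact le_rfl
      · positivity
    rw [e1, e2, e3]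
    have e4 : S.c M l * r ^ 2 - S.c M l * (r + Z) ^ 2 - S.c M l * (r + U) ^ 2 +
      S.c M l * (r + U + Z) ^ 2 = 2 * S.c M l * (U * Z) := by ring
    rw [e4]
    by_cases hz : z ∈ S.lp l
    · have hU0 : U = 0 := S.T_kill hz (fun A hA => (mem_filter.1 hA).2.2)
      rw [hU0, zero_mul, mul_zero]
      linarith
    · by_cases hy : ∃ y ∈ Y, y ∈ S.lp l
      · obtain ⟨y, hyY, hyl⟩ := hy
        have hZ0 : Z = 0 := S.T_kill hyl (fun A hA => (mem_filter.1 hA).2.1 y hyY)
        rw [hZ0, mul_zero, mul_zero]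
        linarith
      · push Not at hy
        have e5 : ∑ y ∈ Y, (if y ∈ S.lp l then 0 else
            S.c M l * (S.T (F.filter (fun A => y ∈ S.pts A)) M l) ^ 2) =
            ∑ y ∈ Y, S.c M l * (S.T (F.filter (fun A => y ∈ S.pts A)) M l) ^ 2 :=
          sum_congr rfl fun y hyY => if_neg (hy y hyY)
        rw [e5, if_neg hz]
        have hUle : U ≤ ∑ y ∈ Y, S.T (F.filter (fun A => y ∈ S.pts A)) M l := by
          rw [hU]
          unfold T
          rw [sum_comm' (t' := F) (s' := fun A => Y.filter (fun y => y ∈ S.pts A))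
            (fun y A => by simp only [mem_filter]; tauto), sum_filter]
          apply sum_le_sum
          intro A _
          have ha := S.a_pos M A
          rw [sum_const, nsmul_eq_mul]
          have h3 : (0 : ℝ) ≤ if A ∈ S.thr l then S.a M A else 0 := by
            split_ifs
            · exact ha.le
            · exact le_rfl
          by_cases h : ¬ (∀ y ∈ Y, y ∉ S.pts A) ∧ z ∉ S.pts A
          · rw [if_pos h]
            have h4 : (1 : ℝ) ≤ (Y.filter (fun y => y ∈ S.pts A)).card := by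
              have h5 := h.1
              push Not at h5
              obtain ⟨y, hyY, hyA⟩ := h5
              have h6 : 0 < (Y.filter (fun y => y ∈ S.pts A)).card :=
                card_pos.2 ⟨y, mem_filter.2 ⟨hyY, hyA⟩⟩
              exact_mod_cast h6
            nlinarith
          · rw [if_neg h]
            positivity
        have h7 : 2 * (U * Z) ≤ ∑ y ∈ Y, (S.T (F.filter (fun A => y ∈ S.pts A)) M l) ^ 2 +
            Y.card * (S.T (F.filter (fun A => z ∈ S.pts A)) M l) ^ 2 := by
          have h8 : U * Z ≤ (∑ y ∈ Y, S.T (F.filter (fun A => y ∈ S.pts A)) M l) *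
              S.T (F.filter (fun A => z ∈ S.pts A)) M l :=
            mul_le_mul hUle hZle hZn (hUn.trans hUle)
          rw [sum_mul] at h8
          have h9 : ∑ y ∈ Y, S.T (F.filter (fun A => y ∈ S.pts A)) M l *
              S.T (F.filter (fun A => z ∈ S.pts A)) M l ≤
              ∑ y ∈ Y, (1 / 2) * ((S.T (F.filter (fun A => y ∈ S.pts A)) M l) ^ 2 +
                (S.T (F.filter (fun A => z ∈ S.pts A)) M l) ^ 2) := by
            apply sum_le_sum
            intro y _
            nlinarith [sq_nonneg (S.T (F.filter (fun A => y ∈ S.pts A)) M l -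
              S.T (F.filter (fun A => z ∈ S.pts A)) M l)]
          rw [← mul_sum, sum_add_distrib, sum_const, nsmul_eq_mul] at h9
          linarith
        have h10 := mul_le_mul_of_nonneg_left h7 hc.le
        rw [← mul_sum]
        linarith
  have h3 := mul_le_mul_of_nonneg_left h2 hlam.le
  unfold L at h0 ⊢
  linarith

/-- Several kills. -/
theorem many_kills {lam : ℝ} (hlam : 0 < lam) {F : Finset ι} {M : Finset V}
    (hcl : ∀ G, G ⊆ F → S.L lam G M ≤ S.L lam F M) (Y : Finset V) :
    S.L lam F M - ∑ y ∈ Y, (S.L lam F M - S.L lam (F.filter (fun A => y ∉ S.pts A)) M)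
      - lam * (Y.card * ∑ y ∈ Y, S.X F M y)
      ≤ S.L lam (F.filter (fun A => ∀ y ∈ Y, y ∉ S.pts A)) M := by
  induction Y using Finset.induction_on with
  | empty => simp
  | insert z Y hz ih =>
    have h1 := S.one_kill hlam (Y := Y) (z := z) hcl
    have h2 : F.filter (fun A => ∀ y ∈ insert z Y, y ∉ S.pts A) =
        F.filter (fun A => (∀ y ∈ Y, y ∉ S.pts A) ∧ z ∉ S.pts A) := by
      apply filter_congr
      intro A _
      rw [forall_mem_insert]
      tauto
    rw [h2, sum_insert hz, sum_insert hz, card_insert_of_notMem hz]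
    have h3 := S.X_nonneg F M z
    have h4 : 0 ≤ lam * S.X F M z := by positivity
    push_cast
    nlinarith

/-- Interaction between Maker's move and Breaker's answer. -/
theorem interact {lam : ℝ} (hlam : 0 < lam) (hK : lam * (2 * S.K) * S.s ≤ 1)
    (hK3 : S.be * (lam * (2 * S.K)) ≤ 1) {F : Finset ι}
    {M Y : Finset V} {x : V} (hx : x ∉ M) (hY : Y.card ≤ S.b) :
    S.L lam (F.filter (fun A => ∀ y ∈ Y, y ∉ S.pts A)) M - S.L lam F M
      - (2 * S.b + 1) * ∑ y ∈ Y, S.P2 F M x y
      + lam * ∑ y ∈ Y, ∑ l ∈ S.lines,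
          (if x ∈ S.lp l ∧ y ∈ S.lp l then S.c M l * (S.T F M l) ^ 2 else 0)
      ≤ S.L lam (F.filter (fun A => ∀ y ∈ Y, y ∉ S.pts A)) (insert x M)
        - S.L lam F (insert x M) := by
  have hbe := S.be_eq
  have hb1 := S.one_le_b
  have h1 : S.W lam (F.filter (fun A => ∀ y ∈ Y, y ∉ S.pts A)) M - S.W lam F M
      - (2 * S.b + 1) * ∑ y ∈ Y, S.P2 F M x y ≤
      S.W lam (F.filter (fun A => ∀ y ∈ Y, y ∉ S.pts A)) (insert x M)
        - S.W lam F (insert x M) := by
    unfold W P2
    rw [sum_filter, sum_filter, sum_comm, ← sum_sub_distrib, mul_sum, ← sum_sub_distrib,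
      ← sum_sub_distrib]
    apply sum_le_sum
    intro A _
    have ha := S.a_pos M A
    have hk : (S.k M A : ℝ) ≤ S.s := by exact_mod_cast S.k_le M A
    have hk0 : (0 : ℝ) ≤ S.k M A := by positivity
    have hK0 : (0 : ℝ) ≤ lam * (2 * S.K) := by positivity
    have hb : lam * (2 * S.K) * S.k M A ≤ 1 := (mul_le_mul_of_nonneg_left hk hK0).trans hK
    have hb0 : 0 ≤ lam * (2 * S.K) * S.k M A := by positivity
    have hnn : (0 : ℝ) ≤ ∑ y ∈ Y, if x ∈ S.pts A ∧ y ∈ S.pts A then S.a M A else 0 := by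
      apply sum_nonneg
      intro y _
      split_ifs
      · exact ha.le
      · exact le_rfl
    by_cases h : x ∈ S.pts A
    · rw [S.a_insert_mem hx h, S.k_insert_mem hx h]
      by_cases h' : ∀ y ∈ Y, y ∉ S.pts A
      · rw [if_pos h', if_pos h']
        nlinarith
      · rw [if_neg h', if_neg h']
        push Not at h'
        obtain ⟨y, hyY, hyA⟩ := h'
        have h3 : S.a M A ≤ ∑ y ∈ Y, if x ∈ S.pts A ∧ y ∈ S.pts A then S.a M A else 0 := by
          have h4 := single_le_sum (f := fun y => if x ∈ S.pts A ∧ y ∈ S.pts A then S.a M A else 0)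
            (s := Y) (fun y _ => by
              show 0 ≤ if x ∈ S.pts A ∧ y ∈ S.pts A then S.a M A else 0
              split_ifs
              · exact ha.le
              · exact le_rfl) hyY
          have h5 : (if x ∈ S.pts A ∧ y ∈ S.pts A then S.a M A else 0) = S.a M A :=
            if_pos ⟨h, hyA⟩
          exact h5.symm.le.trans h4
        push_cast
        have h6 : (2 * (S.b : ℝ) + 1) * S.a M A ≤ (2 * S.b + 1) *
            ∑ y ∈ Y, (if x ∈ S.pts A ∧ y ∈ S.pts A then S.a M A else 0) :=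
          mul_le_mul_of_nonneg_left h3 (by positivity)
        have h7 : S.be * (1 + lam * (2 * S.K) * (S.k M A + 1)) - (1 + lam * (2 * S.K) * S.k M A) ≤
            2 * S.b + 1 := by
          rw [hbe] at hK3 ⊢
          nlinarith
        have h8 := mul_le_mul_of_nonneg_left h7 ha.le
        linarith
    · rw [S.a_insert_not h, S.k_insert_not h]
      have h9 : (0 : ℝ) ≤ (2 * S.b + 1) *
            ∑ y ∈ Y, (if x ∈ S.pts A ∧ y ∈ S.pts A then S.a M A else 0) := by positivity
      linarith
  have h2 : S.Q (F.filter (fun A => ∀ y ∈ Y, y ∉ S.pts A)) (insert x M)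
        - S.Q F (insert x M)
      + ∑ y ∈ Y, ∑ l ∈ S.lines,
          (if x ∈ S.lp l ∧ y ∈ S.lp l then S.c M l * (S.T F M l) ^ 2 else 0) ≤
      S.Q (F.filter (fun A => ∀ y ∈ Y, y ∉ S.pts A)) M - S.Q F M := by
    unfold Q
    rw [sum_comm, ← sum_sub_distrib, ← sum_sub_distrib, ← sum_add_distrib]
    apply sum_le_sum
    intro l _
    have hc := S.c_pos (insert x M) l
    have hc' := S.c_pos M l
    have hT := S.T_nonneg F M l
    have hRT : S.T (F.filter (fun A => ∀ y ∈ Y, y ∉ S.pts A)) M l ≤ S.T F M l :=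
      S.T_mono (filter_subset _ _) _ _
    have hR := S.T_nonneg (F.filter (fun A => ∀ y ∈ Y, y ∉ S.pts A)) M l
    by_cases h : x ∈ S.lp l
    · rw [S.T_insert_mem hx h, S.T_insert_mem hx h, S.c_insert_mem hx h]
      by_cases h' : ∃ y ∈ Y, y ∈ S.lp l
      · obtain ⟨y, hyY, hyl⟩ := h'
        have h0 : S.T (F.filter (fun A => ∀ y ∈ Y, y ∉ S.pts A)) M l = 0 :=
          S.T_kill hyl (fun A hA => (mem_filter.1 hA).2 y hyY)
        rw [h0]
        have h3 : ∑ y ∈ Y, (if x ∈ S.lp l ∧ y ∈ S.lp l then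
            S.be * S.c (insert x M) l * (S.T F M l) ^ 2 else 0) ≤
            S.b * (S.be * S.c (insert x M) l * (S.T F M l) ^ 2) := by
          have hbe0 := S.be_pos
          calc _ ≤ ∑ y ∈ Y, S.be * S.c (insert x M) l * (S.T F M l) ^ 2 := by
                apply sum_le_sum
                intro y _
                split_ifs
                · exact le_rfl
                · positivity
            _ = Y.card * (S.be * S.c (insert x M) l * (S.T F M l) ^ 2) := by
                rw [sum_const, nsmul_eq_mul]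
            _ ≤ _ := by
                apply mul_le_mul_of_nonneg_right _ (by positivity)
                exact_mod_cast hY
        have h4 : S.c (insert x M) l * (S.be * 0) ^ 2 - S.c (insert x M) l *
            (S.be * S.T F M l) ^ 2 + S.b * (S.be * S.c (insert x M) l * (S.T F M l) ^ 2) =
            S.be * S.c (insert x M) l * 0 ^ 2 - S.be * S.c (insert x M) l * (S.T F M l) ^ 2 := by
          rw [hbe]
          ring
        linarith
      · push Not at h'
        have h3 : ∑ y ∈ Y, (if x ∈ S.lp l ∧ y ∈ S.lp l then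
            S.be * S.c (insert x M) l * (S.T F M l) ^ 2 else 0) = 0 :=
          sum_eq_zero fun y hyY => if_neg fun hh => h' y hyY hh.2
        rw [h3]
        have h4 := mul_le_mul_of_nonneg_left (pow_le_pow_left₀ hR hRT 2) hc.le
        have h5 : 0 ≤ S.be * S.b := by rw [hbe]; positivity
        have h6 := mul_le_mul_of_nonneg_left h4 h5
        rw [hbe] at h6 ⊢
        nlinarith
    · rw [S.c_insert_not h, S.T_insert hx, S.T_insert hx]
      simp only [h, false_and, if_false, sum_const_zero, add_zero]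
      set r := S.T (F.filter (fun A => ∀ y ∈ Y, y ∉ S.pts A)) M l
      set t := S.T F M l
      set u := S.T (F.filter (fun A => x ∈ S.pts A)) M l
      set w := S.T ((F.filter (fun A => ∀ y ∈ Y, y ∉ S.pts A)).filter
        (fun A => x ∈ S.pts A)) M l
      have hw : w ≤ u := S.T_mono (filter_subset_filter _ (filter_subset _ _)) _ _
      have hw0 : 0 ≤ w := S.T_nonneg _ _ _
      have h5 : w * (2 * r + S.b * w) ≤ u * (2 * t + S.b * u) := by
        apply mul_le_mul hw _ (by positivity) (by linarith)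
        nlinarith
      have h6 := mul_le_mul_of_nonneg_left h5 (mul_nonneg hc'.le (by linarith : (0 : ℝ) ≤ S.b))
      nlinarith
  have h3 := mul_le_mul_of_nonneg_left h2 hlam.le
  unfold L
  linarith

/-- Pair sums are paid by the quadratic terms. -/
theorem pair_pay {lam : ℝ} (hlam : 0 < lam) (hlam1 : lam * (2 * S.b + 1) ≤ 1) {F : Finset ι}
    {M : Finset V} {x y : V} (hxy : x ≠ y) (hx : x ∉ M) (hy : y ∉ M) :
    (2 * S.b + 1) * S.P2 F M x y ≤ lam * (∑ l ∈ S.lines,
      (if x ∈ S.lp l ∧ y ∈ S.lp l then S.c M l * (S.T F M l) ^ 2 else 0)) + 1 / lam := by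
  have hbe := S.be_eq
  have hb1 := S.one_le_b
  have hbe0 := S.be_pos
  have hnn : 0 ≤ lam * (∑ l ∈ S.lines,
      (if x ∈ S.lp l ∧ y ∈ S.lp l then S.c M l * (S.T F M l) ^ 2 else 0)) := by
    apply mul_nonneg hlam.le
    apply sum_nonneg
    intro l _
    have := S.c_pos M l
    split_ifs
    · positivity
    · exact le_rfl
  have h5 : 2 * (S.b : ℝ) + 1 ≤ 1 / lam := by
    rw [le_div_iff₀ hlam]
    linarith
  rcases S.pair x y hxy with h | ⟨l, hl, hxl, hyl, h⟩
  · -- at most one set
    have h1 : S.P2 F M x y ≤ 1 := by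
      unfold P2
      rw [← sum_filter]
      by_cases h2 : (F.filter (fun A => x ∈ S.pts A ∧ y ∈ S.pts A)).Nonempty
      · obtain ⟨B, hB⟩ := h2
        have hB' := (mem_filter.1 hB).2
        have h3 : F.filter (fun A => x ∈ S.pts A ∧ y ∈ S.pts A) = {B} := by
          ext A
          rw [mem_singleton]
          constructor
          · intro hA
            have hA' := (mem_filter.1 hA).2
            exact h A B hA'.1 hA'.2 hB'.1 hB'.2
          · rintro rfl; exact hB
        rw [h3, sum_singleton]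
        unfold a
        exact pow_le_one₀ (by positivity) (by rw [div_le_one hbe0, hbe]; linarith)
      · rw [not_nonempty_iff_eq_empty.1 h2]
        simp
    have h6 : (2 * (S.b : ℝ) + 1) * S.P2 F M x y ≤ (2 * S.b + 1) * 1 :=
      mul_le_mul_of_nonneg_left h1 (by positivity)
    linarith
  · -- a common line
    have h1 : S.P2 F M x y ≤ S.T F M l := by
      unfold P2 T
      apply sum_le_sum
      intro A _
      have := S.a_pos M A
      by_cases h2 : x ∈ S.pts A ∧ y ∈ S.pts A
      · rw [if_pos h2, if_pos (h A h2.1 h2.2)]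
      · rw [if_neg h2]
        split_ifs
        · exact this.le
        · exact le_rfl
    have h2 : S.be ^ 2 ≤ S.c M l := by
      unfold c
      have h3 : 2 ≤ (S.lp l \ M).card := by
        have h4 : ({x, y} : Finset V) ⊆ S.lp l \ M := by
          intro w hw
          rw [mem_insert, mem_singleton] at hw
          rcases hw with rfl | rfl
          · simp [hxl, hx]
          · simp [hyl, hy]
        have := card_le_card h4
        rwa [card_pair hxy] at this
      exact pow_le_pow_right₀ (by rw [hbe]; linarith) h3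
    have h3 : S.c M l * (S.T F M l) ^ 2 ≤ ∑ l ∈ S.lines,
      (if x ∈ S.lp l ∧ y ∈ S.lp l then S.c M l * (S.T F M l) ^ 2 else 0) := by
      have h4 := single_le_sum (f := fun l => if x ∈ S.lp l ∧ y ∈ S.lp l then
        S.c M l * (S.T F M l) ^ 2 else 0) (s := S.lines) (fun l _ => by
          have := S.c_pos M l
          show 0 ≤ if x ∈ S.lp l ∧ y ∈ S.lp l then S.c M l * (S.T F M l) ^ 2 else 0
          split_ifs
          · positivity
          · exact le_rfl) hl
      have h5 : (if x ∈ S.lp l ∧ y ∈ S.lp l then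
        S.c M l * (S.T F M l) ^ 2 else 0) = S.c M l * (S.T F M l) ^ 2 := if_pos ⟨hxl, hyl⟩
      exact h5 ▸ h4
    have h4 : S.be ^ 2 * (S.T F M l) ^ 2 ≤ S.c M l * (S.T F M l) ^ 2 :=
      mul_le_mul_of_nonneg_right h2 (sq_nonneg _)
    have hT := S.T_nonneg F M l
    have h6 : (2 * S.b + 1) * S.T F M l ≤ lam * (S.be ^ 2 * (S.T F M l) ^ 2) + 1 / lam := by
      have h7 : 0 ≤ (1 / lam) * (lam * S.be * S.T F M l - 1) ^ 2 := by positivity
      have h8 : (1 / lam) * (lam * S.be * S.T F M l - 1) ^ 2 =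
        lam * (S.be ^ 2 * (S.T F M l) ^ 2) - 2 * (S.be * S.T F M l) + 1 / lam := by
        field_simp
        ring
      have h9 : S.be * S.T F M l = S.b * S.T F M l + S.T F M l := by rw [hbe]; ring
      linarith
    have h10 := mul_le_mul_of_nonneg_left (h4.trans h3) hlam.le
    have h11 : (2 * (S.b : ℝ) + 1) * S.P2 F M x y ≤ (2 * S.b + 1) * S.T F M l :=
      mul_le_mul_of_nonneg_left h1 (by positivity)
    linarith

/-- Maker's move alone does not decrease the potential. -/
theorem single {lam : ℝ} (hlam : 0 < lam) {F : Finset ι} {M : Finset V} {x : V}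
    (hcl : ∀ G, G ⊆ F → S.L lam G M ≤ S.L lam F M) (hx : x ∉ M) :
    S.L lam F M ≤ S.L lam F (insert x M) := by
  have hbe := S.be_eq
  have hbe0 := S.be_pos
  have hb1 := S.one_le_b
  have g1 := S.gain_loss lam (F := F) hx
  have h := hcl (F.filter (fun A => x ∉ S.pts A)) (filter_subset _ _)
  have s1 : S.X F M x ≤ (S.K / S.be) * S.P F M x := S.sum_sq_le (F := F) hx
  have s2 : S.b * S.be * lam * S.X F M x ≤ S.b * S.be * lam * ((S.K / S.be) * S.P F M x) :=
    mul_le_mul_of_nonneg_left s1 (by positivity)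
  have s3 : S.b * S.be * lam * ((S.K / S.be) * S.P F M x) = S.b * lam * S.K * S.P F M x := by
    field_simp
  have q1 := S.P_nonneg F M x
  have q2 : 0 ≤ lam * S.K * S.P F M x := by positivity
  have q3 : S.b * lam * S.K * S.P F M x ≤ S.be * (lam * (2 * S.K)) * S.P F M x := by
    have : S.be * (lam * (2 * S.K)) * S.P F M x - S.b * lam * S.K * S.P F M x =
        (S.b + 2) * (lam * S.K * S.P F M x) := by
      rw [hbe]; ring
    have h2 : 0 ≤ (S.b + 2) * (lam * S.K * S.P F M x) := by positivity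
    linarith
  have q4 : 0 ≤ S.b * (S.L lam F M - S.L lam (F.filter (fun A => x ∉ S.pts A)) M) :=
    mul_nonneg (by positivity) (by linarith)
  linarith

/-- **The round lemma.** -/
theorem round {lam : ℝ} (hlam : 0 < lam) (hlam1 : lam * (2 * S.b + 1) ≤ 1)
    (hK : lam * (2 * S.K) * S.s ≤ 1)
    (hK3 : S.be * (lam * (2 * S.K)) ≤ 1) {F : Finset ι} {M Y : Finset V} {x : V}
    (hcl : ∀ G, G ⊆ F → S.L lam G M ≤ S.L lam F M)
    (hx : x ∉ M) (hYb : Y.card ≤ S.b) (hY : ∀ y ∈ Y, y ∉ M ∧ x ≠ y ∧
      S.L lam F (insert y M) ≤ S.L lam F (insert x M)) :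
    S.L lam F M - S.b / lam ≤
      S.L lam (F.filter (fun A => ∀ y ∈ Y, y ∉ S.pts A)) (insert x M) := by
  have hbe := S.be_eq
  have hbe0 := S.be_pos
  have hb1 := S.one_le_b
  have hb0 : (0 : ℝ) < S.b := by linarith
  have t := S.many_kills hlam hcl Y
  have i := S.interact hlam hK hK3 (F := F) (Y := Y) hx hYb
  have g0 := S.single hlam hcl hx
  have hYb' : (Y.card : ℝ) ≤ S.b := by exact_mod_cast hYb
  have hXn : 0 ≤ ∑ y ∈ Y, S.X F M y := sum_nonneg fun y _ => S.X_nonneg F M y
  have hPn : 0 ≤ ∑ y ∈ Y, S.P F M y := sum_nonneg fun y _ => S.P_nonneg F M y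
  -- the pair sums
  have p : (2 * S.b + 1) * ∑ y ∈ Y, S.P2 F M x y ≤ lam * ∑ y ∈ Y, ∑ l ∈ S.lines,
      (if x ∈ S.lp l ∧ y ∈ S.lp l then S.c M l * (S.T F M l) ^ 2 else 0) + S.b / lam := by
    have p1 : ∑ y ∈ Y, (2 * S.b + 1) * S.P2 F M x y ≤ ∑ y ∈ Y, (lam * (∑ l ∈ S.lines,
        (if x ∈ S.lp l ∧ y ∈ S.lp l then S.c M l * (S.T F M l) ^ 2 else 0)) + 1 / lam) :=
      sum_le_sum fun y hy => S.pair_pay hlam hlam1 (hY y hy).2.1 hx (hY y hy).1
    rw [← mul_sum, sum_add_distrib, ← mul_sum, sum_const, nsmul_eq_mul] at p1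
    have p2 : (Y.card : ℝ) * (1 / lam) ≤ S.b * (1 / lam) :=
      mul_le_mul_of_nonneg_right hYb' (by positivity)
    have p3 : (S.b : ℝ) * (1 / lam) = S.b / lam := by ring
    linarith
  -- the losses
  have g : S.b * ∑ y ∈ Y, (S.L lam F M - S.L lam (F.filter (fun A => y ∉ S.pts A)) M) ≤
      S.b * (S.L lam F (insert x M) - S.L lam F M)
        - S.be * (lam * (2 * S.K)) * ∑ y ∈ Y, S.P F M y
        + S.b * S.be * lam * ∑ y ∈ Y, S.X F M y := by
    have g1 : ∑ y ∈ Y, S.b * (S.L lam F M - S.L lam (F.filter (fun A => y ∉ S.pts A)) M) ≤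
        ∑ y ∈ Y, ((S.L lam F (insert x M) - S.L lam F M)
          - S.be * (lam * (2 * S.K)) * S.P F M y + S.b * S.be * lam * S.X F M y) := by
      apply sum_le_sum
      intro y hy
      have g2 := S.gain_loss lam (F := F) (hY y hy).1
      have g3 := (hY y hy).2.2
      linarith
    have g5 : ∑ y ∈ Y, ((S.L lam F (insert x M) - S.L lam F M)
          - S.be * (lam * (2 * S.K)) * S.P F M y + S.b * S.be * lam * S.X F M y) =
        Y.card * (S.L lam F (insert x M) - S.L lam F M)
          - S.be * (lam * (2 * S.K)) * ∑ y ∈ Y, S.P F M y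
          + S.b * S.be * lam * ∑ y ∈ Y, S.X F M y := by
      rw [sum_add_distrib, sum_sub_distrib, sum_const, nsmul_eq_mul, ← mul_sum, ← mul_sum]
    rw [← mul_sum, g5] at g1
    have g4 : (Y.card : ℝ) * (S.L lam F (insert x M) - S.L lam F M) ≤
        S.b * (S.L lam F (insert x M) - S.L lam F M) :=
      mul_le_mul_of_nonneg_right hYb' (by linarith)
    linarith
  -- the squares
  have s1 : S.be * ∑ y ∈ Y, S.X F M y ≤ S.K * ∑ y ∈ Y, S.P F M y := by
    rw [mul_sum, mul_sum]
    apply sum_le_sum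
    intro y hy
    have := S.sum_sq_le (F := F) (hY y hy).1
    have h1 : S.X F M y ≤ (S.K / S.be) * S.P F M y := this
    have h2 := mul_le_mul_of_nonneg_left h1 hbe0.le
    have h3 : S.be * ((S.K / S.be) * S.P F M y) = S.K * S.P F M y := by
      field_simp
    linarith
  set XX := ∑ y ∈ Y, S.X F M y with hXX
  set PP := ∑ y ∈ Y, S.P F M y with hPP
  set LL := ∑ y ∈ Y, (S.L lam F M - S.L lam (F.filter (fun A => y ∉ S.pts A)) M) with hLL
  have c1 : lam * (Y.card * XX) ≤ lam * (S.b * XX) :=
    mul_le_mul_of_nonneg_left (mul_le_mul_of_nonneg_right hYb' hXn) hlam.le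
  -- total
  have key : S.b * S.be * lam * XX + S.b * (lam * (S.b * XX)) ≤
      S.be * (lam * (2 * S.K)) * PP := by
    have k1 : lam * (S.be * 2 * (S.be * XX)) ≤ lam * (S.be * 2 * (S.K * PP)) :=
      mul_le_mul_of_nonneg_left (mul_le_mul_of_nonneg_left s1 (by positivity)) hlam.le
    have k2 : lam * (S.be * 2 * (S.be * XX)) - (S.b * S.be * lam * XX + S.b * (lam * (S.b * XX))) =
        lam * XX * (3 * S.b + 2) := by
      rw [hbe]; ring
    have k3 : 0 ≤ lam * XX * (3 * S.b + 2) := by positivity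
    linarith
  have fin : LL + lam * (S.b * XX) ≤ S.L lam F (insert x M) - S.L lam F M := by
    have f1 : S.b * (LL + lam * (S.b * XX)) ≤ S.b * (S.L lam F (insert x M) - S.L lam F M) := by
      linarith
    exact le_of_mul_le_mul_left f1 hb0
  linarith

end Sys

end Pool.Agent.H47.RB.H40R
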