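import Mathlib

/-!
# The potential of the (1:b) game on a linear-like family

Abstract round lemma for the Maker side of the `(1:b)` game: winning sets `pts A`, lines `lp l`
contained in the winning sets `A ∈ thr l`, any two points are in at most one winning set or on a
common line which is contained in every winning set containing both.
-/

namespace Pool.Agent.H47.RB.H40R

open Finset

structure Sys (V ι κ : Type) [DecidableEq V] [DecidableEq ι] [DecidableEq κ] where
  pts : ι → Finset V
  lp : κ → Finset V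
  thr : κ → Finset ι
  lines : Finset κ
  K : ℕ
  s : ℕ
  b : ℕ
  hb : 1 ≤ b
  sub : ∀ l A, A ∈ thr l → lp l ⊆ pts A
  uniq : ∀ l A B x, A ∈ thr l → B ∈ thr l → x ∉ lp l → x ∈ pts A → x ∈ pts B → A = B
  pair : ∀ x y, x ≠ y →
    (∀ A B, x ∈ pts A → y ∈ pts A → x ∈ pts B → y ∈ pts B → A = B) ∨
    (∃ l ∈ lines, x ∈ lp l ∧ y ∈ lp l ∧ ∀ A, x ∈ pts A → y ∈ pts A → A ∈ thr l)
  cnt : ∀ A, (lines.filter (fun l => A ∈ thr l)).card ≤ K
  size : ∀ A, (pts A).card ≤ s

variable {V ι κ : Type} [DecidableEq V] [DecidableEq ι] [DecidableEq κ] (S : Sys V ι κ)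

namespace Sys

/-- `b + 1` -/
noncomputable def be : ℝ := (S.b : ℝ) + 1

theorem be_pos : 0 < S.be := by unfold be; positivity

theorem be_eq : S.be = (S.b : ℝ) + 1 := rfl

theorem one_le_b : (1 : ℝ) ≤ S.b := by exact_mod_cast S.hb

/-- weight `(b+1)^{-free}` -/
noncomputable def a (M : Finset V) (A : ι) : ℝ := (1 / S.be) ^ (S.pts A \ M).card

/-- number of points already taken by Maker -/
def k (M : Finset V) (A : ι) : ℕ := (S.pts A ∩ M).card

/-- `(b+1)^{free points of the line}` -/
noncomputable def c (M : Finset V) (l : κ) : ℝ := S.be ^ (S.lp l \ M).card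

/-- line sum -/
noncomputable def T (F : Finset ι) (M : Finset V) (l : κ) : ℝ :=
  ∑ A ∈ F, if A ∈ S.thr l then S.a M A else 0

/-- point sum -/
noncomputable def P (F : Finset ι) (M : Finset V) (v : V) : ℝ :=
  ∑ A ∈ F, if v ∈ S.pts A then S.a M A else 0

/-- pair sum -/
noncomputable def P2 (F : Finset ι) (M : Finset V) (v w : V) : ℝ :=
  ∑ A ∈ F, if v ∈ S.pts A ∧ w ∈ S.pts A then S.a M A else 0

/-- the linear part -/
noncomputable def W (lam : ℝ) (F : Finset ι) (M : Finset V) : ℝ :=
  ∑ A ∈ F, S.a M A * (1 + lam * (2 * S.K) * S.k M A)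

/-- the quadratic part -/
noncomputable def Q (F : Finset ι) (M : Finset V) : ℝ :=
  ∑ l ∈ S.lines, S.c M l * (S.T F M l) ^ 2

/-- the potential -/
noncomputable def L (lam : ℝ) (F : Finset ι) (M : Finset V) : ℝ :=
  S.W lam F M - lam * S.Q F M

theorem a_pos (M : Finset V) (A : ι) : 0 < S.a M A := by
  have := S.be_pos
  unfold a; positivity

theorem c_pos (M : Finset V) (l : κ) : 0 < S.c M l := by
  have := S.be_pos
  unfold c; positivity

theorem a_insert_mem {M : Finset V} {x : V} (hx : x ∉ M) {A : ι} (h : x ∈ S.pts A) :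
    S.a (insert x M) A = S.be * S.a M A := by
  have hbe := S.be_pos
  unfold a
  have h1 : S.pts A \ insert x M = (S.pts A \ M).erase x := by
    ext v; simp only [mem_sdiff, mem_insert, mem_erase]; tauto
  have h2 : x ∈ S.pts A \ M := by simp [h, hx]
  have h3 : (S.pts A \ M).card = ((S.pts A \ M).erase x).card + 1 := by
    rw [card_erase_of_mem h2]
    have := card_pos.2 ⟨x, h2⟩
    omega
  rw [h1, h3, pow_succ]
  field_simp

theorem a_insert_not {M : Finset V} {x : V} {A : ι} (h : x ∉ S.pts A) :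
    S.a (insert x M) A = S.a M A := by
  unfold a
  have h1 : S.pts A \ insert x M = S.pts A \ M := by
    ext v; simp only [mem_sdiff, mem_insert]
    constructor
    · tauto
    · rintro ⟨h3, h4⟩
      refine ⟨h3, ?_⟩
      rintro (h5 | h5)
      · exact h (h5 ▸ h3)
      · exact h4 h5
  rw [h1]

theorem c_insert_mem {M : Finset V} {x : V} (hx : x ∉ M) {l : κ} (h : x ∈ S.lp l) :
    S.c M l = S.be * S.c (insert x M) l := by
  unfold c
  have h1 : S.lp l \ insert x M = (S.lp l \ M).erase x := by
    ext v; simp only [mem_sdiff, mem_insert, mem_erase]; tauto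
  have h2 : x ∈ S.lp l \ M := by simp [h, hx]
  have h3 : (S.lp l \ M).card = ((S.lp l \ M).erase x).card + 1 := by
    rw [card_erase_of_mem h2]
    have := card_pos.2 ⟨x, h2⟩
    omega
  rw [h1, h3, pow_succ]
  ring

theorem c_insert_not {M : Finset V} {x : V} {l : κ} (h : x ∉ S.lp l) :
    S.c (insert x M) l = S.c M l := by
  unfold c
  have h1 : S.lp l \ insert x M = S.lp l \ M := by
    ext v; simp only [mem_sdiff, mem_insert]
    constructor
    · tauto
    · rintro ⟨h3, h4⟩
      refine ⟨h3, ?_⟩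
      rintro (h5 | h5)
      · exact h (h5 ▸ h3)
      · exact h4 h5
  rw [h1]

theorem k_insert_mem {M : Finset V} {x : V} (hx : x ∉ M) {A : ι} (h : x ∈ S.pts A) :
    S.k (insert x M) A = S.k M A + 1 := by
  unfold k
  have h1 : S.pts A ∩ insert x M = insert x (S.pts A ∩ M) := by
    ext v; simp only [mem_inter, mem_insert]
    constructor
    · tauto
    · rintro (h2 | h2)
      · subst h2; exact ⟨h, Or.inl rfl⟩
      · exact ⟨h2.1, Or.inr h2.2⟩
  rw [h1, card_insert_of_notMem]
  simp [hx]

theorem k_insert_not {M : Finset V} {x : V} {A : ι} (h : x ∉ S.pts A) :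
    S.k (insert x M) A = S.k M A := by
  unfold k
  have h1 : S.pts A ∩ insert x M = S.pts A ∩ M := by
    ext v; simp only [mem_inter, mem_insert]
    constructor
    · rintro ⟨h3, h4 | h4⟩
      · exact absurd (h4 ▸ h3) h
      · exact ⟨h3, h4⟩
    · tauto
  rw [h1]

theorem k_le (M : Finset V) (A : ι) : S.k M A ≤ S.s := by
  unfold k
  exact (card_le_card inter_subset_left).trans (S.size A)

/-- the line sum splits according to any predicate -/
theorem T_split (F : Finset ι) (M : Finset V) (l : κ) (p : ι → Prop) [DecidablePred p] :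
    S.T F M l = S.T (F.filter p) M l + S.T (F.filter (fun A => ¬ p A)) M l := by
  unfold T
  rw [sum_filter_add_sum_filter_not]

theorem T_nonneg (F : Finset ι) (M : Finset V) (l : κ) : 0 ≤ S.T F M l := by
  unfold T
  apply sum_nonneg
  intro A _
  split_ifs
  · exact (S.a_pos M A).le
  · exact le_rfl

theorem T_mono {F G : Finset ι} (h : F ⊆ G) (M : Finset V) (l : κ) : S.T F M l ≤ S.T G M l := by
  unfold T
  apply sum_le_sum_of_subset_of_nonneg h
  intro A _ _
  split_ifs
  · exact (S.a_pos M A).le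
  · exact le_rfl

/-- all sets through a line containing `v` contain `v` -/
theorem T_kill {F : Finset ι} {M : Finset V} {l : κ} {v : V} (hv : v ∈ S.lp l)
    (hF : ∀ A ∈ F, v ∉ S.pts A) : S.T F M l = 0 := by
  unfold T
  apply sum_eq_zero
  intro A hA
  split_ifs with h
  · exact absurd (S.sub l A h hv) (hF A hA)
  · rfl

/-- Maker's move at a point of the line -/
theorem T_insert_mem {F : Finset ι} {M : Finset V} {l : κ} {x : V} (hx : x ∉ M)
    (hl : x ∈ S.lp l) : S.T F (insert x M) l = S.be * S.T F M l := by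
  unfold T
  rw [mul_sum]
  apply sum_congr rfl
  intro A _
  split_ifs with h
  · exact S.a_insert_mem hx (S.sub l A h hl)
  · ring

/-- Maker's move in general -/
theorem T_insert {F : Finset ι} {M : Finset V} {l : κ} {x : V} (hx : x ∉ M) :
    S.T F (insert x M) l = S.T F M l + S.b * S.T (F.filter (fun A => x ∈ S.pts A)) M l := by
  unfold T
  rw [sum_filter, mul_sum, ← sum_add_distrib]
  apply sum_congr rfl
  intro A _
  by_cases h1 : x ∈ S.pts A
  · rw [S.a_insert_mem hx h1, be_eq]
    split_ifs <;> ring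
  · rw [S.a_insert_not h1]
    split_ifs <;> ring

/-- a set through the line containing a free point outside the line is light -/
theorem ca_le {M : Finset V} {l : κ} {A : ι} {v : V} (hA : A ∈ S.thr l) (hv : v ∈ S.pts A)
    (hvl : v ∉ S.lp l) (hvM : v ∉ M) : S.c M l * S.a M A ≤ 1 / S.be := by
  have hbe := S.be_pos
  have hbe1 : 1 ≤ S.be := by rw [be_eq]; have := S.one_le_b; linarith
  unfold c a
  have h1 : (S.lp l \ M).card + 1 ≤ (S.pts A \ M).card := by
    rw [← card_insert_of_notMem (a := v) (s := S.lp l \ M) (by simp [hvl])]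
    apply card_le_card
    intro w hw
    rw [mem_insert] at hw
    rcases hw with h | h
    · subst h; simp [hv, hvM]
    · rw [mem_sdiff] at h ⊢
      exact ⟨S.sub l A hA h.1, h.2⟩
  obtain ⟨d, hd⟩ := Nat.exists_eq_add_of_le h1
  rw [hd, pow_add, pow_add]
  have h2 : S.be ^ (S.lp l \ M).card * (1 / S.be) ^ (S.lp l \ M).card = 1 := by
    rw [← mul_pow, mul_one_div_cancel hbe.ne', one_pow]
  have h4 : 0 ≤ 1 / S.be := by positivity
  have h3 : (1 / S.be) ^ d ≤ 1 := pow_le_one₀ h4 (by rw [div_le_one hbe]; exact hbe1)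
  calc S.be ^ (S.lp l \ M).card * ((1 / S.be) ^ (S.lp l \ M).card * (1 / S.be) ^ 1 * (1 / S.be) ^ d)
      = (S.be ^ (S.lp l \ M).card * (1 / S.be) ^ (S.lp l \ M).card) *
          ((1 / S.be) * (1 / S.be) ^ d) := by
        ring
    _ ≤ 1 / S.be := by rw [h2]; nlinarith

/-- squares of the line sums of the sets through `v` -/
theorem sq_le {F : Finset ι} {M : Finset V} {l : κ} {v : V} (hvl : v ∉ S.lp l) (hvM : v ∉ M) :
    S.c M l * (S.T (F.filter (fun A => v ∈ S.pts A)) M l) ^ 2 ≤
      ∑ A ∈ F, if v ∈ S.pts A ∧ A ∈ S.thr l then (1 / S.be) * S.a M A else 0 := by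
  classical
  have h1 : S.T (F.filter (fun A => v ∈ S.pts A)) M l =
      ∑ A ∈ F.filter (fun A => v ∈ S.pts A ∧ A ∈ S.thr l), S.a M A := by
    unfold T
    rw [← sum_filter, filter_filter]
  rw [h1, ← sum_filter]
  by_cases h2 : (F.filter (fun A => v ∈ S.pts A ∧ A ∈ S.thr l)).Nonempty
  · obtain ⟨B, hB⟩ := h2
    have hB' := (mem_filter.1 hB).2
    have h3 : F.filter (fun A => v ∈ S.pts A ∧ A ∈ S.thr l) = {B} := by
      ext A
      rw [mem_singleton]
      constructor
      · intro hA
        have hA' := (mem_filter.1 hA).2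
        exact S.uniq l A B v hA'.2 hB'.2 hvl hA'.1 hB'.1
      · rintro rfl; exact hB
    rw [h3, sum_singleton, sum_singleton]
    have h4 := S.ca_le hB'.2 hB'.1 hvl hvM
    have h5 := S.a_pos M B
    nlinarith
  · rw [not_nonempty_iff_eq_empty.1 h2]
    simp

/-- total of the squares -/
theorem sum_sq_le {F : Finset ι} {M : Finset V} {v : V} (hvM : v ∉ M) :
    ∑ l ∈ S.lines, (if v ∈ S.lp l then 0 else
      S.c M l * (S.T (F.filter (fun A => v ∈ S.pts A)) M l) ^ 2) ≤ (S.K / S.be) * S.P F M v := by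
  classical
  have hbe := S.be_pos
  have h1 : ∀ l ∈ S.lines, (if v ∈ S.lp l then 0 else
      S.c M l * (S.T (F.filter (fun A => v ∈ S.pts A)) M l) ^ 2) ≤
      ∑ A ∈ F, if v ∈ S.pts A ∧ A ∈ S.thr l then (1 / S.be) * S.a M A else 0 := by
    intro l _
    split_ifs with h
    · apply sum_nonneg
      intro A _
      have := S.a_pos M A
      split_ifs
      · positivity
      · exact le_rfl
    · exact S.sq_le h hvM
  refine (sum_le_sum h1).trans ?_
  rw [sum_comm]
  unfold P
  rw [mul_sum]
  apply sum_le_sum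
  intro A _
  by_cases h : v ∈ S.pts A
  · simp only [h, true_and, if_true]
    rw [← sum_filter, sum_const, nsmul_eq_mul]
    have h2 : ((S.lines.filter (fun l => A ∈ S.thr l)).card : ℝ) ≤ S.K := by
      exact_mod_cast S.cnt A
    have := S.a_pos M A
    have h3 : 0 ≤ (1 / S.be) * S.a M A := by positivity
    calc _ ≤ (S.K : ℝ) * ((1 / S.be) * S.a M A) := mul_le_mul_of_nonneg_right h2 h3
      _ = _ := by ring
  · simp [h]

end Sys

end Pool.Agent.H47.RB.H40R
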