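import Pool.Agent.H47.RB.BigSum

/-!
Parameters.
-/

set_option autoImplicit false
set_option linter.unusedVariables false
set_option linter.unusedSectionVars false
set_option maxHeartbeats 4000000

namespace Pool.Agent.H47.RB

open Finset

section

lemma aux_term (β N q m M1 K s : ℕ) (Λ : ℝ) (hβ : 2 ≤ β) (hN : 1 ≤ N) (hq : 2 ≤ q) (hΛ : 0 < Λ)
    (hm : 1 ≤ m) (hmM : m ≤ M1) (hK : 1 ≤ K)
    (hb : (K : ℝ) ^ 2 * ((3 * (M1 : ℝ)) ^ 2 * ((q : ℝ) * M1) ^ 8 * (N : ℝ) ^ 4) ≤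
      Λ * (β : ℝ) ^ (q ^ 2 - s) / β) :
    (K : ℝ) ^ (2 * m - 1) *
        ((2 * (m : ℝ) + 1) * (((q * m : ℕ) : ℝ) ^ 2) ^ (2 * m) * (N : ℝ) ^ (2 * m)) ^ 2 /
        (((β : ℝ) ^ (q ^ 2 - s)) ^ m * Λ ^ (m - 1)) ≤ Λ * (1 / (β : ℝ)) ^ m := by
  have hβ0 : (0 : ℝ) < β := by exact_mod_cast (by omega : 0 < β)
  have hm1 : (1 : ℝ) ≤ m := by exact_mod_cast hm
  have hmM1 : (m : ℝ) ≤ M1 := by exact_mod_cast hmM
  have hK1 : (1 : ℝ) ≤ K := by exact_mod_cast hK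
  have hq0 : (0 : ℝ) ≤ q := by positivity
  have h1 : (K : ℝ) ^ (2 * m - 1) ≤ ((K : ℝ) ^ 2) ^ m := by
    rw [← pow_mul]
    exact pow_le_pow_right₀ hK1 (by omega)
  have h2 : (2 * (m : ℝ) + 1) ^ 2 ≤ ((3 * (M1 : ℝ)) ^ 2) ^ m := by
    have h21 : (2 * (m : ℝ) + 1) ^ 2 ≤ (3 * (M1 : ℝ)) ^ 2 := by
      apply pow_le_pow_left₀ (by positivity)
      linarith
    refine h21.trans ?_
    apply le_self_pow₀ _ (by omega)
    apply one_le_pow₀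
    linarith
  have h3 : (((q * m : ℕ) : ℝ) ^ 8) ^ m ≤ (((q : ℝ) * M1) ^ 8) ^ m := by
    apply pow_le_pow_left₀ (by positivity)
    apply pow_le_pow_left₀ (by positivity)
    push_cast
    exact mul_le_mul_of_nonneg_left hmM1 hq0
  have h4 : ((2 * (m : ℝ) + 1) * (((q * m : ℕ) : ℝ) ^ 2) ^ (2 * m) * (N : ℝ) ^ (2 * m)) ^ 2 =
      (2 * (m : ℝ) + 1) ^ 2 * (((q * m : ℕ) : ℝ) ^ 8) ^ m * ((N : ℝ) ^ 4) ^ m := by
    have e1 : ∀ x : ℝ, ((x ^ 2) ^ (2 * m)) ^ 2 = (x ^ 8) ^ m := by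
      intro x
      rw [← pow_mul, ← pow_mul, ← pow_mul]
      congr 1
      ring
    have e2 : ∀ x : ℝ, (x ^ (2 * m)) ^ 2 = (x ^ 4) ^ m := by
      intro x
      rw [← pow_mul, ← pow_mul]
      congr 1
      ring
    rw [mul_pow, mul_pow, e1, e2]
  have hden : 0 < ((β : ℝ) ^ (q ^ 2 - s)) ^ m * Λ ^ (m - 1) := by positivity
  rw [div_le_iff₀ hden, h4]
  have hΛm : Λ ^ m = Λ ^ (m - 1) * Λ := by
    rw [← pow_succ]
    congr 1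
    omega
  have h5 : Λ * (1 / (β : ℝ)) ^ m * (((β : ℝ) ^ (q ^ 2 - s)) ^ m * Λ ^ (m - 1)) =
      (Λ * (β : ℝ) ^ (q ^ 2 - s) / β) ^ m := by
    rw [show Λ * (β : ℝ) ^ (q ^ 2 - s) / β = Λ * (β : ℝ) ^ (q ^ 2 - s) * (1 / (β : ℝ)) by ring,
      mul_pow, mul_pow, hΛm]
    ring
  rw [h5]
  calc (K : ℝ) ^ (2 * m - 1) *
        ((2 * (m : ℝ) + 1) ^ 2 * (((q * m : ℕ) : ℝ) ^ 8) ^ m * ((N : ℝ) ^ 4) ^ m)
      ≤ ((K : ℝ) ^ 2) ^ m * (((3 * (M1 : ℝ)) ^ 2) ^ m * (((q : ℝ) * M1) ^ 8) ^ m *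
        ((N : ℝ) ^ 4) ^ m) := by
        apply mul_le_mul h1 _ (by positivity) (by positivity)
        apply mul_le_mul_of_nonneg_right _ (by positivity)
        exact mul_le_mul h2 h3 (by positivity) (by positivity)
    _ = ((K : ℝ) ^ 2 * ((3 * (M1 : ℝ)) ^ 2 * ((q : ℝ) * M1) ^ 8 * (N : ℝ) ^ 4)) ^ m := by
        simp only [mul_pow]
    _ ≤ _ := pow_le_pow_left₀ (by positivity) hb m

lemma par_of_ineq (β N q s e : ℕ) (hβ : 2 ≤ β) (hN : 1 ≤ N) (hq : 2 ≤ q) (hs3 : 3 ≤ s)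
    (hs : s < q ^ 2)
    (hs1 : 2 * ((q ^ 2 + 2) * q) ^ 4 < 2 ^ s) (h2 : N ^ 2 * β ^ e ≤ β ^ (q ^ 2))
    (h3 : β ^ q ≤ N) (h4 : e ≤ q)
    (h5 : β ^ 2 * (((q ^ 2 + 1) ^ s) ^ 2 * (q * (q ^ 2 * (q ^ 2 + 2))) ^ 8 *
      (3 * (q ^ 2 * (q ^ 2 + 2))) ^ 2 * β ^ s) ≤ β ^ e) :
    ∃ Λ : ℝ, Par β N q s Λ (q ^ 2 + 2) := by
  have hβr : (2 : ℝ) ≤ β := by exact_mod_cast hβ
  have hβ1 : (1 : ℝ) ≤ β := by linarith
  have hβ0 : (0 : ℝ) < β := by linarith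
  have hNR : (1 : ℝ) ≤ N := by exact_mod_cast hN
  have hN0 : (0 : ℝ) < N := by linarith
  have hqq : q ≤ q ^ 2 := by nlinarith
  have h2R : (N : ℝ) ^ 2 * (β : ℝ) ^ e ≤ (β : ℝ) ^ (q ^ 2) := by exact_mod_cast h2
  have h3R : (β : ℝ) ^ q ≤ N := by exact_mod_cast h3
  have h3pos : (0 : ℝ) < (β : ℝ) ^ (q ^ 2) := by positivity
  have h3e : (0 : ℝ) < (β : ℝ) ^ e := by positivity
  set Λ : ℝ := (N : ℝ) ^ 4 * (β : ℝ) ^ e / (β : ℝ) ^ (q ^ 2 + 1) with hΛdef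
  have hΛ : 0 < Λ := by positivity
  have hΛ1 : Λ * (β : ℝ) ^ (q ^ 2 + 1) = (N : ℝ) ^ 4 * (β : ℝ) ^ e := by
    rw [hΛdef]
    field_simp
  have hΛ3 : Λ * β * (β : ℝ) ^ (q ^ 2) = (N : ℝ) ^ 4 * (β : ℝ) ^ e := by
    rw [← hΛ1, pow_succ]
    ring
  have hL1 : Λ * β ≤ (N : ℝ) ^ 2 := by
    have : Λ * β * (β : ℝ) ^ (q ^ 2) ≤ (N : ℝ) ^ 2 * (β : ℝ) ^ (q ^ 2) := by
      rw [hΛ3]
      calc (N : ℝ) ^ 4 * (β : ℝ) ^ e = (N : ℝ) ^ 2 * ((N : ℝ) ^ 2 * (β : ℝ) ^ e) := by ring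
        _ ≤ (N : ℝ) ^ 2 * (β : ℝ) ^ (q ^ 2) := mul_le_mul_of_nonneg_left h2R (by positivity)
    exact le_of_mul_le_mul_right this h3pos
  have hN2 : (N : ℝ) ^ 2 ≤ (β : ℝ) ^ (q ^ 2) := by
    refine le_trans ?_ h2R
    have : (1 : ℝ) ≤ (β : ℝ) ^ e := one_le_pow₀ hβ1
    nlinarith [sq_nonneg (N : ℝ)]
  refine ⟨Λ, ⟨hβ, hN, hq, hs, by omega, hΛ, hL1, ?_, ?_, ?_, ?_⟩⟩
  · -- hL2
    have : Λ * (β : ℝ) ^ q * (β : ℝ) ^ (q ^ 2 + 1) ≤ (N : ℝ) ^ 3 * (β : ℝ) ^ (q ^ 2 + 1) := by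
      calc Λ * (β : ℝ) ^ q * (β : ℝ) ^ (q ^ 2 + 1) = Λ * (β : ℝ) ^ (q ^ 2 + 1) * (β : ℝ) ^ q := by
            ring
        _ = (N : ℝ) ^ 4 * (β : ℝ) ^ e * (β : ℝ) ^ q := by rw [hΛ1]
        _ ≤ (N : ℝ) ^ 4 * (β : ℝ) ^ e * N := mul_le_mul_of_nonneg_left h3R (by positivity)
        _ = (N : ℝ) ^ 3 * ((N : ℝ) ^ 2 * (β : ℝ) ^ e) := by ring
        _ ≤ (N : ℝ) ^ 3 * (β : ℝ) ^ (q ^ 2) := mul_le_mul_of_nonneg_left h2R (by positivity)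
        _ ≤ (N : ℝ) ^ 3 * (β : ℝ) ^ (q ^ 2 + 1) := by
          apply mul_le_mul_of_nonneg_left _ (by positivity)
          exact pow_le_pow_right₀ hβ1 (by omega)
    exact le_of_mul_le_mul_right this (by positivity)
  · -- hL3
    have : Λ * (β : ℝ) ^ (q ^ 2 - q) * (β : ℝ) ^ (q ^ 2 + 1) ≤
        (N : ℝ) ^ 4 * (β : ℝ) ^ (q ^ 2 + 1) := by
      calc Λ * (β : ℝ) ^ (q ^ 2 - q) * (β : ℝ) ^ (q ^ 2 + 1) =
            Λ * (β : ℝ) ^ (q ^ 2 + 1) * (β : ℝ) ^ (q ^ 2 - q) := by ring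
        _ = (N : ℝ) ^ 4 * (β : ℝ) ^ e * (β : ℝ) ^ (q ^ 2 - q) := by rw [hΛ1]
        _ = (N : ℝ) ^ 4 * (β : ℝ) ^ (e + (q ^ 2 - q)) := by rw [pow_add]; ring
        _ ≤ (N : ℝ) ^ 4 * (β : ℝ) ^ (q ^ 2 + 1) := by
          apply mul_le_mul_of_nonneg_left _ (by positivity)
          exact pow_le_pow_right₀ hβ1 (by omega)
    exact le_of_mul_le_mul_right this (by positivity)
  · -- hsm
    have h : (2 : ℝ) * (((q ^ 2 + 2) * q : ℕ) : ℝ) ^ 4 < 2 ^ s := by exact_mod_cast hs1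
    have h2s : (0 : ℝ) < 2 ^ s := by positivity
    rw [one_div, inv_pow, ← div_eq_mul_inv, div_lt_one h2s]
    exact h
  · -- hbig
    set M1 : ℕ := q ^ 2 * (q ^ 2 + 2) with hM1
    set K : ℕ := (q ^ 2 + 1) ^ s with hK
    have hM1pos : 1 ≤ M1 := by
      rw [hM1]
      exact Nat.mul_pos (by positivity) (by omega)
    have hKpos : 1 ≤ K := Nat.one_le_pow _ _ (by omega)
    have hK2 : 2 * M1 ≤ K := by
      calc 2 * M1 ≤ (q ^ 2 + 1) ^ 3 := by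
            rw [hM1]
            have : 1 ≤ q ^ 2 := by nlinarith
            nlinarith [sq_nonneg (q ^ 2), Nat.zero_le (q ^ 2)]
        _ ≤ K := Nat.pow_le_pow_right (by omega) hs3
    have hsum := big_sum β N q s (q ^ 2 + 2) M1 K Λ hβ hN (by omega) hΛ (by omega) hM1pos le_rfl
      hK2
    have hb : (K : ℝ) ^ 2 * ((3 * (M1 : ℝ)) ^ 2 * ((q : ℝ) * M1) ^ 8 * (N : ℝ) ^ 4) ≤
        Λ * (β : ℝ) ^ (q ^ 2 - s) / β := by
      have h5R : (β : ℝ) ^ 2 * ((K : ℝ) ^ 2 * ((q : ℝ) * M1) ^ 8 * (3 * (M1 : ℝ)) ^ 2 *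
          (β : ℝ) ^ s) ≤ (β : ℝ) ^ e := by exact_mod_cast h5
      have h3s : (0 : ℝ) < (β : ℝ) ^ s := by positivity
      have hsplit : (β : ℝ) ^ (q ^ 2 - s) * (β : ℝ) ^ s = (β : ℝ) ^ (q ^ 2) := by
        rw [← pow_add]
        congr 1
        omega
      have key : (K : ℝ) ^ 2 * ((3 * (M1 : ℝ)) ^ 2 * ((q : ℝ) * M1) ^ 8 * (N : ℝ) ^ 4) *
          ((β : ℝ) ^ 2 * (β : ℝ) ^ s) ≤
          Λ * (β : ℝ) ^ (q ^ 2 - s) / β * ((β : ℝ) ^ 2 * (β : ℝ) ^ s) := by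
        have e1 : Λ * (β : ℝ) ^ (q ^ 2 - s) / β * ((β : ℝ) ^ 2 * (β : ℝ) ^ s) =
            (N : ℝ) ^ 4 * (β : ℝ) ^ e := by
          rw [← hΛ3, ← hsplit]
          field_simp
        rw [e1]
        calc (K : ℝ) ^ 2 * ((3 * (M1 : ℝ)) ^ 2 * ((q : ℝ) * M1) ^ 8 * (N : ℝ) ^ 4) *
              ((β : ℝ) ^ 2 * (β : ℝ) ^ s) = (N : ℝ) ^ 4 *
              ((β : ℝ) ^ 2 * ((K : ℝ) ^ 2 * ((q : ℝ) * M1) ^ 8 * (3 * (M1 : ℝ)) ^ 2 *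
                (β : ℝ) ^ s)) := by ring
          _ ≤ (N : ℝ) ^ 4 * (β : ℝ) ^ e := mul_le_mul_of_nonneg_left h5R (by positivity)
      exact le_of_mul_le_mul_right key (by positivity)
    have hterm : ∀ m ∈ Icc (q ^ 2 + 2) M1, (K : ℝ) ^ (2 * m - 1) *
        ((2 * (m : ℝ) + 1) * (((q * m : ℕ) : ℝ) ^ 2) ^ (2 * m) * (N : ℝ) ^ (2 * m)) ^ 2 /
        (((β : ℝ) ^ (q ^ 2 - s)) ^ m * Λ ^ (m - 1)) ≤ Λ * (1 / (β : ℝ)) ^ m := by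
      intro m hm
      rw [mem_Icc] at hm
      exact aux_term β N q m M1 K s Λ hβ hN hq hΛ (by omega) hm.2 hKpos hb
    have hsum2 := hsum.trans (Finset.sum_le_sum hterm)
    rw [← Finset.mul_sum] at hsum2
    have hi0 : 0 ≤ 1 / (β : ℝ) := by positivity
    have hi1 : 1 / (β : ℝ) < 1 := by rw [div_lt_one hβ0]; linarith
    have hgeo : ∑ m ∈ Icc (q ^ 2 + 2) M1, (1 / (β : ℝ)) ^ m ≤
        (1 / (β : ℝ)) ^ (q ^ 2 + 2) / (1 - 1 / (β : ℝ)) := by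
      have := geom_sum_Ico_le_of_lt_one (x := (1 / (β : ℝ))) (m := q ^ 2 + 2) (n := M1 + 1)
        hi0 hi1
      exact this
    have hΛle : Λ ≤ (β : ℝ) ^ (q ^ 2) / β := by
      rw [le_div_iff₀ hβ0]
      exact hL1.trans hN2
    have hden : 0 < 1 - 1 / (β : ℝ) := by linarith
    have h13 : (β : ℝ) ^ (q ^ 2) * (1 / (β : ℝ)) ^ (q ^ 2 + 2) = 1 / (β : ℝ) ^ 2 := by
      rw [pow_add, one_div, inv_pow, inv_pow]
      field_simp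
    have hfin : Λ * ∑ m ∈ Icc (q ^ 2 + 2) M1, (1 / (β : ℝ)) ^ m ≤
        1 / ((β : ℝ) ^ 2 * (β - 1)) := by
      calc Λ * ∑ m ∈ Icc (q ^ 2 + 2) M1, (1 / (β : ℝ)) ^ m
          ≤ ((β : ℝ) ^ (q ^ 2) / β) * ((1 / (β : ℝ)) ^ (q ^ 2 + 2) / (1 - 1 / (β : ℝ))) := by
            apply mul_le_mul hΛle hgeo (by positivity) (by positivity)
        _ = ((β : ℝ) ^ (q ^ 2) * (1 / (β : ℝ)) ^ (q ^ 2 + 2)) / (β * (1 - 1 / (β : ℝ))) := by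
            rw [div_mul_div_comm]
        _ = 1 / ((β : ℝ) ^ 2 * (β - 1)) := by
            rw [h13]
            have : (β : ℝ) * (1 - 1 / (β : ℝ)) = β - 1 := by field_simp
            rw [this, div_div]
    have hlast : (β : ℝ) * (1 / ((β : ℝ) ^ 2 * (β - 1))) < 1 := by
      have hb1 : (1 : ℝ) ≤ β - 1 := by linarith
      rw [mul_one_div, div_lt_one (by positivity)]
      nlinarith
    have h6 := mul_le_mul_of_nonneg_left (hsum2.trans hfin) hβ0.le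
    linarith

end

section

/-- choice of the parameters -/
lemma params_ev (β : ℕ) (hβ : 2 ≤ β) (ε : ℝ) (hε : 0 < ε) (hε1 : ε ≤ 1) : ∃ N₀ : ℕ, ∀ N : ℕ, N₀ ≤ N →
    ∃ q s e : ℕ, (∀ q' : ℕ, Real.sqrt (2 * Real.logb β N) + ε ≤ q' → q ≤ q') ∧
      1 ≤ N ∧ 2 ≤ q ∧ 3 ≤ s ∧ s < q ^ 2 ∧ 2 * ((q ^ 2 + 2) * q) ^ 4 < 2 ^ s ∧
      N ^ 2 * β ^ e ≤ β ^ (q ^ 2) ∧ β ^ q ≤ N ∧ e ≤ q ∧
      β ^ 2 * (((q ^ 2 + 1) ^ s) ^ 2 * (q * (q ^ 2 * (q ^ 2 + 2))) ^ 8 *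
        (3 * (q ^ 2 * (q ^ 2 + 2))) ^ 2 * β ^ s) ≤ β ^ e := by
  have hβr : (2 : ℝ) ≤ β := by exact_mod_cast hβ
  have hβ1 : (1 : ℝ) < β := by linarith
  have hβ0 : (0 : ℝ) < β := by linarith
  -- auxiliary bound
  have hl3 : ∀ k : ℕ, (k + 1) ^ 3 ≤ 8 * 2 ^ k := by
    intro k
    rcases Nat.lt_or_ge k 4 with hk | hk
    · interval_cases k <;> norm_num
    · induction k, hk using Nat.le_induction with
      | base => norm_num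
      | succ n hn ih =>
        have h1 : (n + 1 + 1) ^ 3 ≤ 2 * (n + 1) ^ 3 := by
          have : ((n : ℤ) + 1 + 1) ^ 3 ≤ 2 * ((n : ℤ) + 1) ^ 3 := by
            have hn' : (4 : ℤ) ≤ n := by exact_mod_cast hn
            nlinarith [mul_nonneg (sub_nonneg.mpr hn') (sub_nonneg.mpr hn'),
              mul_nonneg (mul_nonneg (sub_nonneg.mpr hn') (sub_nonneg.mpr hn')) (sub_nonneg.mpr hn')]
          exact_mod_cast this
        calc (n + 1 + 1) ^ 3 ≤ 2 * (n + 1) ^ 3 := h1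
          _ ≤ 2 * (8 * 2 ^ n) := by omega
          _ = 8 * 2 ^ (n + 1) := by ring
  set L₀ : ℕ := ⌈1504 / ε⌉₊ with hL₀
  have h2L : 1 ≤ 2 ^ L₀ := Nat.one_le_two_pow
  set Q₀ : ℕ := 16 + 2 ^ L₀ + β with hQ₀
  refine ⟨β ^ (Q₀ ^ 2), ?_⟩
  intro N hN
  have hN1 : 1 ≤ N := le_trans (Nat.one_le_pow _ _ (by omega)) hN
  have hNpos : (0 : ℝ) < N := by exact_mod_cast hN1
  set F : ℝ := Real.sqrt (2 * Real.logb β N) with hF
  have hlog : (Q₀ : ℝ) ^ 2 ≤ Real.logb β N := by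
    rw [Real.le_logb_iff_rpow_le hβ1 hNpos]
    have : ((β : ℝ) ^ ((Q₀ : ℝ) ^ 2)) = ((β ^ (Q₀ ^ 2) : ℕ) : ℝ) := by
      rw [Nat.cast_pow, ← Real.rpow_natCast (β : ℝ) (Q₀ ^ 2), Nat.cast_pow]
    rw [this]
    exact_mod_cast hN
  have hlog0 : 0 ≤ 2 * Real.logb β N := by
    have : (0 : ℝ) ≤ (Q₀ : ℝ) ^ 2 := by positivity
    linarith
  have hFsq : F ^ 2 = 2 * Real.logb β N := Real.sq_sqrt hlog0
  have hFQ : (Q₀ : ℝ) ≤ F := by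
    apply Real.le_sqrt_of_sq_le
    have : (0 : ℝ) ≤ (Q₀ : ℝ) ^ 2 := by positivity
    linarith
  have hQ16 : (16 : ℝ) ≤ Q₀ := by
    have : 16 ≤ Q₀ := by omega
    exact_mod_cast this
  have hF16 : 16 ≤ F := hQ16.trans hFQ
  set q : ℕ := ⌈F + ε⌉₊ with hq
  have hq1 : F + ε ≤ q := Nat.le_ceil _
  have hq2 : (q : ℝ) < F + ε + 1 := Nat.ceil_lt_add_one (by linarith)
  have hqQ : Q₀ ≤ q := by
    have : (Q₀ : ℝ) ≤ q := by linarith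
    exact_mod_cast this
  have hq16 : 16 ≤ q := le_trans (by omega) hqQ
  have hqβ : β ≤ q := le_trans (by omega) hqQ
  set k : ℕ := Nat.log 2 q with hk
  have hkL : L₀ ≤ k := by
    rw [hk]
    apply (Nat.le_log_iff_pow_le (by norm_num) (by omega)).mpr
    omega
  have hkq : 2 ^ k ≤ q := Nat.pow_log_le_self 2 (by omega)
  have hqk : q < 2 ^ (k + 1) := Nat.lt_pow_succ_log_self (by norm_num) q
  have hkltq : k < q := Nat.log_lt_self 2 (by omega)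
  set e : ℕ := ⌊ε * q⌋₊ with he
  have heq : e ≤ q := by
    apply Nat.floor_le_of_le
    have : (0 : ℝ) ≤ q := Nat.cast_nonneg q
    nlinarith
  have hek : (k + 1) * (84 * (k + 1) + 104) ≤ e := by
    apply Nat.le_floor
    have h1 : ((k : ℝ) + 1) ^ 3 ≤ 8 * q := by
      have h2 : (k + 1) ^ 3 ≤ 8 * q := (hl3 k).trans (by omega)
      exact_mod_cast h2
    have h3 : 1504 / ε ≤ (k : ℝ) + 1 := by
      have h4 : 1504 / ε ≤ (L₀ : ℝ) := Nat.le_ceil _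
      have h5 : (L₀ : ℝ) ≤ k := by exact_mod_cast hkL
      linarith
    have h6 : 1504 ≤ ε * ((k : ℝ) + 1) := by
      rw [div_le_iff₀ hε] at h3
      linarith
    have hk1 : (1 : ℝ) ≤ (k : ℝ) + 1 := by
      have : (0 : ℝ) ≤ k := Nat.cast_nonneg k
      linarith
    set x : ℝ := (k : ℝ) + 1 with hx
    push_cast
    rw [← hx]
    have h7 : 188 * x ^ 2 * 8 ≤ ε * x ^ 3 := by
      have : 0 ≤ x ^ 2 := by positivity
      nlinarith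
    have h8 : ε * x ^ 3 ≤ 8 * (ε * q) := by nlinarith
    have h9 : x * (84 * x + 104) ≤ 188 * x ^ 2 := by nlinarith
    linarith
  refine ⟨q, 12 * (k + 1) + 6, e, ?_, hN1, by omega, by omega, ?_, ?_, ?_, ?_, heq, ?_⟩
  · intro q' hq'
    exact Nat.ceil_le.mpr hq'
  · have : 12 * (k + 1) + 6 ≤ 12 * q + 6 := by omega
    nlinarith
  · have h1 : (q ^ 2 + 2) * q ≤ 2 * q ^ 3 := by nlinarith
    calc 2 * ((q ^ 2 + 2) * q) ^ 4 ≤ 2 * (2 * q ^ 3) ^ 4 := by gcongr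
      _ = 32 * q ^ 12 := by ring
      _ ≤ 32 * (2 ^ (k + 1)) ^ 12 := by gcongr
      _ = 2 ^ (12 * (k + 1) + 5) := by rw [← pow_mul, mul_comm (k + 1) 12, pow_add]; ring
      _ < 2 ^ (12 * (k + 1) + 6) := by
        apply Nat.pow_lt_pow_right (by norm_num); omega
  · have hr : ((N ^ 2 * β ^ e : ℕ) : ℝ) ≤ ((β ^ (q ^ 2) : ℕ) : ℝ) := by
      push_cast
      have hN2 : (N : ℝ) = (β : ℝ) ^ (Real.logb β N) :=
        (Real.rpow_logb hβ0 hβ1.ne' hNpos).symm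
      have hN3 : (N : ℝ) ^ 2 = (β : ℝ) ^ (F ^ 2) := by
        rw [hFsq]
        nth_rewrite 1 [hN2]
        rw [← Real.rpow_natCast, ← Real.rpow_mul hβ0.le]
        congr 1
        push_cast
        ring
      rw [hN3, ← Real.rpow_natCast (β : ℝ) e, ← Real.rpow_add hβ0,
        ← Real.rpow_natCast (β : ℝ) (q ^ 2)]
      apply Real.rpow_le_rpow_of_exponent_le hβ1.le
      push_cast
      have he1 : (e : ℝ) ≤ ε * q := Nat.floor_le (by positivity)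
      have he2 : ε * q ≤ 2 * ε * F := by nlinarith
      nlinarith
    exact_mod_cast hr
  · have hr : ((β ^ q : ℕ) : ℝ) ≤ (N : ℝ) := by
      push_cast
      have hN2 : (N : ℝ) = (β : ℝ) ^ (Real.logb β N) :=
        (Real.rpow_logb hβ0 hβ1.ne' hNpos).symm
      rw [hN2, ← Real.rpow_natCast (β : ℝ) q]
      apply Real.rpow_le_rpow_of_exponent_le hβ1.le
      nlinarith
    exact_mod_cast hr
  · have hq3 : 3 ≤ q := by omega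
    have h1 : q ^ 2 + 1 ≤ q ^ 3 := by nlinarith
    have h2 : q ^ 2 + 2 ≤ q ^ 3 := by nlinarith
    have h3 : q ^ 2 * (q ^ 2 + 2) ≤ q ^ 5 := by
      calc q ^ 2 * (q ^ 2 + 2) ≤ q ^ 2 * q ^ 3 := by gcongr
        _ = q ^ 5 := by ring
    calc β ^ 2 * (((q ^ 2 + 1) ^ (12 * (k + 1) + 6)) ^ 2 * (q * (q ^ 2 * (q ^ 2 + 2))) ^ 8 *
        (3 * (q ^ 2 * (q ^ 2 + 2))) ^ 2 * β ^ (12 * (k + 1) + 6))
        ≤ q ^ 2 * (((q ^ 3) ^ (12 * (k + 1) + 6)) ^ 2 * (q * q ^ 5) ^ 8 *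
        (q * q ^ 5) ^ 2 * q ^ (12 * (k + 1) + 6)) := by
          gcongr
      _ = q ^ (84 * (k + 1) + 104) := by ring
      _ ≤ (2 ^ (k + 1)) ^ (84 * (k + 1) + 104) := by gcongr
      _ = 2 ^ ((k + 1) * (84 * (k + 1) + 104)) := by rw [← pow_mul]
      _ ≤ β ^ ((k + 1) * (84 * (k + 1) + 104)) := Nat.pow_le_pow_left hβ _
      _ ≤ β ^ e := Nat.pow_le_pow_right (by omega) hek

end

end Pool.Agent.H47.RB
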