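import Pool.Agent.H47.RB.Base

/-!
The rank of the coincidences.
-/

set_option autoImplicit false
set_option linter.unusedVariables false
set_option linter.unusedSectionVars false
set_option maxHeartbeats 4000000

namespace Pool.Agent.H47.RB

open Finset

section

lemma rku_coinc_finite {ι : Type*} [DecidableEq ι] (q : ℕ) (f : ι → ℕ × ℕ) {S : Set ι}
    (hS : S.Finite) : (coinc q f S).Finite := by
  have h : coinc q f S ⊆ (fun p : ι × ι × ℕ × ℕ =>
      (Pi.single (p.1, false) (1 : ℚ) + Pi.single (p.1, true) (p.2.2.1 : ℚ) -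
      Pi.single (p.2.1, false) (1 : ℚ) - Pi.single (p.2.1, true) (p.2.2.2 : ℚ) : ι × Bool → ℚ)) ''
      (S ×ˢ (S ×ˢ ((Set.Iio q) ×ˢ (Set.Iio q)))) := by
    rintro v ⟨A, hA, B, hB, i, j, hi, hj, -, rfl⟩
    exact ⟨(A, B, i, j), ⟨hA, hB, hi, hj⟩, rfl⟩
  exact ((hS.prod (hS.prod ((Set.finite_Iio q).prod (Set.finite_Iio q)))).image _).subset h

lemma rku_supp {ι : Type*} [DecidableEq ι] (q : ℕ) (f : ι → ℕ × ℕ) (S : Set ι)
    (z : ι × Bool → ℚ) (hz : z ∈ Submodule.span ℚ (coinc q f S)) :
    ∀ p : ι × Bool, p.1 ∉ S → z p = 0 := by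
  induction hz using Submodule.span_induction with
  | mem z hz =>
    obtain ⟨A, hA, B, hB, i, j, hi, hj, -, rfl⟩ := hz
    intro p hp
    have h1 : ∀ (b : Bool) (x : ℚ), (Pi.single (A, b) x : ι × Bool → ℚ) p = 0 := by
      intro b x
      apply Pi.single_eq_of_ne
      rintro rfl
      exact hp hA
    have h2 : ∀ (b : Bool) (x : ℚ), (Pi.single (B, b) x : ι × Bool → ℚ) p = 0 := by
      intro b x
      apply Pi.single_eq_of_ne
      rintro rfl
      exact hp hB
    simp only [Pi.sub_apply, Pi.add_apply, h1, h2]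
    norm_num
  | zero => intro p _; rfl
  | add u v _ _ hu hv =>
    intro p hp
    rw [Pi.add_apply, hu p hp, hv p hp, add_zero]
  | smul c u _ hu =>
    intro p hp
    rw [Pi.smul_apply, hu p hp, smul_zero]

/-- the functional -/
noncomputable def rkuPsi {ι : Type*} [DecidableEq ι] (f : ι → ℕ × ℕ) (S' : Finset ι) :
    (ι × Bool → ℚ) →ₗ[ℚ] ℚ × ℚ where
  toFun z := (∑ A ∈ S', z (A, false),
    ∑ A ∈ S', (((f A).1 : ℚ) * z (A, false) + ((f A).2 : ℚ) * z (A, true)))
  map_add' x y := by
    apply Prod.ext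
    · simp only [Pi.add_apply, Finset.sum_add_distrib, Prod.fst_add]
    · simp only [Pi.add_apply, Prod.snd_add, ← Finset.sum_add_distrib]
      refine Finset.sum_congr rfl fun A _ => ?_
      ring
  map_smul' c x := by
    apply Prod.ext
    · simp only [Pi.smul_apply, smul_eq_mul, Finset.mul_sum, Prod.smul_fst, RingHom.id_apply]
    · simp only [Pi.smul_apply, smul_eq_mul, Finset.mul_sum, Prod.smul_snd, RingHom.id_apply]
      refine Finset.sum_congr rfl fun A _ => ?_
      ring

lemma rkuPsi_apply {ι : Type*} [DecidableEq ι] (f : ι → ℕ × ℕ) (S' : Finset ι)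
    (z : ι × Bool → ℚ) : rkuPsi f S' z = (∑ A ∈ S', z (A, false),
    ∑ A ∈ S', (((f A).1 : ℚ) * z (A, false) + ((f A).2 : ℚ) * z (A, true))) := rfl

lemma rkuPsi_false {ι : Type*} [DecidableEq ι] (f : ι → ℕ × ℕ) (S' : Finset ι) (A : ι) (x : ℚ) :
    rkuPsi f S' (Pi.single (A, false) x) = if A ∈ S' then (x, ((f A).1 : ℚ) * x) else 0 := by
  have h1 : ∀ A', (Pi.single (A, false) x : ι × Bool → ℚ) (A', false) = if A = A' then x else 0 := by
    intro A'
    by_cases h : A = A'
    · subst h
      simp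
    · rw [if_neg h, Pi.single_eq_of_ne]
      intro h'
      exact h (Prod.ext_iff.1 h').1.symm
  have h2 : ∀ A', (Pi.single (A, false) x : ι × Bool → ℚ) (A', true) = 0 := by
    intro A'
    rw [Pi.single_eq_of_ne]
    intro h'
    exact absurd (Prod.ext_iff.1 h').2 (by simp)
  rw [rkuPsi_apply]
  simp only [h1, h2, mul_zero, add_zero, mul_ite, Finset.sum_ite_eq]
  split_ifs <;> rfl

lemma rkuPsi_true {ι : Type*} [DecidableEq ι] (f : ι → ℕ × ℕ) (S' : Finset ι) (A : ι) (x : ℚ) :
    rkuPsi f S' (Pi.single (A, true) x) = if A ∈ S' then (0, ((f A).2 : ℚ) * x) else 0 := by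
  have h1 : ∀ A', (Pi.single (A, true) x : ι × Bool → ℚ) (A', true) = if A = A' then x else 0 := by
    intro A'
    by_cases h : A = A'
    · subst h
      simp
    · rw [if_neg h, Pi.single_eq_of_ne]
      intro h'
      exact h (Prod.ext_iff.1 h').1.symm
  have h2 : ∀ A', (Pi.single (A, true) x : ι × Bool → ℚ) (A', false) = 0 := by
    intro A'
    rw [Pi.single_eq_of_ne]
    intro h'
    exact absurd (Prod.ext_iff.1 h').2 (by simp)
  rw [rkuPsi_apply]
  simp only [h1, h2, mul_zero, zero_add, mul_ite, Finset.sum_ite_eq, Finset.sum_const_zero]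
  split_ifs <;> rfl

/-- The ranks of disjoint index sets add up, and up to two different common values of the
progressions of `S` and `T` increase the rank. -/
lemma rk_union {ι : Type*} [DecidableEq ι] (q : ℕ) (f : ι → ℕ × ℕ) (S T : Set ι)
    (hS : S.Finite) (hT : T.Finite) (hd : Disjoint S T) (V : Finset ℕ)
    (hV : ∀ v ∈ V, (∃ A ∈ S, v ∈ ap q (f A)) ∧ (∃ B ∈ T, v ∈ ap q (f B))) :
    rk q f S + rk q f T + min 2 V.card ≤ rk q f (S ∪ T) := by
  classical
  set S' := hS.toFinset with hS'
  have hmS : ∀ A, A ∈ S' ↔ A ∈ S := fun A => hS.mem_toFinset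
  have hUfin : (S ∪ T).Finite := hS.union hT
  haveI fS : FiniteDimensional ℚ (Submodule.span ℚ (coinc q f S)) :=
    FiniteDimensional.span_of_finite ℚ (rku_coinc_finite q f hS)
  haveI fT : FiniteDimensional ℚ (Submodule.span ℚ (coinc q f T)) :=
    FiniteDimensional.span_of_finite ℚ (rku_coinc_finite q f hT)
  haveI fW : FiniteDimensional ℚ (Submodule.span ℚ (coinc q f (S ∪ T))) :=
    FiniteDimensional.span_of_finite ℚ (rku_coinc_finite q f hUfin)
  have hinf : Submodule.span ℚ (coinc q f S) ⊓ Submodule.span ℚ (coinc q f T) = ⊥ := by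
    rw [eq_bot_iff]
    rintro z ⟨h1, h2⟩
    rw [Submodule.mem_bot]
    ext p
    by_cases hp : p.1 ∈ S
    · exact rku_supp q f T z h2 p (fun h => Set.disjoint_left.1 hd hp h)
    · exact rku_supp q f S z h1 p hp
  have hsum : Module.finrank ℚ ↥(Submodule.span ℚ (coinc q f S) ⊔ Submodule.span ℚ (coinc q f T)) =
      rk q f S + rk q f T := by
    have h := Submodule.finrank_sup_add_finrank_inf_eq (Submodule.span ℚ (coinc q f S))
      (Submodule.span ℚ (coinc q f T))
    rw [hinf, finrank_bot, add_zero] at h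
    exact h
  have hmono : ∀ S₁ S₂ : Set ι, S₁ ⊆ S₂ → coinc q f S₁ ⊆ coinc q f S₂ := by
    rintro S₁ S₂ h v ⟨A, hA, B, hB, i, j, hi, hj, he, rfl⟩
    exact ⟨A, h hA, B, h hB, i, j, hi, hj, he, rfl⟩
  have hle : Submodule.span ℚ (coinc q f S) ⊔ Submodule.span ℚ (coinc q f T) ≤
      Submodule.span ℚ (coinc q f (S ∪ T)) :=
    sup_le (Submodule.span_mono (hmono _ _ Set.subset_union_left))
      (Submodule.span_mono (hmono _ _ Set.subset_union_right))
  have hker : Submodule.span ℚ (coinc q f S) ⊔ Submodule.span ℚ (coinc q f T) ≤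
      LinearMap.ker (rkuPsi f S') := by
    refine sup_le ?_ ?_
    · rw [Submodule.span_le]
      rintro v ⟨A, hA, B, hB, i, j, hi, hj, he, rfl⟩
      have he' : ((f A).1 : ℚ) + i * (f A).2 = (f B).1 + j * (f B).2 := by exact_mod_cast he
      rw [SetLike.mem_coe, LinearMap.mem_ker]
      simp only [map_sub, map_add, rkuPsi_false, rkuPsi_true, if_pos ((hmS A).2 hA),
        if_pos ((hmS B).2 hB)]
      apply Prod.ext
      · simp
      · simp only [Prod.snd_sub, Prod.snd_add, Prod.snd_zero]
        linear_combination he'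
    · rw [Submodule.span_le]
      rintro v ⟨A, hA, B, hB, i, j, hi, hj, he, rfl⟩
      have hA' : A ∉ S' := fun h => Set.disjoint_left.1 hd ((hmS A).1 h) hA
      have hB' : B ∉ S' := fun h => Set.disjoint_left.1 hd ((hmS B).1 h) hB
      rw [SetLike.mem_coe, LinearMap.mem_ker]
      simp only [map_sub, map_add, rkuPsi_false, rkuPsi_true, if_neg hA', if_neg hB']
      simp
  set W := Submodule.span ℚ (coinc q f (S ∪ T)) with hW
  have hrn := LinearMap.finrank_range_add_finrank_ker ((rkuPsi f S').domRestrict W)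
  have hk : Module.finrank ℚ ↥(Submodule.span ℚ (coinc q f S) ⊔ Submodule.span ℚ (coinc q f T)) ≤
      Module.finrank ℚ ↥(LinearMap.ker ((rkuPsi f S').domRestrict W)) := by
    rw [← (Submodule.comapSubtypeEquivOfLe hle).finrank_eq]
    apply Submodule.finrank_mono
    intro z hz
    rw [LinearMap.mem_ker]
    exact LinearMap.mem_ker.1 (hker hz)
  have hrange : ∀ v ∈ V, ((1 : ℚ), (v : ℚ)) ∈ LinearMap.range ((rkuPsi f S').domRestrict W) := by
    intro v hv
    obtain ⟨⟨A, hA, hvA⟩, ⟨B, hB, hvB⟩⟩ := hV v hv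
    obtain ⟨i, hi, hiv⟩ := Finset.mem_image.1 hvA
    obtain ⟨j, hj, hjv⟩ := Finset.mem_image.1 hvB
    rw [Finset.mem_range] at hi hj
    have hB' : B ∉ S' := fun h => Set.disjoint_left.1 hd ((hmS B).1 h) hB
    have hz : (Pi.single (A, false) (1 : ℚ) + Pi.single (A, true) (i : ℚ) -
      Pi.single (B, false) (1 : ℚ) - Pi.single (B, true) (j : ℚ) : ι × Bool → ℚ) ∈ W :=
      Submodule.subset_span ⟨A, Or.inl hA, B, Or.inr hB, i, j, hi, hj, by rw [hiv, hjv], rfl⟩
    refine ⟨⟨_, hz⟩, ?_⟩
    rw [LinearMap.domRestrict_apply]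
    simp only [map_sub, map_add, rkuPsi_false, rkuPsi_true, if_pos ((hmS A).2 hA), if_neg hB']
    apply Prod.ext
    · simp
    · simp only [Prod.snd_sub, Prod.snd_add, Prod.snd_zero]
      rw [← hiv]
      push_cast
      ring
  have hr : min 2 V.card ≤ Module.finrank ℚ ↥(LinearMap.range ((rkuPsi f S').domRestrict W)) := by
    rcases Nat.lt_or_ge V.card 2 with h2 | h2
    · rcases Nat.eq_zero_or_pos V.card with h0 | h0
      · rw [h0]
        exact Nat.zero_le _
      · obtain ⟨v, hv⟩ := Finset.card_pos.1 h0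
        have h1 : 1 ≤ Module.finrank ℚ ↥(LinearMap.range ((rkuPsi f S').domRestrict W)) := by
          rw [Submodule.one_le_finrank_iff]
          intro h3
          have h4 := hrange v hv
          rw [h3, Submodule.mem_bot] at h4
          have h5 := (Prod.ext_iff.1 h4).1
          simp at h5
        refine le_trans ?_ h1
        rw [min_le_iff]
        right
        omega
    · obtain ⟨v, hv, v', hv', hne⟩ := Finset.one_lt_card.1 h2
      have h1 := hrange v hv
      have h3 := hrange v' hv'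
      have hne' : (v : ℚ) - v' ≠ 0 := by
        rw [sub_ne_zero]
        exact_mod_cast hne
      have htop : LinearMap.range ((rkuPsi f S').domRestrict W) = ⊤ := by
        rw [eq_top_iff]
        rintro ⟨a, b⟩ -
        have h4 : ((a, b) : ℚ × ℚ) = ((b - a * v') / (v - v')) • ((1 : ℚ), (v : ℚ)) +
            (a - (b - a * v') / (v - v')) • ((1 : ℚ), (v' : ℚ)) := by
          apply Prod.ext
          · simp
          · simp only [Prod.snd_add, Prod.smul_snd, smul_eq_mul]
            field_simp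
            ring
        rw [h4]
        exact Submodule.add_mem _ (Submodule.smul_mem _ _ h1) (Submodule.smul_mem _ _ h3)
      rw [htop, finrank_top, Module.finrank_prod, Module.finrank_self]
      exact min_le_left _ _
  have hfin : rk q f (S ∪ T) = Module.finrank ℚ W := rfl
  rw [hfin, ← hrn, ← hsum]
  omega

end

section

lemma rk_range_le {ι : Type*} [DecidableEq ι] (q m : ℕ) (f : ι → ℕ × ℕ) (g : Fin m → ι) :
    rk q f (Set.range g) ≤ rk q (fun k => f (g k)) Set.univ := by
  classical
  let e : (Fin m × Bool → ℚ) →ₗ[ℚ] (ι × Bool → ℚ) :=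
    Fintype.linearCombination ℚ (fun p : Fin m × Bool => (Pi.single (g p.1, p.2) (1 : ℚ) : ι × Bool → ℚ))
  have he : ∀ (k : Fin m) (b : Bool) (x : ℚ), e (Pi.single (k, b) x) = Pi.single (g k, b) x := by
    intro k b x
    show Fintype.linearCombination ℚ _ _ = _
    rw [Fintype.linearCombination_apply_single, ← Pi.single_smul]
    simp
  have hsub : Submodule.span ℚ (coinc q f (Set.range g)) ≤
      (Submodule.span ℚ (coinc q (fun k => f (g k)) Set.univ)).map e := by
    rw [Submodule.span_le]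
    rintro v ⟨A, ⟨k, rfl⟩, B, ⟨l, rfl⟩, i, j, hi, hj, h, rfl⟩
    refine ⟨Pi.single (k, false) (1 : ℚ) + Pi.single (k, true) (i : ℚ) -
      Pi.single (l, false) (1 : ℚ) - Pi.single (l, true) (j : ℚ), Submodule.subset_span
      ⟨k, Set.mem_univ _, l, Set.mem_univ _, i, j, hi, hj, h, rfl⟩, ?_⟩
    rw [map_sub, map_sub, map_add, he, he, he, he]
  unfold rk
  exact (Submodule.finrank_mono hsub).trans (Submodule.finrank_map_le e _)

end

end Pool.Agent.H47.RB
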