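import Pool.Agent.H47.RB.Lat
import Pool.Agent.H47.RB.Rank

/-!
The inequality between size and rank.
-/

set_option autoImplicit false
set_option linter.unusedVariables false
set_option linter.unusedSectionVars false
set_option maxHeartbeats 4000000

namespace Pool.Agent.H47.RB

open Finset

section

lemma inv_leaf {β N q s : ℕ} {Λ : ℝ} (hβ : 2 ≤ β) (hN : 1 ≤ N) {A : Idx} (hA : A ∈ fam N q)
    {b : Finset (ℕ × ℕ)} (hb : b ⊆ lat q A) (hs : b.card ≤ s) :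
    Inv β N q s Λ [A] (lat q A \ b) := by
  unfold Inv
  rw [List.length_singleton, pow_one, Nat.sub_self, pow_zero, mul_one]
  have hc : (lat q A \ b).card = q ^ 2 - b.card := by
    rw [Finset.card_sdiff_of_subset hb, card_lat hA]
  have h1 : (β : ℝ) ^ (q ^ 2 - s) ≤ (β : ℝ) ^ (lat q A \ b).card := by
    refine pow_le_pow_right₀ (by exact_mod_cast (by omega : 1 ≤ β)) ?_
    rw [hc]
    omega
  have hN' : (1 : ℝ) ≤ N := by exact_mod_cast hN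
  have h2 : (1 : ℝ) ≤ (N : ℝ) ^ rk2 q [A] := one_le_pow₀ hN'
  calc (β : ℝ) ^ (q ^ 2 - s) ≤ (β : ℝ) ^ (lat q A \ b).card := h1
    _ = (β : ℝ) ^ (lat q A \ b).card * 1 := (mul_one _).symm
    _ ≤ (β : ℝ) ^ (lat q A \ b).card * (N : ℝ) ^ rk2 q [A] :=
        mul_le_mul_of_nonneg_left h2 (by positivity)

lemma inv_step {β N q s : ℕ} {Λ : ℝ} (hβ : 2 ≤ β) (hN : 1 ≤ N) (hΛ : 0 < Λ) {L1 L2 : List Idx} (n1 : L1 ≠ [])
    (n2 : L2 ≠ []) {C1 C2 C : Finset (ℕ × ℕ)} (h1 : Inv β N q s Λ L1 C1) (h2 : Inv β N q s Λ L2 C2)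
    (k r : ℕ) (hC : C1.card + C2.card ≤ C.card + k)
    (hr : rk2 q L1 + rk2 q L2 + r ≤ rk2 q (L1 ++ L2)) (hk : Λ * (β : ℝ) ^ k ≤ (N : ℝ) ^ r) :
    Inv β N q s Λ (L1 ++ L2) C := by
  unfold Inv at h1 h2 ⊢
  obtain ⟨l1, hl1⟩ : ∃ l, L1.length = l + 1 :=
    ⟨L1.length - 1, by have := List.length_pos_of_ne_nil n1; omega⟩
  obtain ⟨l2, hl2⟩ : ∃ l, L2.length = l + 1 :=
    ⟨L2.length - 1, by have := List.length_pos_of_ne_nil n2; omega⟩
  rw [hl1, Nat.add_sub_cancel] at h1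
  rw [hl2, Nat.add_sub_cancel] at h2
  have hlen : (L1 ++ L2).length = l1 + l2 + 1 + 1 := by
    rw [List.length_append, hl1, hl2]
    omega
  rw [hlen, Nat.add_sub_cancel]
  have hN' : (1 : ℝ) ≤ N := by exact_mod_cast hN
  have hβ1 : (1 : ℝ) ≤ β := by exact_mod_cast (by omega : 1 ≤ β)
  have hβ0 : (0 : ℝ) < β := by linarith
  set x : ℝ := (β : ℝ) ^ (q ^ 2 - s) with hx
  have hx0 : 0 < x := by positivity
  have e1 : x ^ (l1 + l2 + 1 + 1) * Λ ^ (l1 + l2 + 1) =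
      (x ^ (l1 + 1) * Λ ^ l1) * (x ^ (l2 + 1) * Λ ^ l2) * Λ := by ring
  rw [e1]
  have k1 : (x ^ (l1 + 1) * Λ ^ l1) * (x ^ (l2 + 1) * Λ ^ l2) ≤
      ((β : ℝ) ^ C1.card * (N : ℝ) ^ rk2 q L1) * ((β : ℝ) ^ C2.card * (N : ℝ) ^ rk2 q L2) :=
    mul_le_mul h1 h2 (by positivity) (by positivity)
  have k2 := mul_le_mul_of_nonneg_right k1 hΛ.le
  have k3 : (β : ℝ) ^ (C1.card + C2.card) ≤ (β : ℝ) ^ (C.card + k) :=
    pow_le_pow_right₀ hβ1 hC
  calc (x ^ (l1 + 1) * Λ ^ l1) * (x ^ (l2 + 1) * Λ ^ l2) * Λ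
      ≤ ((β : ℝ) ^ C1.card * (N : ℝ) ^ rk2 q L1) *
        ((β : ℝ) ^ C2.card * (N : ℝ) ^ rk2 q L2) * Λ := k2
    _ = (β : ℝ) ^ (C1.card + C2.card) * ((N : ℝ) ^ (rk2 q L1 + rk2 q L2) * Λ) := by ring
    _ ≤ (β : ℝ) ^ (C.card + k) * ((N : ℝ) ^ (rk2 q L1 + rk2 q L2) * Λ) :=
        mul_le_mul_of_nonneg_right k3 (by positivity)
    _ = (β : ℝ) ^ C.card * (N : ℝ) ^ (rk2 q L1 + rk2 q L2) * (Λ * (β : ℝ) ^ k) := by ring
    _ ≤ (β : ℝ) ^ C.card * (N : ℝ) ^ (rk2 q L1 + rk2 q L2) * (N : ℝ) ^ r :=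
        mul_le_mul_of_nonneg_left hk (by positivity)
    _ = (β : ℝ) ^ C.card * (N : ℝ) ^ (rk2 q L1 + rk2 q L2 + r) := by ring
    _ ≤ (β : ℝ) ^ C.card * (N : ℝ) ^ rk2 q (L1 ++ L2) :=
        mul_le_mul_of_nonneg_left (pow_le_pow_right₀ hN' hr) (by positivity)

lemma edge {β N q s m0 : ℕ} {Λ : ℝ} (hp : Par β N q s Λ m0) {a b : ℕ} (ha : 1 ≤ a) (ha' : a ≤ q)
    (hb : 1 ≤ b) (hb' : b ≤ q) (hab : ¬ (a = q ∧ b = q)) :
    Λ * (β : ℝ) ^ (a * b) ≤ (N : ℝ) ^ (min 2 a + min 2 b) := by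
  have hΛ := hp.hL
  have hβ := hp.hβ
  have hβ1 : (1 : ℝ) ≤ β := by exact_mod_cast (by omega : 1 ≤ β)
  have mono : ∀ {m n : ℕ}, m ≤ n → Λ * (β : ℝ) ^ m ≤ Λ * (β : ℝ) ^ n := fun h =>
    mul_le_mul_of_nonneg_left (pow_le_pow_right₀ hβ1 h) hΛ.le
  by_cases h1 : a = 1
  · by_cases h2 : b = 1
    · rw [h1, h2]
      simpa using hp.hL1
    · have e : min 2 a + min 2 b = 3 := by omega
      rw [e, h1, one_mul]
      exact (mono hb').trans hp.hL2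
  · by_cases h2 : b = 1
    · have e : min 2 a + min 2 b = 3 := by omega
      rw [e, h2, mul_one]
      exact (mono ha').trans hp.hL2
    · have e : min 2 a + min 2 b = 4 := by omega
      rw [e]
      refine (mono ?_).trans hp.hL3
      have hqq : q ^ 2 - q = (q - 1) * q := by
        rw [Nat.sub_mul, one_mul, sq]
      rw [hqq]
      by_cases h3 : a = q
      · have hb3 : b ≤ q - 1 := by
          have : b ≠ q := fun h => hab ⟨h3, h⟩
          omega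
        calc a * b ≤ q * (q - 1) := Nat.mul_le_mul ha' hb3
          _ = (q - 1) * q := Nat.mul_comm _ _
      · have ha3 : a ≤ q - 1 := by omega
        exact Nat.mul_le_mul ha3 hb'

end

section

lemma rk2_append (q : ℕ) (L1 L2 : List Idx) (hd : ∀ A ∈ L1, A ∉ L2) (V1 V2 : Finset ℕ)
    (h1 : ∀ v ∈ V1, (∃ A ∈ L1, v ∈ ap q A.1) ∧ (∃ B ∈ L2, v ∈ ap q B.1))
    (h2 : ∀ v ∈ V2, (∃ A ∈ L1, v ∈ ap q A.2) ∧ (∃ B ∈ L2, v ∈ ap q B.2)) :
    rk2 q L1 + rk2 q L2 + (min 2 V1.card + min 2 V2.card) ≤ rk2 q (L1 ++ L2) := by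
  have hU : {A | A ∈ L1 ++ L2} = {A | A ∈ L1} ∪ {A | A ∈ L2} := by
    ext A
    simp
  have hdis : Disjoint {A | A ∈ L1} {A | A ∈ L2} := by
    rw [Set.disjoint_left]
    intro A hA hB
    exact hd A hA hB
  have f1 : ({A | A ∈ L1} : Set Idx).Finite := List.finite_toSet L1
  have f2 : ({A | A ∈ L2} : Set Idx).Finite := List.finite_toSet L2
  have e1 := rk_union q Prod.fst {A | A ∈ L1} {A | A ∈ L2} f1 f2 hdis V1 h1
  have e2 := rk_union q Prod.snd {A | A ∈ L1} {A | A ∈ L2} f1 f2 hdis V2 h2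
  have e3 : ∀ L : List Idx, rk2 q L = rk q Prod.fst {A | A ∈ L} + rk q Prod.snd {A | A ∈ L} :=
    fun L => rfl
  rw [e3, e3, e3, hU]
  have := Nat.add_le_add e1 e2
  refine le_trans (le_of_eq ?_) this
  set x1 := rk q Prod.fst {A | A ∈ L1}
  set x2 := rk q Prod.fst {A | A ∈ L2}
  set x3 := rk q Prod.snd {A | A ∈ L1}
  set x4 := rk q Prod.snd {A | A ∈ L2}
  show _ = _
  omega

/-- a lattice is joined with a component -/
lemma inv_att {β N q s m0 : ℕ} {Λ : ℝ} (hp : Par β N q s Λ m0) {A : Idx} (hA : A ∈ fam N q)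
    {L1 L2 : List Idx} (hA1 : A ∈ L1) (n2 : L2 ≠ []) (hd : ∀ A' ∈ L1, A' ∉ L2)
    {rp rest C2 : Finset (ℕ × ℕ)} (h1 : Inv β N q s Λ L1 (rp ∪ rest)) (h2 : Inv β N q s Λ L2 C2)
    (hrp : rp ⊆ lat q A) (hrr : Disjoint rp rest) (hr2 : Disjoint rest C2)
    (hC2 : C2 ⊆ hull q L2) (hne : (lat q A ∩ hull q L2).Nonempty)
    (hess : ¬ lat q A ⊆ hull q L2) :
    Inv β N q s Λ (L1 ++ L2) ((rp \ hull q L2) ∪ (rest ∪ C2)) := by
  classical
  set P := ap q A.1 ∩ vals q Prod.fst L2 with hP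
  set Q := ap q A.2 ∩ vals q Prod.snd L2 with hQ
  have hLI : lat q A ∩ hull q L2 = P ×ˢ Q := lat_inter_hull q A L2
  have hPQ : (P ×ˢ Q).Nonempty := hLI ▸ hne
  have hPn : P.Nonempty := (Finset.nonempty_product.1 hPQ).1
  have hQn : Q.Nonempty := (Finset.nonempty_product.1 hPQ).2
  have hPc : P.card ≤ q := le_trans (Finset.card_le_card Finset.inter_subset_left) (card_ap_le q A.1)
  have hQc : Q.card ≤ q := le_trans (Finset.card_le_card Finset.inter_subset_left) (card_ap_le q A.2)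
  have hnot : ¬ (P.card = q ∧ Q.card = q) := by
    rintro ⟨hp1, hq1⟩
    apply hess
    obtain ⟨s1, s2⟩ := fam_step hA
    have c1 : (ap q A.1).card = q := card_ap s1
    have c2 : (ap q A.2).card = q := card_ap s2
    have e1 : P = ap q A.1 :=
      Finset.eq_of_subset_of_card_le Finset.inter_subset_left (by rw [c1, hp1])
    have e2 : Q = ap q A.2 :=
      Finset.eq_of_subset_of_card_le Finset.inter_subset_left (by rw [c2, hq1])
    have : lat q A ∩ hull q L2 = lat q A := by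
      rw [hLI, e1, e2]; rfl
    exact Finset.inter_eq_left.1 this
  have hPm : ∀ v ∈ P, (∃ A ∈ L1, v ∈ ap q A.1) ∧ (∃ B ∈ L2, v ∈ ap q B.1) := by
    intro v hv
    rw [hP, Finset.mem_inter] at hv
    refine ⟨⟨A, hA1, hv.1⟩, ?_⟩
    have := hv.2
    unfold vals at this
    rw [Finset.mem_biUnion] at this
    obtain ⟨B, hB, hvB⟩ := this
    exact ⟨B, List.mem_toFinset.1 hB, hvB⟩
  have hQm : ∀ v ∈ Q, (∃ A ∈ L1, v ∈ ap q A.2) ∧ (∃ B ∈ L2, v ∈ ap q B.2) := by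
    intro v hv
    rw [hQ, Finset.mem_inter] at hv
    refine ⟨⟨A, hA1, hv.1⟩, ?_⟩
    have := hv.2
    unfold vals at this
    rw [Finset.mem_biUnion] at this
    obtain ⟨B, hB, hvB⟩ := this
    exact ⟨B, List.mem_toFinset.1 hB, hvB⟩
  have hr := rk2_append q L1 L2 hd P Q hPm hQm
  have hk := edge hp (Finset.card_pos.2 hPn) hPc (Finset.card_pos.2 hQn) hQc hnot
  refine inv_step hp.hβ hp.hN hp.hL (List.ne_nil_of_mem hA1) n2 h1 h2 (P.card * Q.card)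
    (min 2 P.card + min 2 Q.card) ?_ hr hk
  -- cardinalities
  have d1 : Disjoint (rp \ hull q L2) (rest ∪ C2) := by
    rw [Finset.disjoint_union_right]
    refine ⟨?_, ?_⟩
    · exact Finset.disjoint_of_subset_left Finset.sdiff_subset hrr
    · rw [Finset.disjoint_left]
      intro x hx hx2
      exact (Finset.mem_sdiff.1 hx).2 (hC2 hx2)
  rw [Finset.card_union_of_disjoint d1, Finset.card_union_of_disjoint hr2,
    Finset.card_union_of_disjoint hrr]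
  have e3 : rp.card = (rp \ hull q L2).card + (rp ∩ hull q L2).card := by
    rw [Finset.card_sdiff_add_card_inter]
  have e4 : (rp ∩ hull q L2).card ≤ P.card * Q.card := by
    rw [← Finset.card_product, ← hLI]
    exact Finset.card_le_card (Finset.inter_subset_inter_right hrp)
  omega

/-- two components are joined -/
lemma inv_mrg {β N q s m0 : ℕ} {Λ : ℝ} (hp : Par β N q s Λ m0) {L1 L2 : List Idx} (n1 : L1 ≠ [])
    (n2 : L2 ≠ []) (hd : ∀ A' ∈ L1, A' ∉ L2) {C1 C2 : Finset (ℕ × ℕ)}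
    (h1 : Inv β N q s Λ L1 C1) (h2 : Inv β N q s Λ L2 C2) (hC : Disjoint C1 C2)
    (hne : (hull q L1 ∩ hull q L2).Nonempty) :
    Inv β N q s Λ (L1 ++ L2) (C1 ∪ C2) := by
  classical
  obtain ⟨⟨v, w⟩, hvw⟩ := hne
  rw [Finset.mem_inter] at hvw
  obtain ⟨g1, g2⟩ := hvw
  unfold hull at g1 g2
  rw [Finset.mem_product] at g1 g2
  have hex : ∀ (f : Idx → ℕ × ℕ) (L : List Idx) (u : ℕ), u ∈ vals q f L →
      ∃ A ∈ L, u ∈ ap q (f A) := by
    intro f L u hu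
    unfold vals at hu
    rw [Finset.mem_biUnion] at hu
    obtain ⟨B, hB, hvB⟩ := hu
    exact ⟨B, List.mem_toFinset.1 hB, hvB⟩
  have hV1 : ∀ u ∈ ({v} : Finset ℕ), (∃ A ∈ L1, u ∈ ap q A.1) ∧ (∃ B ∈ L2, u ∈ ap q B.1) := by
    intro u hu
    rw [Finset.mem_singleton] at hu
    subst hu
    exact ⟨hex Prod.fst L1 _ g1.1, hex Prod.fst L2 _ g2.1⟩
  have hV2 : ∀ u ∈ ({w} : Finset ℕ), (∃ A ∈ L1, u ∈ ap q A.2) ∧ (∃ B ∈ L2, u ∈ ap q B.2) := by
    intro u hu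
    rw [Finset.mem_singleton] at hu
    subst hu
    exact ⟨hex Prod.snd L1 _ g1.2, hex Prod.snd L2 _ g2.2⟩
  have hr := rk2_append q L1 L2 hd {v} {w} hV1 hV2
  refine inv_step hp.hβ hp.hN hp.hL n1 n2 h1 h2 0 2 ?_ (by simpa using hr) ?_
  · rw [Finset.card_union_of_disjoint hC]; omega
  · have := hp.hL1
    have hl := hp.hL
    have hβ := hp.hβ
    have hβ1 : (1 : ℝ) ≤ β := by exact_mod_cast (by omega : 1 ≤ β)
    simp only [pow_zero, mul_one]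
    nlinarith

end

end Pool.Agent.H47.RB
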