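import Pool.Agent.H47.RB.Tree
import Pool.Agent.H47.RB.Greedy

/-!
Processing emergency sets.
-/

set_option autoImplicit false
set_option linter.unusedVariables false
set_option linter.unusedSectionVars false
set_option maxHeartbeats 4000000

namespace Pool.Agent.H47.RB

open Finset

section

section
variable {κ β : Type*} [DecidableEq β]

end

/-- number of linked clusters -/
lemma nc_cardQ {β N q s m0 : ℕ} {Λ : ℝ} {M B R : Finset (ℕ × ℕ)}
    {K : Finset Clu} (h : Sys β N q s Λ m0 M B R K) (A : Idx) (hA : A ∈ fam N q)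
    (Q : Finset Clu) (hQK : Q ⊆ K)
    (hlink : ∀ c ∈ Q, ∃ A' ∈ c.S, ¬ Disjoint (lat q A') (lat q A)) :
    Q.card ≤ q ^ 2 := by
  classical
  have hex : ∀ c : Clu, ∃ z : ℕ × ℕ, c ∈ Q → z ∈ lat q A ∧ ∃ A' ∈ c.S, z ∈ lat q A' := by
    intro c
    by_cases hc : c ∈ Q
    · obtain ⟨A', hA', hd⟩ := hlink c hc
      rw [Finset.not_disjoint_iff] at hd
      obtain ⟨z, hz1, hz2⟩ := hd
      exact ⟨z, fun _ => ⟨hz2, A', hA', hz1⟩⟩
    · exact ⟨(0, 0), fun h => absurd h hc⟩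
  choose p hp using hex
  rw [← card_lat hA]
  refine Finset.card_le_card_of_injOn p (fun c hc => (hp c hc).1) ?_
  intro c hc c' hc' hpp
  by_contra hne
  obtain ⟨-, A1, hA1, hz1⟩ := hp c hc
  obtain ⟨-, A2, hA2, hz2⟩ := hp c' hc'
  have hd := h.disj c (hQK hc) c' (hQK hc') hne A1 hA1 A2 hA2
  rw [Finset.disjoint_left] at hd
  apply hd hz1
  rw [hpp]
  exact hz2

/-- common part of the two cases -/
lemma nc_finish {β N q s m0 : ℕ} {Λ : ℝ} (hp : Par β N q s Λ m0) {M B R : Finset (ℕ × ℕ)}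
    {K : Finset Clu} (h : Sys β N q s Λ m0 M B R K) (A : Idx) (hA : A ∈ fam N q)
    (hAn : ∀ c ∈ K, A ∉ c.S) (h2 : (lat q A \ (M ∪ R)).card ≤ s)
    (h3 : s ≤ (lat q A \ (M ∪ B)).card)
    (hno : ∀ (L : List Idx) (C : Finset (ℕ × ℕ)), m0 ≤ L.length → L.length ≤ q ^ 2 * m0 →
      IsBig β N q s Λ L C → ¬ C ⊆ M \ R)
    (Q : Finset Clu) (hQK : Q ⊆ K)
    (hlink : ∀ c ∈ Q, ∃ A' ∈ c.S, ¬ Disjoint (lat q A') (lat q A))
    (L : List Idx) (rp rest : Finset (ℕ × ℕ)) (hcert : Cert q s L rp rest) (hnd : L.Nodup)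
    (hLS : ∀ A' ∈ L, A' = A ∨ ∃ c ∈ Q, A' ∈ c.L) (hAh : lat q A ⊆ hull q L)
    (hcL : ∀ c ∈ Q, ∀ A' ∈ c.L, A' ∈ L)
    (hcM : rp ∪ rest ⊆ M \ (R ∪ (lat q A \ (M ∪ R))))
    (hInv : Inv β N q s Λ L (rp ∪ rest)) (hlen : L.length ≤ 1 + ∑ c ∈ Q, c.L.length) :
    ∃ n : Clu, CluOK β N q s Λ m0 M B (R ∪ (lat q A \ (M ∪ R))) n ∧
      ∀ A' : Idx, A' ∈ n.S ↔ (A' = A ∨ ∃ c ∈ Q, A' ∈ c.S) := by
  classical
  have hmem : ∀ A' : Idx, A' ∈ insert A (Q.biUnion (fun c => c.S)) ↔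
      (A' = A ∨ ∃ c ∈ Q, A' ∈ c.S) := by
    intro A'
    simp only [Finset.mem_insert, Finset.mem_biUnion]
  have hcMR : rp ∪ rest ⊆ M \ R := by
    intro z hz
    have := hcM hz
    rw [Finset.mem_sdiff] at this ⊢
    exact ⟨this.1, fun hR => this.2 (Finset.mem_union_left _ hR)⟩
  have hfam : ∀ A' ∈ insert A (Q.biUnion (fun c => c.S)), A' ∈ fam N q := by
    intro A' hA'
    rcases (hmem A').1 hA' with rfl | ⟨c, hc, hcA⟩
    · exact hA
    · exact (h.ok c (hQK hc)).sfam A' hcA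
  have hls : ∀ A' ∈ L, A' ∈ insert A (Q.biUnion (fun c => c.S)) := by
    intro A' hA'
    rw [hmem]
    rcases hLS A' hA' with rfl | ⟨c, hc, hcA⟩
    · exact Or.inl rfl
    · exact Or.inr ⟨c, hc, (h.ok c (hQK hc)).ls A' hcA⟩
  have hq0 : 0 < q ^ 2 := by
    have := hp.hq
    positivity
  -- cardinality of S'
  have hAnot : A ∉ Q.biUnion (fun c => c.S) := by
    rw [Finset.mem_biUnion]
    rintro ⟨c, hc, hcA⟩
    exact hAn c (hQK hc) hcA
  have hcard : (insert A (Q.biUnion (fun c => c.S))).card = 1 + ∑ c ∈ Q, c.S.card := by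
    rw [Finset.card_insert_of_notMem hAnot, Finset.card_biUnion, add_comm]
    intro c hc c' hc' hne
    show Disjoint c.S c'.S
    rw [Finset.disjoint_left]
    intro A' h1 h1'
    have hd := h.disj c (hQK hc) c' (hQK hc') hne A' h1 A' h1'
    rw [Finset.disjoint_self_iff_empty] at hd
    have hcl := card_lat ((h.ok c (hQK hc)).sfam A' h1)
    rw [hd, Finset.card_empty] at hcl
    omega
  have hcardR : ((insert A (Q.biUnion (fun c => c.S))).card : ℝ) = 1 + ∑ c ∈ Q, (c.S.card : ℝ) := by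
    rw [hcard]
    push_cast
    rfl
  have hins : insert A (Q.biUnion (fun c => c.S)) = {A} ∪ Q.biUnion (fun c => c.S) :=
    Finset.insert_eq _ _
  have hhalf : (0 : ℝ) ≤ (1 / 2) ^ s := by positivity
  have hpot : ∀ M' : Finset (ℕ × ℕ), Pot 2 {A} (lat q) M' B ≤ 2 * (1 / 2 : ℝ) ^ s →
      (∀ c ∈ Q, Pot 2 c.S (lat q) M' B ≤ 2 * (c.S.card : ℝ) * (1 / 2) ^ s) →
      Pot 2 (insert A (Q.biUnion (fun c => c.S))) (lat q) M' B ≤
        2 * ((insert A (Q.biUnion (fun c => c.S))).card : ℝ) * (1 / 2) ^ s := by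
    intro M' h1 h4
    rw [hcardR, hins]
    have h5 := Pot_union_le (b := (2 : ℝ)) (by norm_num) {A} (Q.biUnion (fun c => c.S)) (lat q) M' B
    have h6 := Pot_biUnion_le (b := (2 : ℝ)) (by norm_num) Q (fun c => c.S) (lat q) M' B
    have h7 : ∑ c ∈ Q, Pot 2 c.S (lat q) M' B ≤ ∑ c ∈ Q, 2 * (c.S.card : ℝ) * (1 / 2) ^ s :=
      Finset.sum_le_sum h4
    have h8 : ∑ c ∈ Q, 2 * (c.S.card : ℝ) * (1 / 2) ^ s =
        2 * (∑ c ∈ Q, (c.S.card : ℝ)) * (1 / 2) ^ s := by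
      rw [Finset.mul_sum, Finset.sum_mul]
    have h9 : 2 * (1 + ∑ c ∈ Q, (c.S.card : ℝ)) * (1 / 2 : ℝ) ^ s =
        2 * (1 / 2 : ℝ) ^ s + 2 * (∑ c ∈ Q, (c.S.card : ℝ)) * (1 / 2) ^ s := by ring
    rw [h9]
    linarith
  refine ⟨⟨insert A (Q.biUnion (fun c => c.S)), L, rp, rest⟩, ?_, hmem⟩
  constructor
  · exact hfam
  · intro A' hA' z hz
    simp only [Finset.mem_union, Finset.mem_sdiff]
    rcases (hmem A').1 hA' with rfl | ⟨c, hc, hcA⟩
    · by_cases hM : z ∈ M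
      · exact Or.inl hM
      · by_cases hR : z ∈ R
        · exact Or.inr (Or.inl hR)
        · exact Or.inr (Or.inr ⟨hz, by tauto⟩)
    · have := (h.ok c (hQK hc)).smr A' hcA hz
      rw [Finset.mem_union] at this
      tauto
  · intro A' hA'
    rcases (hmem A').1 hA' with rfl | ⟨c, hc, hcA⟩
    · exact hAh
    · exact ((h.ok c (hQK hc)).shull A' hcA).trans (hull_mono (hcL c hc))
  · exact hls
  · exact hnd
  · exact hcert
  · exact hcM
  · exact hInv
  · -- length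
    by_contra hcon
    have hm : m0 ≤ L.length := not_lt.1 hcon
    have hQc := nc_cardQ h A hA Q hQK hlink
    have hsum : ∑ c ∈ Q, c.L.length ≤ q ^ 2 * (m0 - 1) := by
      have h1 : ∑ c ∈ Q, c.L.length ≤ ∑ c ∈ Q, (m0 - 1) := by
        refine Finset.sum_le_sum fun c hc => ?_
        have := (h.ok c (hQK hc)).len
        omega
      refine h1.trans ?_
      rw [Finset.sum_const, smul_eq_mul]
      exact Nat.mul_le_mul_right _ hQc
    have hm0 := hp.hm0
    have hle : L.length ≤ q ^ 2 * m0 := by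
      obtain ⟨k, rfl⟩ : ∃ k, m0 = k + 1 := ⟨m0 - 1, by omega⟩
      have e1 : k + 1 - 1 = k := by omega
      rw [e1] at hsum
      have e2 : q ^ 2 * (k + 1) = q ^ 2 * k + q ^ 2 := by ring
      rw [e2]
      omega
    exact hno L (rp ∪ rest) hm hle ⟨hnd, fun A' hA' => hfam A' (hls A' hA'), hInv, rp, rest,
      hcert, rfl⟩ hcMR
  · -- pot0
    refine hpot M ?_ (fun c hc => (h.ok c (hQK hc)).pot0)
    have := Pot_single A (lat q) M B s h3
    linarith
  · intro z hz hzM hzB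
    refine hpot (insert z M) ?_ (fun c hc => (h.ok c (hQK hc)).pot z hz hzM hzB)
    exact Pot_single_insert A (lat q) M B s h3 z

/-- the cluster arising from a new lattice `A` and the linked clusters `Q` -/
lemma new_cluster {β N q s m0 : ℕ} {Λ : ℝ} (hp : Par β N q s Λ m0) {M B R : Finset (ℕ × ℕ)}
    {K : Finset Clu} (h : Sys β N q s Λ m0 M B R K) (A : Idx) (hA : A ∈ fam N q)
    (hAn : ∀ c ∈ K, A ∉ c.S) (h2 : (lat q A \ (M ∪ R)).card ≤ s)
    (h3 : s ≤ (lat q A \ (M ∪ B)).card)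
    (hno : ∀ (L : List Idx) (C : Finset (ℕ × ℕ)), m0 ≤ L.length → L.length ≤ q ^ 2 * m0 →
      IsBig β N q s Λ L C → ¬ C ⊆ M \ R)
    (Q : Finset Clu) (hQ : ∀ c : Clu, c ∈ Q ↔
      c ∈ K ∧ ∃ A' ∈ c.S, ¬ Disjoint (lat q A') (lat q A)) :
    ∃ n : Clu, CluOK β N q s Λ m0 M B (R ∪ (lat q A \ (M ∪ R))) n ∧
      ∀ A' : Idx, A' ∈ n.S ↔ (A' = A ∨ ∃ c ∈ Q, A' ∈ c.S) := by
  classical
  have hQK : Q ⊆ K := fun c hc => ((hQ c).1 hc).1
  have hlink : ∀ c ∈ Q, ∃ A' ∈ c.S, ¬ Disjoint (lat q A') (lat q A) := fun c hc =>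
    ((hQ c).1 hc).2
  have hold : ∀ c ∈ Q, ∀ z ∈ c.rp ∪ c.rest, z ∈ M \ (R ∪ (lat q A \ (M ∪ R))) := by
    intro c hc z hz
    have h4 := (h.ok c (hQK hc)).certM hz
    simp only [Finset.mem_sdiff, Finset.mem_union] at h4 ⊢
    tauto
  by_cases hcase : ∀ c ∈ Q, ¬ lat q A ⊆ hull q c.L
  · obtain ⟨L, rp, rest, hcert, hnd, hAL, hLS, hcL, hrp, hrpd, hrest, hInv, hlen⟩ :=
      tree_ess hp h A hA hAn (lat q A \ (M ∪ R)) Finset.sdiff_subset h2 Q hQK hlink hcase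
    refine nc_finish hp h A hA hAn h2 h3 hno Q hQK hlink L rp rest hcert hnd hLS
      (lat_subset_hull hAL) hcL ?_ hInv hlen
    intro z hz
    rw [Finset.mem_union] at hz
    rcases hz with hz | hz
    · have h4 := hrp hz
      have hzA : z ∈ lat q A := (Finset.mem_sdiff.1 h4).1
      have hzR : z ∉ R := by
        intro hR
        obtain ⟨c, hc, A', hA', hzA'⟩ := h.cover z hR
        have hcQ : c ∈ Q := by
          rw [hQ]
          refine ⟨hc, A', hA', ?_⟩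
          rw [Finset.not_disjoint_iff]
          exact ⟨z, hzA', hzA⟩
        have hzh : z ∈ hull q c.L := (h.ok c hc).shull A' hA' hzA'
        exact (Finset.disjoint_left.1 (hrpd c hcQ)) hz hzh
      simp only [Finset.mem_sdiff, Finset.mem_union] at h4 ⊢
      tauto
    · obtain ⟨c, hc, hzc⟩ := hrest z hz
      exact hold c hc z hzc
  · simp only [not_forall, not_not] at hcase
    obtain ⟨c1, hc1, h1⟩ := hcase
    obtain ⟨L, rp, rest, hcert, hnd, hLS, hc1L, hcL, hrr, hInv, hlen⟩ :=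
      tree_non hp h A hA c1 (hQK hc1) h1 (Q.erase c1) ((Finset.erase_subset _ _).trans hQK)
        (Finset.notMem_erase _ _) (fun c hc => hlink c (Finset.mem_of_mem_erase hc))
    have hcL' : ∀ c ∈ Q, ∀ A' ∈ c.L, A' ∈ L := by
      intro c hc
      by_cases hcc : c = c1
      · subst hcc
        exact hc1L
      · exact hcL c (Finset.mem_erase.2 ⟨hcc, hc⟩)
    refine nc_finish hp h A hA hAn h2 h3 hno Q hQK hlink L rp rest hcert hnd ?_
      (h1.trans (hull_mono hc1L)) hcL' ?_ hInv ?_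
    · intro A' hA'
      rcases hLS A' hA' with h4 | ⟨c, hc, h4⟩
      · exact Or.inr ⟨c1, hc1, h4⟩
      · exact Or.inr ⟨c, Finset.mem_of_mem_erase hc, h4⟩
    · intro z hz
      rcases hrr z hz with h4 | ⟨c, hc, h4⟩
      · exact hold c1 hc1 z h4
      · exact hold c (Finset.mem_of_mem_erase hc) z h4
    · have := Finset.add_sum_erase Q (fun c => c.L.length) hc1
      omega

end

section

/-- a new emergency set is processed -/
lemma process {β N q s m0 : ℕ} {Λ : ℝ} (hp : Par β N q s Λ m0) {M B R : Finset (ℕ × ℕ)}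
    {K : Finset Clu} (h : Sys β N q s Λ m0 M B R K) (A : Idx) (hA : A ∈ fam N q)
    (hAn : ∀ c ∈ K, A ∉ c.S) (h2 : (lat q A \ (M ∪ R)).card ≤ s)
    (h3 : s ≤ (lat q A \ (M ∪ B)).card)
    (hno : ∀ (L : List Idx) (C : Finset (ℕ × ℕ)), m0 ≤ L.length → L.length ≤ q ^ 2 * m0 →
      IsBig β N q s Λ L C → ¬ C ⊆ M \ R) :
    ∃ K' : Finset Clu, Sys β N q s Λ m0 M B (R ∪ (lat q A \ (M ∪ R))) K' ∧
      ∀ A' : Idx, (∃ c ∈ K', A' ∈ c.S) ↔ (A' = A ∨ ∃ c ∈ K, A' ∈ c.S) := by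
  classical
  obtain ⟨n, hn1, hn2⟩ := new_cluster hp h A hA hAn h2 h3 hno
    (K.filter fun c => ∃ A' ∈ c.S, ¬ Disjoint (lat q A') (lat q A)) (fun c => by rw [mem_filter])
  have hQ : ∀ c : Clu, c ∈ (K.filter fun c => ∃ A' ∈ c.S, ¬ Disjoint (lat q A') (lat q A)) ↔
      c ∈ K ∧ ∃ A' ∈ c.S, ¬ Disjoint (lat q A') (lat q A) := fun c => by rw [mem_filter]
  have hU : ∀ c : Clu, c ∈ (K.filter fun c => ¬ ∃ A' ∈ c.S, ¬ Disjoint (lat q A') (lat q A)) ↔
      c ∈ K ∧ ∀ A' ∈ c.S, Disjoint (lat q A') (lat q A) := by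
    intro c
    rw [mem_filter]
    push Not
    rfl
  -- disjointness of the new cluster from the unlinked old ones
  have hkey : ∀ c : Clu, c ∈ K → (∀ A' ∈ c.S, Disjoint (lat q A') (lat q A)) →
      ∀ A1 ∈ n.S, ∀ A2 ∈ c.S, Disjoint (lat q A1) (lat q A2) := by
    intro c hc hcu A1 hA1 A2 hA2
    rcases (hn2 A1).1 hA1 with rfl | ⟨c', hc', hA1'⟩
    · exact (hcu A2 hA2).symm
    · obtain ⟨hc'K, A3, hA3, hA3n⟩ := (hQ c').1 hc'
      refine h.disj c' hc'K c hc ?_ A1 hA1' A2 hA2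
      rintro rfl
      exact hA3n (hcu A3 hA3)
  refine ⟨insert n (K.filter fun c => ¬ ∃ A' ∈ c.S, ¬ Disjoint (lat q A') (lat q A)),
    ⟨h.mb, ?_, ?_, ?_⟩, ?_⟩
  · intro c hc
    rcases mem_insert.1 hc with rfl | hc
    · exact hn1
    · obtain ⟨hcK, hcu⟩ := (hU c).1 hc
      have ho := h.ok c hcK
      refine ⟨ho.sfam, ?_, ho.shull, ho.ls, ho.nodup, ho.cert, ?_, ho.inv, ho.len, ho.pot0, ho.pot⟩
      · intro A' hA' z hz
        have := ho.smr A' hA' hz
        rw [mem_union] at this ⊢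
        rw [mem_union]
        tauto
      · intro z hz
        have := ho.certM hz
        rw [mem_sdiff] at this
        rw [mem_sdiff, mem_union, mem_sdiff, mem_union]
        tauto
  · intro z hz
    rcases mem_union.1 hz with hz | hz
    · obtain ⟨c, hc, A', hA', hz'⟩ := h.cover z hz
      by_cases hl : ∃ A' ∈ c.S, ¬ Disjoint (lat q A') (lat q A)
      · exact ⟨n, mem_insert_self _ _, A', (hn2 A').2 (Or.inr ⟨c, (hQ c).2 ⟨hc, hl⟩, hA'⟩), hz'⟩
      · exact ⟨c, mem_insert_of_mem (mem_filter.2 ⟨hc, hl⟩), A', hA', hz'⟩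
    · exact ⟨n, mem_insert_self _ _, A, (hn2 A).2 (Or.inl rfl), (mem_sdiff.1 hz).1⟩
  · intro c hc c' hc' hne A1 hA1 A2 hA2
    rcases mem_insert.1 hc with h1 | h1 <;> rcases mem_insert.1 hc' with h4 | h4
    · exact absurd (h1.trans h4.symm) hne
    · obtain ⟨hcK, hcu⟩ := (hU c').1 h4
      rw [h1] at hA1
      exact hkey c' hcK hcu A1 hA1 A2 hA2
    · obtain ⟨hcK, hcu⟩ := (hU c).1 h1
      rw [h4] at hA2
      exact (hkey c hcK hcu A2 hA2 A1 hA1).symm
    · exact h.disj c ((hU c).1 h1).1 c' ((hU c').1 h4).1 hne A1 hA1 A2 hA2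
  · intro A'
    constructor
    · rintro ⟨c, hc, hA'⟩
      rcases mem_insert.1 hc with h1 | h1
      · rw [h1] at hA'
        rcases (hn2 A').1 hA' with h5 | ⟨c', hc', h6⟩
        · exact Or.inl h5
        · exact Or.inr ⟨c', ((hQ c').1 hc').1, h6⟩
      · exact Or.inr ⟨c, ((hU c).1 h1).1, hA'⟩
    · rintro (h5 | ⟨c, hc, hA'⟩)
      · exact ⟨n, mem_insert_self _ _, (hn2 A').2 (Or.inl h5)⟩
      · by_cases hl : ∃ A' ∈ c.S, ¬ Disjoint (lat q A') (lat q A)
        · exact ⟨n, mem_insert_self _ _, (hn2 A').2 (Or.inr ⟨c, (hQ c).2 ⟨hc, hl⟩, hA'⟩)⟩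
        · exact ⟨c, mem_insert_of_mem (mem_filter.2 ⟨hc, hl⟩), hA'⟩

end

section

/-- all emergency sets are processed -/
lemma close_sys {β N q s m0 : ℕ} {Λ : ℝ} (hp : Par β N q s Λ m0) {M B R : Finset (ℕ × ℕ)}
    {K : Finset Clu} (h : Sys β N q s Λ m0 M B R K)
    (h3 : ∀ A ∈ fam N q, (∀ c ∈ K, A ∉ c.S) →
      ¬ Disjoint (lat q A) (B \ R) ∨ s ≤ (lat q A \ (M ∪ B)).card)
    (hno : ∀ (L : List Idx) (C : Finset (ℕ × ℕ)), m0 ≤ L.length → L.length ≤ q ^ 2 * m0 →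
      IsBig β N q s Λ L C → ¬ C ⊆ M \ R) :
    ∃ (R' : Finset (ℕ × ℕ)) (K' : Finset Clu), R ⊆ R' ∧ Disjoint (R' \ R) (M ∪ B) ∧
      Sys β N q s Λ m0 M B R' K' ∧
      ∀ A ∈ fam N q, (∀ c ∈ K', A ∉ c.S) →
        ¬ Disjoint (lat q A) (B \ R') ∨ s < (lat q A \ (M ∪ R')).card := by
  classical
  obtain ⟨n, hn⟩ : ∃ n, ((fam N q).filter (fun A => ∀ c ∈ K, A ∉ c.S)).card = n := ⟨_, rfl⟩
  induction n using Nat.strong_induction_on generalizing R K with
  | _ n ih =>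
    by_cases hex : ∃ A ∈ fam N q, (∀ c ∈ K, A ∉ c.S) ∧ Disjoint (lat q A) (B \ R) ∧
        (lat q A \ (M ∪ R)).card ≤ s
    · obtain ⟨A, hA, hAn, hd, hc⟩ := hex
      have h3' : s ≤ (lat q A \ (M ∪ B)).card := (h3 A hA hAn).resolve_left (fun hcon => hcon hd)
      obtain ⟨K1, hK1, hcov⟩ := process hp h A hA hAn hc h3' hno
      have hβ : ∀ x ∈ lat q A \ (M ∪ R), x ∉ M ∧ x ∉ R ∧ x ∉ B := by
        intro x hx
        rw [mem_sdiff, mem_union] at hx
        push Not at hx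
        refine ⟨hx.2.1, hx.2.2, fun hxB => ?_⟩
        exact (Finset.disjoint_left.1 hd) hx.1 (mem_sdiff.2 ⟨hxB, hx.2.2⟩)
      have hBR : B \ (R ∪ (lat q A \ (M ∪ R))) = B \ R := by
        ext x
        rw [mem_sdiff, mem_sdiff, mem_union]
        constructor
        · rintro ⟨h1, h2⟩
          exact ⟨h1, fun h4 => h2 (Or.inl h4)⟩
        · rintro ⟨h1, h2⟩
          refine ⟨h1, fun h4 => ?_⟩
          rcases h4 with h4 | h4
          · exact h2 h4
          · exact (hβ x h4).2.2 h1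
      have hunc : ∀ A' : Idx, (∀ c ∈ K1, A' ∉ c.S) → A' ≠ A ∧ ∀ c ∈ K, A' ∉ c.S := by
        intro A' h1
        have h2 : ¬ (A' = A ∨ ∃ c ∈ K, A' ∈ c.S) := by
          rw [← hcov A']
          rintro ⟨c, hc1, hc2⟩
          exact h1 c hc1 hc2
        push Not at h2
        exact h2
      have hlt : ((fam N q).filter (fun A => ∀ c ∈ K1, A ∉ c.S)).card < n := by
        rw [← hn]
        apply card_lt_card
        rw [Finset.ssubset_iff_of_subset]
        · refine ⟨A, mem_filter.2 ⟨hA, hAn⟩, fun h1 => ?_⟩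
          exact (hunc A (mem_filter.1 h1).2).1 rfl
        · intro A' h1
          rw [mem_filter] at h1 ⊢
          exact ⟨h1.1, (hunc A' h1.2).2⟩
      obtain ⟨R', K', hRR, hdis, hsys, hfin⟩ := ih _ hlt hK1
        (by
          intro A' hA' h1
          rw [hBR]
          exact h3 A' hA' (hunc A' h1).2)
        (by
          intro L C h1 h2 h4 h5
          refine hno L C h1 h2 h4 (h5.trans ?_)
          exact sdiff_subset_sdiff (Subset.refl M) subset_union_left) rfl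
      refine ⟨R', K', subset_union_left.trans hRR, ?_, hsys, hfin⟩
      rw [Finset.disjoint_left]
      intro x hx hxMB
      rw [mem_sdiff] at hx
      by_cases hxβ : x ∈ lat q A \ (M ∪ R)
      · rcases mem_union.1 hxMB with h1 | h1
        · exact (hβ x hxβ).1 h1
        · exact (hβ x hxβ).2.2 h1
      · refine (Finset.disjoint_left.1 hdis) (mem_sdiff.2 ⟨hx.1, fun h1 => ?_⟩) hxMB
        rcases mem_union.1 h1 with h2 | h2
        · exact hx.2 h2
        · exact hxβ h2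
    · refine ⟨R, K, Subset.refl _, ?_, h, ?_⟩
      · rw [sdiff_self]
        exact Finset.disjoint_left.2 fun x hx => by simp at hx
      · push Not at hex
        intro A hA hAn
        by_cases hd : Disjoint (lat q A) (B \ R)
        · exact Or.inr (hex A hA hAn hd)
        · exact Or.inl hd

end

end Pool.Agent.H47.RB
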