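import Pool.Agent.H47.RB.Process
import Pool.Agent.H47.RB.Greedy

/-!
One round.
-/

set_option autoImplicit false
set_option linter.unusedVariables false
set_option linter.unusedSectionVars false
set_option maxHeartbeats 4000000

namespace Pool.Agent.H47.RB

open Finset

section

lemma rb_sys {β N q s m0 : ℕ} {Λ : ℝ} {M B R : Finset (ℕ × ℕ)} {K : Finset Clu}
    (h : Sys β N q s Λ m0 M B R K) {x : ℕ × ℕ} (hxM : x ∉ M) (hxB : x ∉ B) (hxR : x ∉ R) :
    Sys β N q s Λ m0 (insert x M) B R K := by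
  refine ⟨?_, ?_, h.cover, h.disj⟩
  · rw [Finset.disjoint_insert_left]
    exact ⟨hxB, h.mb⟩
  · intro c hc
    have hk := h.ok c hc
    have hx : ∀ A ∈ c.S, x ∉ lat q A := by
      intro A hA hxA
      rcases Finset.mem_union.1 (hk.smr A hA hxA) with h1 | h1
      · exact hxM h1
      · exact hxR h1
    refine ⟨hk.sfam, ?_, hk.shull, hk.ls, hk.nodup, hk.cert, ?_, hk.inv, hk.len, ?_, ?_⟩
    · intro A hA
      exact (hk.smr A hA).trans (Finset.union_subset_union_left (Finset.subset_insert _ _))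
    · exact hk.certM.trans (Finset.sdiff_subset_sdiff (Finset.subset_insert _ _) (Finset.Subset.refl _))
    · rw [Pot_insert _ _ _ _ hx]
      exact hk.pot0
    · intro z hz hzM hzB
      rw [Finset.insert_comm, Pot_insert _ _ _ _ hx]
      exact hk.pot z hz (fun h1 => hzM (Finset.mem_insert_of_mem h1)) hzB

/-- Maker plays outside the small board -/
lemma round_big {b β N q s m0 : ℕ} {Λ : ℝ} (hb : 1 ≤ b) (hβb : β = b + 1) (hp : Par β N q s Λ m0) {M B R : Finset (ℕ × ℕ)}
    {K : Finset Clu} (hM : M ⊆ board N) (hB : B ⊆ board N) (h : Rest β N q s Λ m0 M B R K)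
    {x : ℕ × ℕ} (hx : x ∈ board N \ (M ∪ B)) (hxR : x ∉ R) :
    ∃ Y : Finset (ℕ × ℕ), Y ⊆ board N \ (M ∪ B ∪ {x}) ∧
      Y.card = min b (board N \ (M ∪ B ∪ {x})).card ∧ Good β N q s Λ m0 (M ∪ {x}) (B ∪ Y) := by
  have hβ2 := hp.hβ
  have hβ1 : (1 : ℝ) ≤ β := by exact_mod_cast (by omega : 1 ≤ β)
  have hβ0 : (0 : ℝ) < β := by linarith
  rw [Finset.mem_sdiff, Finset.mem_union, not_or] at hx
  obtain ⟨hxb, hxM, hxB⟩ := hx
  have hMp : M ∪ {x} = insert x M := by
    rw [Finset.insert_eq, Finset.union_comm]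
  have hFr : board N \ (M ∪ B ∪ {x}) = board N \ (insert x M ∪ B) := by
    congr 1
    ext y
    simp only [Finset.mem_union, Finset.mem_singleton, Finset.mem_insert]
    tauto
  rw [hMp, hFr]
  obtain ⟨Mp, hMpd⟩ : ∃ Mp, Mp = insert x M := ⟨_, rfl⟩
  rw [← hMpd]
  have hsys : Sys β N q s Λ m0 Mp B R K := by rw [hMpd]; exact rb_sys h.sys hxM hxB hxR
  have hMpb : Mp ⊆ board N := by
    rw [hMpd]; exact Finset.insert_subset hxb hM
  have hMR : Mp \ R ⊆ insert x (M \ R) := by
    intro y hy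
    rw [hMpd, Finset.mem_sdiff, Finset.mem_insert] at hy
    rw [Finset.mem_insert, Finset.mem_sdiff]
    tauto
  have hbigx := h.big x hxb hxM hxB hxR
  -- close the system
  obtain ⟨R', K', hRR, hRd, hsys', hout'⟩ := close_sys hp hsys (by
    intro A hA hAK
    by_cases hd : Disjoint (lat q A) (B \ R)
    · right
      rcases h.out A hA hAK with h1 | h1
      · exact absurd hd h1
      · have h2 : lat q A \ (M ∪ R) ⊆ insert x (lat q A \ (Mp ∪ B)) := by
          intro y hy
          rw [Finset.mem_sdiff, Finset.mem_union, not_or] at hy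
          rw [Finset.mem_insert]
          by_cases hyx : y = x
          · exact Or.inl hyx
          · right
            rw [Finset.mem_sdiff, Finset.mem_union, not_or]
            refine ⟨hy.1, ?_, ?_⟩
            · rw [hMpd, Finset.mem_insert, not_or]
              exact ⟨hyx, hy.2.1⟩
            · intro hyB
              exact Finset.disjoint_left.1 hd hy.1 (Finset.mem_sdiff.2 ⟨hyB, hy.2.2⟩)
        have h3 := Finset.card_le_card h2
        have h4 := Finset.card_insert_le x (lat q A \ (Mp ∪ B))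
        omega
    · exact Or.inl hd) (by
    intro L C hL1 hL2 hbig hC
    have hCb : C ∈ bigFam β N q s Λ m0 (q ^ 2 * m0) := by
      classical
      unfold bigFam
      exact Finset.mem_filter.2 ⟨Finset.mem_powerset.2 ((hC.trans Finset.sdiff_subset).trans hMpb),
        L, hL1, hL2, hbig⟩
    have h1 := one_le_Pot (b := (β : ℝ)) hβ0 (T := id) (M := insert x (M \ R)) (B := B ∪ R)
      hCb (hC.trans hMR) (by
        show Disjoint C (B ∪ R)
        rw [Finset.disjoint_left]
        intro y hy hy2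
        have hy3 := Finset.mem_sdiff.1 (hC hy)
        rcases Finset.mem_union.1 hy2 with h1 | h1
        · exact Finset.disjoint_left.1 hsys.mb hy3.1 h1
        · exact hy3.2 h1)
    linarith)
  obtain ⟨Y1, hY1, hY1c, hgreedy⟩ := greedy (bigFam β N q s Λ m0 (q ^ 2 * m0)) id b (Mp \ R')
    (B ∪ R') ((board N \ (Mp ∪ B)) \ R') (by
      rw [Finset.disjoint_left]
      intro y hy hy2
      rw [Finset.mem_sdiff, Finset.mem_sdiff, Finset.mem_union, not_or] at hy
      exact hy.1.2.1 (Finset.mem_sdiff.1 hy2).1)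
  have h3 : (b : ℝ) + 1 = (β : ℝ) := by rw [hβb]; push_cast; ring
  rw [h3] at hgreedy
  obtain ⟨Y, hYb, hbF, hbc⟩ := Finset.exists_subsuperset_card_eq
    (s := Y1) (t := board N \ (Mp ∪ B)) (n := min b (board N \ (Mp ∪ B)).card)
    (hY1.trans Finset.sdiff_subset) (by
      rw [hY1c]
      have := Finset.card_le_card
        (Finset.sdiff_subset : (board N \ (Mp ∪ B)) \ R' ⊆ board N \ (Mp ∪ B))
      omega) (min_le_right _ _)
  refine ⟨Y, hbF, hbc, R', K', ?_⟩
  have hbase : Pot (β : ℝ) (bigFam β N q s Λ m0 (q ^ 2 * m0)) id (Mp \ R') (B ∪ R') < 1 := by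
    have h1 : Mp \ R' ⊆ insert x (M \ R) :=
      (Finset.sdiff_subset_sdiff (Finset.Subset.refl _) hRR).trans hMR
    have h2 := Pot_mono (b := (β : ℝ)) hβ1 (bigFam β N q s Λ m0 (q ^ 2 * m0)) id (B ∪ R') h1
    have h4 := Pot_anti (b := (β : ℝ)) hβ0 (bigFam β N q s Λ m0 (q ^ 2 * m0)) id
      (insert x (M \ R)) (Finset.union_subset_union_right (s := B) hRR)
    linarith
  refine ⟨⟨?_, ?_, hsys'.cover, hsys'.disj⟩, ?_, ?_, ?_⟩
  · rw [Finset.disjoint_union_right]
    refine ⟨hsys'.mb, ?_⟩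
    rw [Finset.disjoint_left]
    intro y hy hy2
    have hy3 := hbF hy2
    rw [Finset.mem_sdiff, Finset.mem_union, not_or] at hy3
    exact hy3.2.1 hy
  · intro c hc
    have hk := hsys'.ok c hc
    refine ⟨hk.sfam, hk.smr, hk.shull, hk.ls, hk.nodup, hk.cert, hk.certM, hk.inv, hk.len, ?_, ?_⟩
    · exact (Pot_anti (by norm_num) _ _ _ Finset.subset_union_left).trans hk.pot0
    · intro z hz hzM hzB
      exact (Pot_anti (by norm_num) _ _ _ Finset.subset_union_left).trans
        (hk.pot z hz hzM (fun h1 => hzB (Finset.mem_union_left _ h1)))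
  · intro A hA hAK
    rcases hout' A hA hAK with h1 | h1
    · left
      intro h2
      apply h1
      refine Finset.disjoint_of_subset_right ?_ h2
      exact Finset.sdiff_subset_sdiff Finset.subset_union_left (Finset.Subset.refl _)
    · exact Or.inr h1
  · refine lt_of_le_of_lt (Pot_anti hβ0 _ _ _ ?_) hbase
    exact Finset.union_subset_union_left Finset.subset_union_left
  · intro z hz hzM hzB hzR
    rw [Finset.mem_union, not_or] at hzB
    have hzF : z ∈ ((board N \ (Mp ∪ B)) \ R') \ Y1 := by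
      rw [Finset.mem_sdiff, Finset.mem_sdiff, Finset.mem_sdiff, Finset.mem_union, not_or]
      exact ⟨⟨⟨hz, hzM, hzB.1⟩, hzR⟩, fun h1 => hzB.2 (hYb h1)⟩
    have h1 := hgreedy z hzF
    have h2 := Pot_anti (b := (β : ℝ)) hβ0 (bigFam β N q s Λ m0 (q ^ 2 * m0)) id
      (insert z (Mp \ R')) (B := B ∪ R' ∪ Y1) (B' := B ∪ Y ∪ R') (by
        intro y hy
        rw [Finset.mem_union, Finset.mem_union] at hy ⊢
        rcases hy with (h3 | h3) | h3
        · exact Or.inl (Or.inl h3)
        · exact Or.inr h3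
        · exact Or.inl (Or.inr (hYb h3)))
    linarith

end

section

/-- Maker plays in the small board -/
lemma round_small {b β N q s m0 : ℕ} {Λ : ℝ} (hb : 1 ≤ b) (hp : Par β N q s Λ m0) {M B R : Finset (ℕ × ℕ)}
    {K : Finset Clu} (hM : M ⊆ board N) (hB : B ⊆ board N) (h : Rest β N q s Λ m0 M B R K)
    {x : ℕ × ℕ} (hx : x ∈ board N \ (M ∪ B)) (hxR : x ∈ R) :
    ∃ Y : Finset (ℕ × ℕ), Y ⊆ board N \ (M ∪ B ∪ {x}) ∧
      Y.card = min b (board N \ (M ∪ B ∪ {x})).card ∧ Good β N q s Λ m0 (M ∪ {x}) (B ∪ Y) := by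
  have hβ2 := hp.hβ
  have hβ0 : (0 : ℝ) < β := by exact_mod_cast (by omega : 0 < β)
  obtain ⟨c0, hc0, A0, hA0, hxA0⟩ := h.sys.cover x hxR
  rw [mem_sdiff, mem_union] at hx
  obtain ⟨hxb, hxMB⟩ := hx
  have hxM : x ∉ M := fun h' => hxMB (Or.inl h')
  have hxB : x ∉ B := fun h' => hxMB (Or.inr h')
  set Fr := board N \ (M ∪ B ∪ {x}) with hFr
  have hFrM : Disjoint Fr (insert x M) := by
    rw [Finset.disjoint_left]
    intro z hz hz'
    rw [hFr, mem_sdiff, mem_union, mem_union, mem_singleton] at hz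
    rw [mem_insert] at hz'
    tauto
  obtain ⟨Y1, hY1, hY1c, hY1p⟩ := greedy c0.S (lat q) 1 (insert x M) B Fr hFrM
  obtain ⟨Y, hYb, hbF, hbc⟩ := Finset.exists_subsuperset_card_eq hY1 (n := min b Fr.card)
    (by rw [hY1c]; omega) (min_le_right _ _)
  have h2 : (((1 : ℕ) : ℝ) + 1) = 2 := by norm_num
  rw [h2] at hY1p
  have hMx : M ∪ {x} = insert x M := by
    ext z; simp only [mem_union, mem_singleton, mem_insert]; tauto
  have hM1 : insert x M ∪ R = M ∪ R := by
    ext z; simp only [mem_union, mem_insert]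
    constructor
    · rintro ((rfl | h1) | h1)
      · exact Or.inr hxR
      · exact Or.inl h1
      · exact Or.inr h1
    · tauto
  have hM2 : insert x M \ R = M \ R := by
    ext z; simp only [mem_sdiff, mem_insert]
    constructor
    · rintro ⟨rfl | h1, h2⟩
      · exact absurd hxR h2
      · exact ⟨h1, h2⟩
    · tauto
  have hBb : B ⊆ B ∪ Y := subset_union_left
  refine ⟨Y, hbF, hbc, R, K, ?_⟩
  rw [hMx]
  have hxc : ∀ c ∈ K, c ≠ c0 → ∀ A ∈ c.S, x ∉ lat q A := by
    intro c hc hcc A hA hxA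
    exact (Finset.disjoint_left.1 (h.sys.disj c hc c0 hc0 hcc A hA A0 hA0)) hxA hxA0
  refine ⟨⟨?_, ?_, h.sys.cover, h.sys.disj⟩, ?_, ?_, ?_⟩
  · rw [Finset.disjoint_left]
    intro z hz hz'
    rw [mem_insert] at hz
    rw [mem_union] at hz'
    rcases hz' with hz' | hz'
    · rcases hz with rfl | hz
      · exact hxB hz'
      · exact Finset.disjoint_left.1 h.sys.mb hz hz'
    · exact Finset.disjoint_left.1 hFrM (hbF hz') (mem_insert.2 hz)
  · intro c hc
    have hok := h.sys.ok c hc
    refine ⟨hok.sfam, ?_, hok.shull, hok.ls, hok.nodup, hok.cert, ?_, hok.inv, hok.len, ?_, ?_⟩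
    · intro A hA
      rw [hM1]
      exact hok.smr A hA
    · rw [hM2]
      exact hok.certM
    · by_cases hcc : c = c0
      · subst hcc
        exact (Pot_anti (by norm_num) _ _ _ hBb).trans (hok.pot x hxb hxM hxB)
      · rw [Pot_insert _ _ _ _ (hxc c hc hcc)]
        exact (Pot_anti (by norm_num) _ _ _ hBb).trans hok.pot0
    · intro z hz hzM hzB
      rw [mem_insert, not_or] at hzM
      rw [mem_union, not_or] at hzB
      by_cases hcc : c = c0
      · subst hcc
        have hzF : z ∈ Fr \ Y1 := by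
          rw [mem_sdiff, hFr, mem_sdiff, mem_union, mem_union, mem_singleton]
          refine ⟨⟨hz, ?_⟩, fun h' => hzB.2 (hYb h')⟩
          rintro ((h' | h') | h')
          · exact hzM.2 h'
          · exact hzB.1 h'
          · exact hzM.1 h'
        refine (Pot_anti (by norm_num) _ _ _ (Finset.union_subset_union_right hYb)).trans ?_
        exact (hY1p z hzF).trans (hok.pot x hxb hxM hxB)
      · rw [Finset.insert_comm, Pot_insert _ _ _ _ (hxc c hc hcc)]
        exact (Pot_anti (by norm_num) _ _ _ hBb).trans (hok.pot z hz hzM.2 hzB.1)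
  · intro A hA hAc
    rw [hM1]
    rcases h.out A hA hAc with h1 | h1
    · left
      intro h3
      apply h1
      exact h3.mono_right (Finset.sdiff_subset_sdiff hBb (le_refl _))
    · exact Or.inr h1
  · rw [hM2]
    exact lt_of_le_of_lt (Pot_anti hβ0 _ _ _
      (Finset.union_subset_union_left hBb)) h.big0
  · intro z hz hzM hzB hzR
    rw [hM2]
    rw [mem_insert, not_or] at hzM
    rw [mem_union, not_or] at hzB
    exact lt_of_le_of_lt (Pot_anti hβ0 _ _ _
      (Finset.union_subset_union_left hBb)) (h.big z hz hzM.2 hzB.1 hzR)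

end

end Pool.Agent.H47.RB
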